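import Pool.Agent.Helper150.Cb.Core

namespace Pool.Agent.Helper150.Cb
open Matrix Complex
open scoped ComplexOrder

namespace PartJohnDet


/-- entry bound by the Euclidean norm -/
theorem jd_sup_le {n : ℕ} (z : Fin n → ℂ) : ‖z‖ ≤ Real.sqrt (∑ l, ‖z l‖ ^ 2) := by
  rw [pi_norm_le_iff_of_nonneg (Real.sqrt_nonneg _)]
  intro i
  apply Real.le_sqrt_of_sq_le
  exact Finset.single_le_sum (f := fun l => ‖z l‖ ^ 2) (fun l _ => by positivity) (Finset.mem_univ i)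

theorem jd_deriv {n : ℕ} (B : Matrix (Fin n) (Fin n) ℂ) (M : ℝ)
    (h : ∀ t : ℝ, 0 < t → (det (1 + (t : ℂ) • B)).re ≤ (1 + t * M) ^ n) :
    (Matrix.trace B).re ≤ n * M := by
  set q := (det (1 + (Polynomial.X : Polynomial ℂ) • B.map Polynomial.C)).divX.divX with hq
  have h1 : ∀ t : ℝ, det (1 + (t : ℂ) • B) = 1 + trace B * t + q.eval (t : ℂ) * (t : ℂ) ^ 2 := by
    intro t
    exact Matrix.det_one_add_smul (t : ℂ) B
  have h2 : ∀ t : ℝ, 0 < t →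
      (trace B).re ≤ (t⁻¹ * ((1 + t * M) ^ n - (1 + 0 * M) ^ n)) - (q.eval (t : ℂ) * (t : ℂ)).re := by
    intro t ht
    have h3 := h t ht
    rw [h1 t] at h3
    have h4 : (1 + trace B * t + q.eval (t : ℂ) * (t : ℂ) ^ 2).re
        = 1 + (trace B).re * t + (q.eval (t : ℂ) * (t : ℂ)).re * t := by
      have : q.eval (t : ℂ) * (t : ℂ) ^ 2 = (q.eval (t : ℂ) * (t : ℂ)) * (t : ℂ) := by ring
      rw [this]
      simp only [Complex.add_re, Complex.one_re, Complex.re_mul_ofReal]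
    rw [h4] at h3
    have h5 : t * ((trace B).re + (q.eval (t : ℂ) * (t : ℂ)).re) ≤ (1 + t * M) ^ n - 1 := by
      nlinarith
    have h6 : (trace B).re + (q.eval (t : ℂ) * (t : ℂ)).re ≤ t⁻¹ * ((1 + t * M) ^ n - 1) := by
      rw [inv_mul_eq_div, le_div_iff₀ ht]
      nlinarith
    have h7 : (1 + 0 * M) ^ n = 1 := by simp
    rw [h7]
    linarith
  have hd : HasDerivAt (fun t : ℝ => (1 + t * M) ^ n) (n * M) 0 := by
    have h8 : HasDerivAt (fun t : ℝ => 1 + t * M) M 0 := by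
      simpa using ((hasDerivAt_id (0 : ℝ)).mul_const M).const_add 1
    have h9 := h8.fun_pow n
    simpa using h9
  have ht1 : Filter.Tendsto (fun t : ℝ => t⁻¹ * ((1 + t * M) ^ n - (1 + 0 * M) ^ n))
      (nhdsWithin 0 (Set.Ioi 0)) (nhds (n * M)) := by
    have h10 := (hasDerivAt_iff_tendsto_slope.mp hd)
    have h11 : Filter.Tendsto (slope (fun t : ℝ => (1 + t * M) ^ n) 0) (nhdsWithin 0 (Set.Ioi 0))
        (nhds (n * M)) :=
      h10.mono_left (nhdsWithin_mono _ (fun x hx => ne_of_gt hx))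
    refine h11.congr (fun t => ?_)
    simp [slope_def_field, div_eq_inv_mul]
  have ht2 : Filter.Tendsto (fun t : ℝ => (q.eval (t : ℂ) * (t : ℂ)).re)
      (nhdsWithin 0 (Set.Ioi 0)) (nhds 0) := by
    have hc : Continuous (fun t : ℝ => (q.eval (t : ℂ) * (t : ℂ)).re) := by
      have := q.continuous
      fun_prop
    have h12 := hc.tendsto 0
    simp only [Complex.ofReal_zero, mul_zero, Complex.zero_re] at h12
    exact h12.mono_left nhdsWithin_le_nhds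
  have ht3 := ht1.sub ht2
  rw [sub_zero] at ht3
  refine ge_of_tendsto ht3 ?_
  filter_upwards [self_mem_nhdsWithin] with t ht
  exact h2 t ht



theorem john_det {n : ℕ} (hn : 0 < n) {X : Type*} [NormedAddCommGroup X] [NormedSpace ℂ X]
    [FiniteDimensional ℂ X] (hdim : Module.finrank ℂ X = n) :
    ∃ w : (Fin n → ℂ) ≃ₗ[ℂ] X, (∀ z, ‖w z‖ ^ 2 ≤ ∑ l, ‖z l‖ ^ 2) ∧
      ∀ (B : Matrix (Fin n) (Fin n) ℂ) (M : ℝ), 0 ≤ M →
        (∀ z : Fin n → ℂ, ‖w (B.mulVec z)‖ ≤ M * Real.sqrt (∑ l, ‖z l‖ ^ 2)) →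
        (Matrix.trace B).re ≤ n * M := by
  classical
  have hfr : Module.finrank ℂ (Fin n → ℂ) = Module.finrank ℂ X := by
    rw [hdim]; simp
  let e : (Fin n → ℂ) ≃ₗ[ℂ] X := LinearEquiv.ofFinrankEq _ _ hfr
  let ec : (Fin n → ℂ) ≃L[ℂ] X := e.toContinuousLinearEquiv
  have hee : ∀ z, ec z = e z := fun z => rfl
  let S : Set (Matrix (Fin n) (Fin n) ℂ) :=
    {g | ∀ z : Fin n → ℂ, ‖e (g.mulVec z)‖ ≤ Real.sqrt (∑ l, ‖z l‖ ^ 2)}
  have hec : Continuous (fun z => e z) := ec.continuous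
  have hScl : IsClosed S := by
    have : S = ⋂ z : Fin n → ℂ, {g | ‖e (g.mulVec z)‖ ≤ Real.sqrt (∑ l, ‖z l‖ ^ 2)} := by
      ext g; simp [S]
    rw [this]
    refine isClosed_iInter (fun z => ?_)
    refine isClosed_le ?_ continuous_const
    refine (hec.comp ?_).norm
    exact Continuous.matrix_mulVec continuous_id continuous_const
  obtain ⟨C, hC0, hC⟩ : ∃ C : ℝ, 0 < C ∧ ∀ z, ‖z‖ ≤ C * ‖e z‖ := by
    obtain ⟨K, hK⟩ : ∃ K : ℝ, ∀ x, ‖ec.symm x‖ ≤ K * ‖x‖ :=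
      ⟨‖(ec.symm : X →L[ℂ] (Fin n → ℂ))‖, fun x => (ec.symm : X →L[ℂ] (Fin n → ℂ)).le_opNorm x⟩
    refine ⟨|K| + 1, by positivity, fun z => ?_⟩
    have h1 := hK (ec z)
    rw [ec.symm_apply_apply] at h1
    have h2 : K ≤ |K| + 1 := by linarith [le_abs_self K]
    calc ‖z‖ ≤ K * ‖ec z‖ := h1
      _ ≤ (|K| + 1) * ‖ec z‖ := mul_le_mul_of_nonneg_right h2 (norm_nonneg _)
  have hScpt : IsCompact S := by
    have hK : IsCompact (Set.pi Set.univ (fun _ : Fin n => Set.pi Set.univ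
        (fun _ : Fin n => Metric.closedBall (0 : ℂ) C))) :=
      isCompact_univ_pi (fun _ => isCompact_univ_pi (fun _ => isCompact_closedBall _ _))
    refine IsCompact.of_isClosed_subset (s := (Set.pi Set.univ (fun _ : Fin n => Set.pi Set.univ
        (fun _ : Fin n => Metric.closedBall (0 : ℂ) C)))) hK hScl ?_
    intro (g : Matrix (Fin n) (Fin n) ℂ) hg
    simp only [Set.mem_pi, Set.mem_univ, true_imp_iff, Metric.mem_closedBall, dist_zero_right]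
    intro i j
    have h1 := hg (Pi.single j 1)
    have h2 : ∑ l, ‖(Pi.single j (1 : ℂ) : Fin n → ℂ) l‖ ^ 2 = 1 := by
      rw [Finset.sum_eq_single j]
      · simp
      · intro b _ hb; simp [Pi.single_eq_of_ne hb]
      · intro h; exact absurd (Finset.mem_univ j) h
    rw [h2, Real.sqrt_one] at h1
    have h3 : ‖g.mulVec (Pi.single j 1)‖ ≤ C := by
      calc ‖g.mulVec (Pi.single j 1)‖ ≤ C * ‖e (g.mulVec (Pi.single j 1))‖ := hC _
        _ ≤ C * 1 := mul_le_mul_of_nonneg_left h1 hC0.le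
        _ = C := mul_one C
    have h4 : g i j = (g.mulVec (Pi.single j 1)) i := by simp
    rw [h4]
    exact (norm_le_pi_norm _ i).trans h3
  obtain ⟨D, hD0, hD⟩ : ∃ D : ℝ, 0 < D ∧ ∀ z, ‖e z‖ ≤ D * ‖z‖ := by
    refine ⟨‖(ec : (Fin n → ℂ) →L[ℂ] X)‖ + 1, by positivity, fun z => ?_⟩
    have h1 := (ec : (Fin n → ℂ) →L[ℂ] X).le_opNorm z
    calc ‖e z‖ ≤ ‖(ec : (Fin n → ℂ) →L[ℂ] X)‖ * ‖z‖ := h1
      _ ≤ _ := mul_le_mul_of_nonneg_right (by linarith) (norm_nonneg _)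
  -- small multiple of the identity
  have hsmall : ((D⁻¹ : ℝ) : ℂ) • (1 : Matrix (Fin n) (Fin n) ℂ) ∈ S := by
    intro z
    rw [Matrix.smul_mulVec, Matrix.one_mulVec, map_smul, norm_smul, Complex.norm_real,
      Real.norm_eq_abs, abs_of_pos (inv_pos.mpr hD0)]
    calc D⁻¹ * ‖e z‖ ≤ D⁻¹ * (D * ‖z‖) := mul_le_mul_of_nonneg_left (hD z) (inv_pos.mpr hD0).le
      _ = ‖z‖ := by field_simp
      _ ≤ _ := jd_sup_le z
  obtain ⟨g, hgS, hgmax⟩ := hScpt.exists_isMaxOn ⟨_, hsmall⟩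
    (f := fun g : Matrix (Fin n) (Fin n) ℂ => ‖g.det‖)
    (Continuous.continuousOn (Continuous.norm (Continuous.matrix_det continuous_id)))
  have hgdet : g.det ≠ 0 := by
    have h1 : ‖(((D⁻¹ : ℝ) : ℂ) • (1 : Matrix (Fin n) (Fin n) ℂ)).det‖ ≤ ‖g.det‖ := hgmax hsmall
    have h2 : 0 < ‖(((D⁻¹ : ℝ) : ℂ) • (1 : Matrix (Fin n) (Fin n) ℂ)).det‖ := by
      rw [Matrix.det_smul, Matrix.det_one, mul_one, norm_pow, Complex.norm_real]
      have : 0 < ‖D⁻¹‖ := norm_pos_iff.mpr (inv_pos.mpr hD0).ne'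
      positivity
    exact norm_pos_iff.mp (lt_of_lt_of_le h2 h1)
  haveI : Invertible g := Matrix.invertibleOfIsUnitDet g (isUnit_iff_ne_zero.mpr hgdet)
  let w : (Fin n → ℂ) ≃ₗ[ℂ] X := (Matrix.toLinearEquiv' g inferInstance).trans e
  have hw : ∀ z, w z = e (g.mulVec z) := by
    intro z
    rfl
  refine ⟨w, ?_, ?_⟩
  · intro z
    have h1 : ‖w z‖ ≤ Real.sqrt (∑ l, ‖z l‖ ^ 2) := by rw [hw]; exact hgS z
    have h2 : 0 ≤ ∑ l, ‖z l‖ ^ 2 := Finset.sum_nonneg (fun l _ => by positivity)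
    calc ‖w z‖ ^ 2 ≤ (Real.sqrt (∑ l, ‖z l‖ ^ 2)) ^ 2 :=
          pow_le_pow_left₀ (norm_nonneg _) h1 2
      _ = _ := Real.sq_sqrt h2
  · intro B M hM hB
    apply jd_deriv
    intro t ht
    have hpos : 0 < 1 + t * M := by positivity
    have hmem : (((1 + t * M)⁻¹ : ℝ) : ℂ) • (g * (1 + (t : ℂ) • B)) ∈ S := by
      intro z
      have h1 : (g * (1 + (t : ℂ) • B)).mulVec z = g.mulVec z + (t : ℂ) • g.mulVec (B.mulVec z) := by
        rw [← Matrix.mulVec_mulVec, Matrix.add_mulVec, Matrix.one_mulVec, Matrix.smul_mulVec,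
          Matrix.mulVec_add, Matrix.mulVec_smul]
      rw [Matrix.smul_mulVec, h1, map_smul, map_add, map_smul, norm_smul, Complex.norm_real,
        Real.norm_eq_abs, abs_of_pos (inv_pos.mpr hpos)]
      have h2 : ‖e (g.mulVec z) + (t : ℂ) • e (g.mulVec (B.mulVec z))‖
          ≤ (1 + t * M) * Real.sqrt (∑ l, ‖z l‖ ^ 2) := by
        have h3 : ‖e (g.mulVec z)‖ ≤ Real.sqrt (∑ l, ‖z l‖ ^ 2) := hgS z
        have h4 : ‖(t : ℂ) • e (g.mulVec (B.mulVec z))‖ ≤ t * (M * Real.sqrt (∑ l, ‖z l‖ ^ 2)) := by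
          rw [norm_smul, Complex.norm_real, Real.norm_eq_abs, abs_of_pos ht]
          exact mul_le_mul_of_nonneg_left (hB z) ht.le
        calc _ ≤ ‖e (g.mulVec z)‖ + ‖(t : ℂ) • e (g.mulVec (B.mulVec z))‖ := norm_add_le _ _
          _ ≤ _ := by linarith
      calc (1 + t * M)⁻¹ * ‖e (g.mulVec z) + (t : ℂ) • e (g.mulVec (B.mulVec z))‖
          ≤ (1 + t * M)⁻¹ * ((1 + t * M) * Real.sqrt (∑ l, ‖z l‖ ^ 2)) :=
            mul_le_mul_of_nonneg_left h2 (inv_pos.mpr hpos).le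
        _ = _ := by field_simp
    have h5 : ‖((((1 + t * M)⁻¹ : ℝ) : ℂ) • (g * (1 + (t : ℂ) • B))).det‖ ≤ ‖g.det‖ := hgmax hmem
    rw [Matrix.det_smul, Matrix.det_mul, norm_mul, norm_mul, norm_pow, Complex.norm_real,
      Real.norm_eq_abs, abs_of_pos (inv_pos.mpr hpos), Fintype.card_fin] at h5
    have h6 : 0 < ‖g.det‖ := norm_pos_iff.mpr hgdet
    have h7 : ((1 + t * M)⁻¹) ^ n * ‖(1 + (t : ℂ) • B).det‖ ≤ 1 := by
      have : (((1 + t * M)⁻¹) ^ n * ‖(1 + (t : ℂ) • B).det‖) * ‖g.det‖ ≤ 1 * ‖g.det‖ := by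
        calc _ = (1 + t * M)⁻¹ ^ n * (‖g.det‖ * ‖(1 + (t : ℂ) • B).det‖) := by ring
          _ ≤ ‖g.det‖ := h5
          _ = 1 * ‖g.det‖ := (one_mul _).symm
      exact le_of_mul_le_mul_right this h6
    rw [inv_pow, inv_mul_le_iff₀ (pow_pos hpos n), mul_one] at h7
    exact (Complex.re_le_norm _).trans h7

end PartJohnDet

end Pool.Agent.Helper150.Cb
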