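import Pool.Agent.Helper150.Cb.Core
import Pool.Agent.Helper150.Cb.CompactHull
import Pool.Agent.Helper150.Cb.JohnDet

namespace Pool.Agent.Helper150.Cb
open Matrix Complex
open scoped ComplexOrder

namespace PartJohn
open PartCompactHull PartJohnDet










theorem exists_h {n : ℕ} {X : Type*} [NormedAddCommGroup X] [NormedSpace ℂ X]
    (w : (Fin n → ℂ) ≃ₗ[ℂ] X) (y : Fin n → ℂ) :
    ∃ h : Fin n → ℂ, (∀ z, ‖dotc h z‖ ≤ ‖w z‖) ∧ dotc h y = ((‖w y‖ : ℝ) : ℂ) := by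
  obtain ⟨g, hg, hgy⟩ := exists_dual_vector'' ℂ (w y)
  have key : ∀ z, dotc (fun l => star (g (w (fun j => if l = j then (1:ℂ) else 0)))) z
      = g (w z) := by
    intro z
    have h1 := LinearMap.pi_apply_eq_sum_univ ((g : X →ₗ[ℂ] ℂ).comp w.toLinearMap) z
    have h2 : ((g : X →ₗ[ℂ] ℂ).comp w.toLinearMap) z = g (w z) := rfl
    rw [← h2, h1]
    unfold dotc
    refine Finset.sum_congr rfl (fun i _ => ?_)
    rw [star_star, smul_eq_mul, mul_comm]
    rfl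
  refine ⟨fun l => star (g (w (fun j => if l = j then (1:ℂ) else 0))), ?_, ?_⟩
  · intro z
    rw [key z]
    calc ‖g (w z)‖ ≤ ‖g‖ * ‖w z‖ := g.le_opNorm _
      _ ≤ 1 * ‖w z‖ := by gcongr
      _ = ‖w z‖ := one_mul _
  · rw [key y]; exact hgy

theorem dotc_self {n : ℕ} (h : Fin n → ℂ) : dotc h h = ((∑ l, ‖h l‖ ^ 2 : ℝ) : ℂ) := by
  unfold dotc
  push_cast
  refine Finset.sum_congr rfl (fun i _ => ?_)
  have := Complex.conj_mul' (h i)
  simpa using this

/-- real functionals on matrices -/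
theorem exists_B {n : ℕ} (f : (Fin n → Fin n → ℂ) →L[ℝ] ℝ) :
    ∃ B : Matrix (Fin n) (Fin n) ℂ, ∀ M : Fin n → Fin n → ℂ,
      f M = (∑ i, ∑ j, M i j * B j i).re := by
  classical
  set E : Fin n → Fin n → ℂ → (Fin n → Fin n → ℂ) :=
    fun i j c a b => if a = i ∧ b = j then c else 0 with hE
  refine ⟨fun j i => (f (E i j 1) : ℂ) - I * (f (E i j I) : ℂ), fun M => ?_⟩
  have h1 : M = ∑ i, ∑ j, ((M i j).re • E i j 1 + (M i j).im • E i j I) := by
    funext a b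
    simp only [Finset.sum_apply, Pi.add_apply, Pi.smul_apply]
    rw [Finset.sum_eq_single a, Finset.sum_eq_single b]
    · simp only [hE]
      simp only [and_self, if_true]
      apply Complex.ext <;> simp
    · intro j _ hj
      simp only [hE]
      rw [if_neg (fun h => hj h.2.symm), if_neg (fun h => hj h.2.symm)]
      simp
    · intro h; exact absurd (Finset.mem_univ _) h
    · intro i _ hi
      refine Finset.sum_eq_zero (fun j _ => ?_)
      simp only [hE]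
      rw [if_neg (fun h => hi h.1.symm), if_neg (fun h => hi h.1.symm)]
      simp
    · intro h; exact absurd (Finset.mem_univ _) h
  conv_lhs => rw [h1]
  rw [map_sum, Complex.re_sum]
  refine Finset.sum_congr rfl (fun i _ => ?_)
  rw [map_sum, Complex.re_sum]
  refine Finset.sum_congr rfl (fun j _ => ?_)
  rw [map_add, map_smul, map_smul, smul_eq_mul, smul_eq_mul]
  simp [Complex.mul_re]

theorem N2_h_le {n : ℕ} {X : Type*} [NormedAddCommGroup X] [NormedSpace ℂ X]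
    (w : (Fin n → ℂ) ≃ₗ[ℂ] X) (hw : ∀ z, ‖w z‖ ^ 2 ≤ ∑ l, ‖z l‖ ^ 2) (h : Fin n → ℂ)
    (hh : ∀ y, ‖dotc h y‖ ≤ ‖w y‖) : ∑ l, ‖h l‖ ^ 2 ≤ 1 := by
  have h1 := hh h
  have h2 := hw h
  rw [dotc_self] at h1
  have h0 : 0 ≤ ∑ l, ‖h l‖ ^ 2 := Finset.sum_nonneg (fun i _ => by positivity)
  rw [Complex.norm_real, Real.norm_of_nonneg h0] at h1
  by_contra hcon
  push Not at hcon
  have h3 := norm_nonneg (w h)
  nlinarith

theorem compK {n : ℕ} {X : Type*} [NormedAddCommGroup X] [NormedSpace ℂ X]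
    (w : (Fin n → ℂ) ≃ₗ[ℂ] X) (hw : ∀ z, ‖w z‖ ^ 2 ≤ ∑ l, ‖z l‖ ^ 2) :
    IsCompact {p : (Fin n → ℂ) × (Fin n → ℂ) | (∑ l, ‖p.1 l‖ ^ 2 ≤ 1) ∧
      ∀ y, ‖dotc p.2 y‖ ≤ ‖w y‖} := by
  apply Metric.isCompact_of_isClosed_isBounded
  · apply IsClosed.inter
    · have hc : Continuous (fun p : (Fin n → ℂ) × (Fin n → ℂ) => ∑ l, ‖p.1 l‖ ^ 2) := by
        fun_prop
      exact isClosed_le hc continuous_const
    · have : {p : (Fin n → ℂ) × (Fin n → ℂ) | ∀ y, ‖dotc p.2 y‖ ≤ ‖w y‖}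
          = ⋂ y, {p : (Fin n → ℂ) × (Fin n → ℂ) | ‖dotc p.2 y‖ ≤ ‖w y‖} := by
        ext p; simp
      change IsClosed {p : (Fin n → ℂ) × (Fin n → ℂ) | ∀ y, ‖dotc p.2 y‖ ≤ ‖w y‖}
      rw [this]
      refine isClosed_iInter (fun y => isClosed_le ?_ continuous_const)
      unfold dotc
      fun_prop
  · refine (Metric.isBounded_closedBall (x := (0 : (Fin n → ℂ) × (Fin n → ℂ))) (r := 1)).subset ?_
    rintro ⟨z, h⟩ ⟨hz, hh⟩
    rw [mem_closedBall_zero_iff]
    have hb : ∀ v : Fin n → ℂ, ∑ l, ‖v l‖ ^ 2 ≤ 1 → ‖v‖ ≤ 1 := by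
      intro v hv
      rw [pi_norm_le_iff_of_nonneg zero_le_one]
      intro i
      have h1 : ‖v i‖ ^ 2 ≤ ∑ l, ‖v l‖ ^ 2 :=
        Finset.single_le_sum (f := fun l => ‖v l‖ ^ 2) (fun _ _ => by positivity)
          (Finset.mem_univ i)
      have h2 := norm_nonneg (v i)
      by_contra hcon
      push Not at hcon
      nlinarith
    exact max_le (hb z hz) (hb h (N2_h_le w hw h hh))

theorem mem_hull {n : ℕ} (hn : 0 < n) {X : Type*} [NormedAddCommGroup X] [NormedSpace ℂ X]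
    [FiniteDimensional ℂ X]
    (w : (Fin n → ℂ) ≃ₗ[ℂ] X) (hw : ∀ z, ‖w z‖ ^ 2 ≤ ∑ l, ‖z l‖ ^ 2)
    (hB : ∀ (B : Matrix (Fin n) (Fin n) ℂ) (M : ℝ), 0 ≤ M →
        (∀ z : Fin n → ℂ, ‖w (B.mulVec z)‖ ≤ M * Real.sqrt (∑ l, ‖z l‖ ^ 2)) →
        (Matrix.trace B).re ≤ n * M) :
    (fun i j => if i = j then ((1 / n : ℝ) : ℂ) else 0 : Fin n → Fin n → ℂ) ∈
      convexHull ℝ ((fun p : (Fin n → ℂ) × (Fin n → ℂ) => fun i j => p.1 i * star (p.2 j)) ''
        {p : (Fin n → ℂ) × (Fin n → ℂ) | (∑ l, ‖p.1 l‖ ^ 2 ≤ 1) ∧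
          ∀ y, ‖dotc p.2 y‖ ≤ ‖w y‖}) := by
  have hcomp := compact_hull ((compK w hw).image
    (f := (fun p : (Fin n → ℂ) × (Fin n → ℂ) => fun i j => p.1 i * star (p.2 j))) (by fun_prop))
  by_contra hnot
  obtain ⟨f, u, hfu, hux⟩ := geometric_hahn_banach_closed_point (convex_convexHull ℝ _)
    hcomp.isClosed hnot
  obtain ⟨B, hfB⟩ := exists_B f
  have hf0 : 0 < u := by
    have h1 := hfu 0 (subset_convexHull ℝ _ ⟨(0, 0), ⟨by simp, by
      intro y; unfold dotc; simp⟩, by funext i j; simp⟩)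
    simpa using h1
  have h1 : ∀ z : Fin n → ℂ, ∑ l, ‖z l‖ ^ 2 ≤ 1 → ‖w (B.mulVec z)‖ ≤ u := by
    intro z hz
    obtain ⟨h, hh, hhy⟩ := exists_h w (B.mulVec z)
    have h2 := hfu _ (subset_convexHull ℝ _ ⟨(z, h), ⟨hz, hh⟩, rfl⟩)
    rw [hfB] at h2
    have h3 : (∑ i, ∑ j, (z i * star (h j)) * B j i) = dotc h (B.mulVec z) := by
      unfold dotc Matrix.mulVec dotProduct
      rw [Finset.sum_comm]
      refine Finset.sum_congr rfl (fun j _ => ?_)
      rw [Finset.mul_sum]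
      refine Finset.sum_congr rfl (fun i _ => ?_)
      ring
    change (∑ i, ∑ j, (z i * star (h j)) * B j i).re < u at h2
    rw [h3, hhy, Complex.ofReal_re] at h2
    exact h2.le
  have h2 : ∀ z : Fin n → ℂ, ‖w (B.mulVec z)‖ ≤ u * Real.sqrt (∑ l, ‖z l‖ ^ 2) := by
    intro z
    set s := Real.sqrt (∑ l, ‖z l‖ ^ 2) with hs
    have h0 : 0 ≤ ∑ l, ‖z l‖ ^ 2 := Finset.sum_nonneg (fun i _ => by positivity)
    rcases eq_or_lt_of_le (Real.sqrt_nonneg (∑ l, ‖z l‖ ^ 2)) with h3 | h3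
    · have h4 : ∑ l, ‖z l‖ ^ 2 = 0 := by
        have := Real.sq_sqrt h0
        rw [← h3] at this; simpa using this.symm
      have h5 : z = 0 := by
        funext l
        have h6 := (Finset.sum_eq_zero_iff_of_nonneg (fun i _ => by positivity)).1 h4 l
          (Finset.mem_univ l)
        simpa using h6
      rw [h5]; simp
      positivity
    · have hsp : 0 < s := h3
      have hssq : s ^ 2 = ∑ l, ‖z l‖ ^ 2 := Real.sq_sqrt h0
      have h4 := h1 (((s⁻¹ : ℝ) : ℂ) • z) (by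
        have : ∑ l, ‖(((s⁻¹ : ℝ) : ℂ) • z) l‖ ^ 2 = (s⁻¹) ^ 2 * ∑ l, ‖z l‖ ^ 2 := by
          rw [Finset.mul_sum]
          refine Finset.sum_congr rfl (fun i _ => ?_)
          rw [Pi.smul_apply, smul_eq_mul, norm_mul, Complex.norm_real, Real.norm_eq_abs,
            mul_pow, sq_abs]
        rw [this, ← hssq]
        have : s⁻¹ ^ 2 * s ^ 2 = 1 := by
          rw [← mul_pow, inv_mul_cancel₀ hsp.ne', one_pow]
        rw [this])
      rw [Matrix.mulVec_smul, map_smul, norm_smul, Complex.norm_real, Real.norm_eq_abs,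
        abs_of_pos (inv_pos.2 hsp)] at h4
      rw [inv_mul_le_iff₀ hsp] at h4
      linarith
  have h3 := hB B u hf0.le h2
  rw [hfB] at hux
  have h4 : (∑ i, ∑ j, (if i = j then ((1 / n : ℝ) : ℂ) else 0) * B j i)
      = ((1 / n : ℝ) : ℂ) * Matrix.trace B := by
    unfold Matrix.trace
    rw [Finset.mul_sum]
    refine Finset.sum_congr rfl (fun i _ => ?_)
    rw [Finset.sum_eq_single i]
    · simp
    · intro j _ hj
      rw [if_neg (Ne.symm hj), zero_mul]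
    · intro h; exact absurd (Finset.mem_univ _) h
  change u < (∑ i, ∑ j, (if i = j then ((1 / n : ℝ) : ℂ) else 0) * B j i).re at hux
  rw [h4, Complex.re_ofReal_mul] at hux
  have hn' : (0 : ℝ) < n := by exact_mod_cast hn
  have h5 : n * u < (Matrix.trace B).re := by
    have h6 := mul_lt_mul_of_pos_left hux hn'
    have h7 : (n : ℝ) * (1 / n * (Matrix.trace B).re) = (Matrix.trace B).re := by
      field_simp
    rw [h7] at h6
    exact h6
  linarith

theorem eq_of_re {n : ℕ} (h z : Fin n → ℂ) (hh : ∑ l, ‖h l‖ ^ 2 ≤ 1) (hz : ∑ l, ‖z l‖ ^ 2 ≤ 1)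
    (hr : 1 ≤ (dotc h z).re) : z = h ∧ dotc h h = 1 := by
  have h1 : ∑ l, ‖h l - z l‖ ^ 2 = ∑ l, ‖h l‖ ^ 2 + ∑ l, ‖z l‖ ^ 2 - 2 * (dotc h z).re := by
    unfold dotc
    rw [Complex.re_sum, Finset.mul_sum, ← Finset.sum_add_distrib, ← Finset.sum_sub_distrib]
    refine Finset.sum_congr rfl (fun i _ => ?_)
    rw [← Complex.normSq_eq_norm_sq, ← Complex.normSq_eq_norm_sq, ← Complex.normSq_eq_norm_sq]
    simp [Complex.normSq_apply]
    ring
  have h2 : ∑ l, ‖h l - z l‖ ^ 2 = 0 := by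
    apply le_antisymm
    · rw [h1]; linarith
    · exact Finset.sum_nonneg (fun i _ => by positivity)
  have h3 : z = h := by
    funext l
    have h6 := (Finset.sum_eq_zero_iff_of_nonneg (fun i _ => by positivity)).1 h2 l
      (Finset.mem_univ l)
    have h7 : ‖h l - z l‖ = 0 := by simpa using h6
    rw [norm_eq_zero, sub_eq_zero] at h7
    exact h7.symm
  refine ⟨h3, ?_⟩
  subst h3
  rw [dotc_self] at hr ⊢
  rw [Complex.ofReal_re] at hr
  have : ∑ l, ‖z l‖ ^ 2 = 1 := le_antisymm hh hr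
  rw [this]; simp

theorem re_le_one {n : ℕ} (h z : Fin n → ℂ) (hh : ∑ l, ‖h l‖ ^ 2 ≤ 1)
    (hz : ∑ l, ‖z l‖ ^ 2 ≤ 1) : (dotc h z).re ≤ 1 := by
  have h1 : ∑ l, ‖h l - z l‖ ^ 2 = ∑ l, ‖h l‖ ^ 2 + ∑ l, ‖z l‖ ^ 2 - 2 * (dotc h z).re := by
    unfold dotc
    rw [Complex.re_sum, Finset.mul_sum, ← Finset.sum_add_distrib, ← Finset.sum_sub_distrib]
    refine Finset.sum_congr rfl (fun i _ => ?_)
    rw [← Complex.normSq_eq_norm_sq, ← Complex.normSq_eq_norm_sq, ← Complex.normSq_eq_norm_sq]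
    simp [Complex.normSq_apply]
    ring
  have h2 : 0 ≤ ∑ l, ‖h l - z l‖ ^ 2 := Finset.sum_nonneg (fun i _ => by positivity)
  linarith

theorem john {n : ℕ} (hn : 0 < n) {X : Type*} [NormedAddCommGroup X] [NormedSpace ℂ X]
    [FiniteDimensional ℂ X] (hdim : Module.finrank ℂ X = n) :
    ∃ (w : (Fin n → ℂ) ≃ₗ[ℂ] X) (N : ℕ) (lam : Fin N → ℝ) (h : Fin N → Fin n → ℂ),
      (∀ z, ‖w z‖ ^ 2 ≤ ∑ l, ‖z l‖ ^ 2) ∧ (∀ k, 0 ≤ lam k) ∧
      (∀ k, dotc (h k) (h k) = 1) ∧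
      (∀ k z, ‖dotc (h k) z‖ ≤ ‖w z‖) ∧
      (∀ i j, (n : ℂ) * ∑ k, (lam k : ℂ) * (h k i * star (h k j)) = if i = j then 1 else 0) := by
  classical
  obtain ⟨w, hw, hB⟩ := john_det hn hdim
  have hmem := mem_hull hn w hw hB
  rw [mem_convexHull_iff_exists_fintype] at hmem
  obtain ⟨ι, _, a, q, ha0, ha1, hq, hsum⟩ := hmem
  choose p hp hpq using hq
  have hentry : ∀ i j, ∑ k, (a k : ℂ) * ((p k).1 i * star ((p k).2 j))
      = if i = j then ((1 / n : ℝ) : ℂ) else 0 := by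
    intro i j
    have h1 := congrFun (congrFun hsum i) j
    rw [Finset.sum_apply, Finset.sum_apply] at h1
    rw [← h1]
    refine Finset.sum_congr rfl (fun k _ => ?_)
    rw [← hpq k]
    change _ = a k • ((p k).1 i * star ((p k).2 j))
    rw [Complex.real_smul]
  have hn' : (0 : ℝ) < n := by exact_mod_cast hn
  have htr : ∑ k, a k * (dotc (p k).2 (p k).1).re = 1 := by
    have h1 : ∑ i, ∑ k, (a k : ℂ) * ((p k).1 i * star ((p k).2 i)) = 1 := by
      simp_rw [hentry]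
      simp only [if_true]
      rw [Finset.sum_const, Finset.card_univ, Fintype.card_fin, nsmul_eq_mul]
      push_cast
      field_simp
    rw [Finset.sum_comm] at h1
    have h2 := congrArg Complex.re h1
    rw [Complex.re_sum, Complex.one_re] at h2
    rw [← h2]
    refine Finset.sum_congr rfl (fun k _ => ?_)
    unfold dotc
    rw [← Finset.mul_sum, Complex.re_ofReal_mul]
    congr 2
    refine Finset.sum_congr rfl (fun i _ => ?_)
    ring
  have hle : ∀ k, (dotc (p k).2 (p k).1).re ≤ 1 := fun k =>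
    re_le_one _ _ (N2_h_le w hw _ (hp k).2) (hp k).1
  have hzero : ∀ k, a k * (1 - (dotc (p k).2 (p k).1).re) = 0 := by
    have h1 : ∑ k, a k * (1 - (dotc (p k).2 (p k).1).re) = 0 := by
      simp_rw [mul_sub, mul_one]
      rw [Finset.sum_sub_distrib, htr, ha1, sub_self]
    intro k
    exact (Finset.sum_eq_zero_iff_of_nonneg (fun i _ =>
      mul_nonneg (ha0 i) (by linarith [hle i]))).1 h1 k (Finset.mem_univ k)
  have hpos : ∀ k, 0 < a k → (p k).1 = (p k).2 ∧ dotc (p k).2 (p k).2 = 1 := by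
    intro k hk
    refine eq_of_re _ _ (N2_h_le w hw _ (hp k).2) (hp k).1 ?_
    have h1 := hzero k
    rcases mul_eq_zero.1 h1 with h2 | h2
    · exact absurd h2 hk.ne'
    · linarith
  set e := Fintype.equivFin {k // 0 < a k} with he
  refine ⟨w, Fintype.card {k // 0 < a k}, fun m => a (e.symm m), fun m => (p (e.symm m)).2,
    hw, fun m => ha0 _, fun m => (hpos _ (e.symm m).2).2, fun m => (hp _).2, fun i j => ?_⟩
  have h1 : ∑ m, ((a (e.symm m) : ℝ) : ℂ) * ((p (e.symm m)).2 i * star ((p (e.symm m)).2 j))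
      = ∑ k, (a k : ℂ) * ((p k).1 i * star ((p k).2 j)) := by
    rw [Equiv.sum_comp e.symm (fun k : {k // 0 < a k} =>
      ((a k : ℝ) : ℂ) * ((p k).2 i * star ((p k).2 j)))]
    rw [← Finset.sum_subtype (Finset.univ.filter fun k => 0 < a k) (fun k => by simp)
      (fun k => ((a k : ℝ) : ℂ) * ((p k).2 i * star ((p k).2 j)))]
    rw [Finset.sum_filter]
    refine Finset.sum_congr rfl (fun k _ => ?_)
    split_ifs with hk
    · rw [(hpos k hk).1]
    · have h2 : a k = 0 := le_antisymm (not_lt.1 hk) (ha0 k)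
      rw [h2]; simp
  rw [h1, hentry]
  split_ifs
  · push_cast
    field_simp
  · simp

end PartJohn

end Pool.Agent.Helper150.Cb
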