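import Pool.Agent.Helper150.Cb.Core

namespace Pool.Agent.Helper150.Cb
open Matrix Complex
open scoped ComplexOrder

namespace PartLaplace



theorem hs_eq_sum {a m : ℕ} (X : Matrix (Fin a) (Fin m) ℂ) :
    hs X = ∑ i, ∑ j, Complex.normSq (X i j) := by
  unfold hs
  rw [Matrix.trace, Complex.re_sum, Finset.sum_comm]
  apply Finset.sum_congr rfl; intro j _
  rw [Matrix.diag_apply, Matrix.mul_apply, Complex.re_sum]
  apply Finset.sum_congr rfl; intro i _
  rw [Matrix.conjTranspose_apply, Complex.star_def, mul_comm, Complex.mul_conj]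
  exact Complex.ofReal_re _

theorem hs_sub_le {a m : ℕ} (X Y M : Matrix (Fin a) (Fin m) ℂ) :
    hs (X - Y) ≤ 2 * hs (X - M) + 2 * hs (Y - M) := by
  rw [hs_eq_sum, hs_eq_sum, hs_eq_sum, Finset.mul_sum, Finset.mul_sum, ← Finset.sum_add_distrib]
  apply Finset.sum_le_sum; intro i _
  rw [Finset.mul_sum, Finset.mul_sum, ← Finset.sum_add_distrib]
  apply Finset.sum_le_sum; intro j _
  simp only [Matrix.sub_apply, Complex.normSq_apply, Complex.sub_re, Complex.sub_im]
  nlinarith [sq_nonneg ((X i j).re + (Y i j).re - 2 * (M i j).re),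
    sq_nonneg ((X i j).im + (Y i j).im - 2 * (M i j).im)]

theorem hs_var {a m : ℕ} {ι : Type*} [Fintype ι] (lam : ι → ℝ) (hsum : ∑ k, lam k = 1)
    (T : ι → Matrix (Fin a) (Fin m) ℂ) :
    ∑ j, lam j * hs (T j - ∑ k, (lam k : ℂ) • T k)
      = ∑ j, lam j * hs (T j) - hs (∑ j, (lam j : ℂ) • T j) := by
  have key : ∀ (t : ι → ℂ), ∑ j, lam j * Complex.normSq (t j - ∑ k, (lam k : ℂ) * t k)
      = ∑ j, lam j * Complex.normSq (t j) - Complex.normSq (∑ k, (lam k : ℂ) * t k) := by
    intro t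
    set M : ℂ := ∑ k, (lam k : ℂ) * t k with hM
    have hre : M.re = ∑ k, lam k * (t k).re := by
      rw [hM, Complex.re_sum]
      apply Finset.sum_congr rfl; intro k _
      rw [Complex.re_ofReal_mul]
    have him : M.im = ∑ k, lam k * (t k).im := by
      rw [hM, Complex.im_sum]
      apply Finset.sum_congr rfl; intro k _
      rw [Complex.im_ofReal_mul]
    have h1 : ∑ j, lam j * Complex.normSq (t j - M)
        = ∑ j, lam j * Complex.normSq (t j) - 2 * M.re * ∑ j, lam j * (t j).re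
          - 2 * M.im * ∑ j, lam j * (t j).im + (M.re ^ 2 + M.im ^ 2) * ∑ j, lam j := by
      rw [Finset.mul_sum, Finset.mul_sum, Finset.mul_sum, ← Finset.sum_sub_distrib,
        ← Finset.sum_sub_distrib, ← Finset.sum_add_distrib]
      apply Finset.sum_congr rfl; intro j _
      simp only [Complex.normSq_apply, Complex.sub_re, Complex.sub_im]
      ring
    rw [h1, hsum, ← hre, ← him, Complex.normSq_apply M]
    ring
  have hentry : ∀ i j, (∑ k, (lam k : ℂ) • T k) i j = ∑ k, (lam k : ℂ) * T k i j := by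
    intro i j
    rw [Matrix.sum_apply]
    apply Finset.sum_congr rfl; intro k _
    rw [Matrix.smul_apply, smul_eq_mul]
  simp only [hs_eq_sum, Matrix.sub_apply, hentry]
  have h2 : ∑ j, lam j * ∑ x, ∑ y, Complex.normSq (T j x y - ∑ k, (lam k : ℂ) * T k x y)
      = ∑ x, ∑ y, ∑ j, lam j * Complex.normSq (T j x y - ∑ k, (lam k : ℂ) * T k x y) := by
    simp_rw [Finset.mul_sum]
    rw [Finset.sum_comm]
    apply Finset.sum_congr rfl; intro x _
    rw [Finset.sum_comm]
  have h3 : ∑ j, lam j * ∑ x, ∑ y, Complex.normSq (T j x y)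
      = ∑ x, ∑ y, ∑ j, lam j * Complex.normSq (T j x y) := by
    simp_rw [Finset.mul_sum]
    rw [Finset.sum_comm]
    apply Finset.sum_congr rfl; intro x _
    rw [Finset.sum_comm]
  rw [h2, h3, ← Finset.sum_sub_distrib]
  apply Finset.sum_congr rfl; intro x _
  rw [← Finset.sum_sub_distrib]
  apply Finset.sum_congr rfl; intro y _
  exact key (fun j => T j x y)

theorem hs_nonneg' {a m : ℕ} (X : Matrix (Fin a) (Fin m) ℂ) : 0 ≤ hs X := by
  rw [hs_eq_sum]
  exact Finset.sum_nonneg (fun i _ => Finset.sum_nonneg (fun j _ => Complex.normSq_nonneg _))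



theorem laplace_ineq {a m : ℕ} {ι : Type*} [Fintype ι] (n : ℝ) (hn : 0 < n)
    (lam : ι → ℝ) (hlam : ∀ k, 0 ≤ lam k) (hsum : ∑ k, lam k = 1)
    (s : ι → ι → ℝ) (hs0 : ∀ j k, 0 ≤ s j k) (hs1 : ∀ j k, s j k ≤ 1)
    (hsj : ∀ j, ∑ k, lam k * s j k = 1 / n) (hsk : ∀ k, ∑ j, lam j * s j k = 1 / n)
    (T : ι → Matrix (Fin a) (Fin m) ℂ) :
    ∑ j, ∑ k, lam j * lam k * (max (s j k - 1 / 2) 0 * hs (T j - T k))
      ≤ 2 / n * (∑ j, lam j * hs (T j) - hs (∑ j, (lam j : ℂ) • T j)) := by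
  set M : Matrix (Fin a) (Fin m) ℂ := ∑ j, (lam j : ℂ) • T j with hM
  have hvar := hs_var lam hsum T
  rw [← hM] at hvar
  have hsum1 : ∀ j k, lam j * lam k * (max (s j k - 1 / 2) 0 * hs (T j - T k))
      ≤ lam j * hs (T j - M) * (lam k * s j k) + lam k * hs (T k - M) * (lam j * s j k) := by
    intro j k
    have h1 : max (s j k - 1 / 2) 0 ≤ s j k / 2 := by
      apply max_le
      · have := hs1 j k; linarith
      · have := hs0 j k; linarith
    have h2 := hs_sub_le (T j) (T k) M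
    have h3 : max (s j k - 1 / 2) 0 * hs (T j - T k)
        ≤ s j k / 2 * (2 * hs (T j - M) + 2 * hs (T k - M)) := by
      apply mul_le_mul h1 h2 (hs_nonneg' _)
      have := hs0 j k; linarith
    have h4 : 0 ≤ lam j * lam k := mul_nonneg (hlam j) (hlam k)
    calc lam j * lam k * (max (s j k - 1 / 2) 0 * hs (T j - T k))
        ≤ lam j * lam k * (s j k / 2 * (2 * hs (T j - M) + 2 * hs (T k - M))) :=
          mul_le_mul_of_nonneg_left h3 h4
      _ = _ := by ring
  calc ∑ j, ∑ k, lam j * lam k * (max (s j k - 1 / 2) 0 * hs (T j - T k))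
      ≤ ∑ j, ∑ k, (lam j * hs (T j - M) * (lam k * s j k)
          + lam k * hs (T k - M) * (lam j * s j k)) :=
        Finset.sum_le_sum (fun j _ => Finset.sum_le_sum (fun k _ => hsum1 j k))
    _ = ∑ j, ∑ k, lam j * hs (T j - M) * (lam k * s j k)
          + ∑ k, ∑ j, lam k * hs (T k - M) * (lam j * s j k) := by
        simp_rw [Finset.sum_add_distrib]
        congr 1
        exact Finset.sum_comm
    _ = ∑ j, lam j * hs (T j - M) * (1 / n) + ∑ k, lam k * hs (T k - M) * (1 / n) := by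
        simp_rw [← Finset.mul_sum, hsj, hsk]
    _ = 2 / n * (∑ j, lam j * hs (T j) - hs M) := by
        rw [← hvar, ← Finset.sum_mul]
        ring

end PartLaplace

end Pool.Agent.Helper150.Cb
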