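import Pool.Agent.Helper150.Cb.Core

namespace Pool.Agent.Helper150.Cb
open Matrix Complex
open scoped ComplexOrder

namespace PartHankel




section aux
open scoped MatrixOrder

theorem psd_factor {m : ℕ} {A : Matrix (Fin m) (Fin m) ℂ} (hA : A.PosSemidef) :
    ∃ S : Matrix (Fin m) (Fin m) ℂ, A = Sᴴ * S := by
  obtain ⟨B, hB⟩ := CStarAlgebra.nonneg_iff_eq_star_mul_self.mp hA.nonneg
  exact ⟨B, hB⟩

end aux

theorem tr_nonneg {m : ℕ} {X Y : Matrix (Fin m) (Fin m) ℂ} (hX : X.PosSemidef)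
    (hY : Y.PosSemidef) : 0 ≤ (trace (X * Y)).re := by
  obtain ⟨S, rfl⟩ := psd_factor hX
  have h1 : trace (Sᴴ * S * Y) = trace (S * Y * Sᴴ) := by
    rw [Matrix.mul_assoc, Matrix.trace_mul_comm]
  rw [h1]
  have h2 := (hY.mul_mul_conjTranspose_same S).trace_nonneg
  exact (Complex.nonneg_iff.1 h2).1

theorem hankel_posdef {m : ℕ} (a d B α δ β : Matrix (Fin m) (Fin m) ℂ) (ha : a.PosDef)
    (hB : B.IsHermitian) (hδ : δ.PosSemidef)
    (hblock : (Matrix.fromBlocks a B B d).PosSemidef)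
    (hW : ∀ y : ℝ, (α + ((y ^ 2 : ℝ) : ℂ) • δ + ((2 * y : ℝ) : ℂ) • β).PosSemidef) :
    0 ≤ (trace (a * α) + trace (d * δ) + 2 * trace (B * β)).re := by
  obtain ⟨S, hS⟩ := psd_factor ha.posSemidef
  have hdet : IsUnit S.det := by
    have := ha.isUnit
    rw [Matrix.isUnit_iff_isUnit_det, hS, det_mul] at this
    exact isUnit_of_mul_isUnit_right this
  obtain ⟨C, hC⟩ : ∃ C, C = S⁻¹ := ⟨_, rfl⟩
  have hSC : S * C = 1 := by rw [hC]; exact Matrix.mul_nonsing_inv _ hdet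
  have hCS : C * S = 1 := by rw [hC]; exact Matrix.nonsing_inv_mul _ hdet
  have hB' : (Cᴴ * B * C).IsHermitian := Matrix.isHermitian_conjTranspose_mul_mul C hB
  obtain ⟨U, b, hU1, hU2, hsp⟩ : ∃ (U : Matrix (Fin m) (Fin m) ℂ) (b : Fin m → ℝ),
      U * Uᴴ = 1 ∧ Uᴴ * U = 1 ∧ Cᴴ * B * C = U * diagonal (fun i => (b i : ℂ)) * Uᴴ := by
    refine ⟨hB'.eigenvectorUnitary, hB'.eigenvalues, ?_, ?_, ?_⟩
    · exact Unitary.mul_star_self_of_mem hB'.eigenvectorUnitary.2
    · exact Unitary.star_mul_self_of_mem hB'.eigenvectorUnitary.2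
    · exact hB'.spectral_theorem
  obtain ⟨D, hD⟩ : ∃ D, D = diagonal (fun i => (b i : ℂ)) := ⟨_, rfl⟩
  rw [← hD] at hsp
  obtain ⟨R, hR⟩ : ∃ R, R = Uᴴ * S := ⟨_, rfl⟩
  obtain ⟨R', hR'⟩ : ∃ R', R' = C * U := ⟨_, rfl⟩
  have hRR' : R * R' = 1 := by
    rw [hR, hR', Matrix.mul_assoc, ← Matrix.mul_assoc S, hSC, Matrix.one_mul, hU2]
  have hR'R : R' * R = 1 := by
    rw [hR, hR', Matrix.mul_assoc, ← Matrix.mul_assoc U, hU1, Matrix.one_mul, hCS]
  have hRa : a = Rᴴ * R := by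
    rw [hR, hS, conjTranspose_mul, conjTranspose_conjTranspose, Matrix.mul_assoc,
      ← Matrix.mul_assoc U, hU1, Matrix.one_mul]
  have hRB : B = Rᴴ * D * R := by
    calc B = (C * S)ᴴ * B * (C * S) := by rw [hCS]; simp
      _ = Sᴴ * (Cᴴ * B * C) * S := by rw [conjTranspose_mul]; simp only [Matrix.mul_assoc]
      _ = Sᴴ * (U * D * Uᴴ) * S := by rw [hsp]
      _ = Rᴴ * D * R := by
        rw [hR, conjTranspose_mul, conjTranspose_conjTranspose]; simp only [Matrix.mul_assoc]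
  have hainv : a⁻¹ = R' * R'ᴴ := by
    apply Matrix.inv_eq_right_inv
    calc a * (R' * R'ᴴ) = Rᴴ * (R * R') * R'ᴴ := by rw [hRa]; simp only [Matrix.mul_assoc]
      _ = (R' * R)ᴴ := by rw [hRR', Matrix.mul_one, conjTranspose_mul]
      _ = 1 := by rw [hR'R, conjTranspose_one]
  have hBaB : B * a⁻¹ * B = Rᴴ * (D * D) * R := by
    calc B * a⁻¹ * B = Rᴴ * D * (R * R') * (R * R')ᴴ * D * R := by
          rw [hainv, conjTranspose_mul]
          conv_lhs => rw [hRB]
          simp only [Matrix.mul_assoc]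
      _ = Rᴴ * (D * D) * R := by rw [hRR']; simp [Matrix.mul_assoc]
  have hschur : (d - Rᴴ * (D * D) * R).PosSemidef := by
    let _ : Invertible a := ha.isUnit.invertible
    have h1 := (Matrix.PosDef.fromBlocks₁₁ B d ha).1 (by rw [hB.eq]; exact hblock)
    rw [hB.eq, hBaB] at h1
    exact h1
  have h1 := tr_nonneg hschur hδ
  rw [Matrix.sub_mul, trace_sub, Complex.sub_re] at h1
  -- the bracket
  have e1 : trace (a * α) = ∑ i, (R * α * Rᴴ) i i := by
    rw [hRa, Matrix.mul_assoc, Matrix.trace_mul_comm]; rfl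
  have e2 : trace (Rᴴ * (D * D) * R * δ) = ∑ i, ((b i : ℂ) ^ 2) * (R * δ * Rᴴ) i i := by
    have : Rᴴ * (D * D) * R * δ = Rᴴ * ((D * D) * (R * δ)) := by simp only [Matrix.mul_assoc]
    rw [this, Matrix.trace_mul_comm, Matrix.mul_assoc, hD, diagonal_mul_diagonal]
    simp only [Matrix.trace, Matrix.diag_apply, Matrix.diagonal_mul, sq]
  have e3 : trace (B * β) = ∑ i, (b i : ℂ) * (R * β * Rᴴ) i i := by
    have : B * β = Rᴴ * (D * (R * β)) := by
      conv_lhs => rw [hRB]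
      simp only [Matrix.mul_assoc]
    rw [this, Matrix.trace_mul_comm, Matrix.mul_assoc, hD]
    simp only [Matrix.trace, Matrix.diag_apply, Matrix.diagonal_mul]
  have h2 : 0 ≤ (trace (a * α) + trace (Rᴴ * (D * D) * R * δ) + 2 * trace (B * β)).re := by
    rw [e1, e2, e3, Finset.mul_sum, ← Finset.sum_add_distrib, ← Finset.sum_add_distrib,
      Complex.re_sum]
    apply Finset.sum_nonneg
    intro i _
    have h3 := ((hW (b i)).mul_mul_conjTranspose_same R).diag_nonneg (i := i)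
    have h4 : (R * (α + ((b i ^ 2 : ℝ) : ℂ) • δ + ((2 * b i : ℝ) : ℂ) • β) * Rᴴ) i i =
        (R * α * Rᴴ) i i + (b i : ℂ) ^ 2 * (R * δ * Rᴴ) i i +
          2 * ((b i : ℂ) * (R * β * Rᴴ) i i) := by
      simp only [Matrix.mul_add, Matrix.add_mul, Matrix.mul_smul, Matrix.smul_mul,
        Matrix.add_apply, Matrix.smul_apply, smul_eq_mul]
      push_cast
      ring
    rw [h4] at h3
    exact (Complex.nonneg_iff.1 h3).1
  simp only [Complex.add_re] at h2 ⊢
  linarith

theorem hankel_pair {m : ℕ} (a d B α δ β : Matrix (Fin m) (Fin m) ℂ)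
    (hB : B.IsHermitian) (hα : α.IsHermitian) (hδ : δ.IsHermitian) (hβ : β.IsHermitian)
    (hblock : (Matrix.fromBlocks a B B d).PosSemidef)
    (hW : ∀ x y : ℝ, (((x ^ 2 : ℝ) : ℂ) • α + ((y ^ 2 : ℝ) : ℂ) • δ +
      ((2 * x * y : ℝ) : ℂ) • β).PosSemidef) :
    0 ≤ (trace (a * α) + trace (d * δ) + 2 * trace (B * β)).re := by
  have hδp : δ.PosSemidef := by simpa using hW 0 1
  have hW1 : ∀ y : ℝ, (α + ((y ^ 2 : ℝ) : ℂ) • δ + ((2 * y : ℝ) : ℂ) • β).PosSemidef := by
    intro y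
    simpa using hW 1 y
  have hap : a.PosSemidef := by
    have := hblock.submatrix (Sum.inl : Fin m → Fin m ⊕ Fin m)
    have h2 : (Matrix.fromBlocks a B B d).submatrix (Sum.inl : Fin m → Fin m ⊕ Fin m) Sum.inl = a := by
      ext i j; rfl
    rwa [h2] at this
  have key : ∀ ε : ℝ, 0 < ε → 0 ≤ (trace (a * α) + trace (d * δ) + 2 * trace (B * β)).re +
      ε * (trace α).re := by
    intro ε hε
    have hone : ((ε : ℂ) • (1 : Matrix (Fin m) (Fin m) ℂ)).PosDef :=
      Matrix.PosDef.one.smul (by exact_mod_cast hε)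
    have h1 : (a + (ε : ℂ) • (1 : Matrix (Fin m) (Fin m) ℂ)).PosDef := Matrix.PosDef.posSemidef_add hap hone
    have h2 : (Matrix.fromBlocks (a + (ε : ℂ) • (1 : Matrix (Fin m) (Fin m) ℂ)) B B d).PosSemidef := by
      have h3 : (Matrix.fromBlocks ((ε : ℂ) • (1 : Matrix (Fin m) (Fin m) ℂ)) 0 0
          (0 : Matrix (Fin m) (Fin m) ℂ)).PosSemidef := by
        have h30 : (Matrix.fromBlocks ((ε : ℂ) • (1 : Matrix (Fin m) (Fin m) ℂ)) 0 0
            (0 : Matrix (Fin m) (Fin m) ℂ)) =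
            diagonal (Sum.elim (fun _ => (ε : ℂ)) (fun _ => (0 : ℂ))) := by
          rw [← Matrix.fromBlocks_diagonal, Matrix.smul_one_eq_diagonal, Matrix.diagonal_zero]
        rw [h30]
        apply Matrix.PosSemidef.diagonal
        rintro (i | i)
        · simpa using hε.le
        · simp
      have h4 := hblock.add h3
      simp only [fromBlocks_add, add_zero] at h4
      exact h4
    have h5 := hankel_posdef _ d B α δ β h1 hB hδp h2 hW1
    have h6 : trace ((a + (ε : ℂ) • (1 : Matrix (Fin m) (Fin m) ℂ)) * α) =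
        trace (a * α) + ε * trace α := by
      rw [Matrix.add_mul, trace_add, Matrix.smul_mul, Matrix.one_mul, trace_smul, smul_eq_mul]
    rw [h6] at h5
    simp only [Complex.add_re, Complex.re_ofReal_mul] at h5 ⊢
    linarith
  by_contra hneg
  push Not at hneg
  set f := (trace (a * α) + trace (d * δ) + 2 * trace (B * β)).re
  set t := (trace α).re
  have hpos : 0 < -f / (2 * (|t| + 1)) := by
    apply div_pos (by linarith)
    positivity
  have h1 := key _ hpos
  have h2 : -f / (2 * (|t| + 1)) * t ≤ -f / 2 := by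
    have h3 : t ≤ |t| + 1 := by linarith [le_abs_self t]
    calc -f / (2 * (|t| + 1)) * t ≤ -f / (2 * (|t| + 1)) * (|t| + 1) := by gcongr
      _ = -f / 2 := by field_simp
  linarith

end PartHankel

end Pool.Agent.Helper150.Cb
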