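import Pool.Agent.Helper150.Cb.Core
import Pool.Agent.Helper150.Cb.Hankel

namespace Pool.Agent.Helper150.Cb
open Matrix Complex
open scoped ComplexOrder

namespace PartBlochPair
open PartHankel







/-- real bilinear form -/
noncomputable def ip {m : ℕ} (X Y : Matrix (Fin m) (Fin m) ℂ) : ℝ := (trace (X * Y)).re

theorem psd_factor {n : Type} [Fintype n] [DecidableEq n] {A : Matrix n n ℂ} (hA : A.PosSemidef) :
    ∃ B : Matrix n n ℂ, A = Bᴴ * B := by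
  open scoped MatrixOrder in
  obtain ⟨B, hB⟩ := CStarAlgebra.nonneg_iff_eq_star_mul_self.mp hA.nonneg
  exact ⟨B, hB⟩

section ipl
variable {m : ℕ} (X Y Z : Matrix (Fin m) (Fin m) ℂ)

theorem ip_add_l : ip (X + Y) Z = ip X Z + ip Y Z := by
  simp [ip, Matrix.add_mul]

theorem ip_add_r : ip X (Y + Z) = ip X Y + ip X Z := by
  simp [ip, Matrix.mul_add]

theorem ip_sub_l : ip (X - Y) Z = ip X Z - ip Y Z := by
  simp [ip, Matrix.sub_mul]

theorem ip_sub_r : ip X (Y - Z) = ip X Y - ip X Z := by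
  simp [ip, Matrix.mul_sub]

theorem ip_neg_r : ip X (-Y) = - ip X Y := by
  simp [ip]

theorem ip_smul_l (a : ℝ) : ip ((a : ℂ) • X) Y = a * ip X Y := by
  simp [ip, Complex.re_ofReal_mul]

theorem ip_smul_r (a : ℝ) : ip X ((a : ℂ) • Y) = a * ip X Y := by
  simp [ip, Complex.re_ofReal_mul]

theorem ip_nonneg (hX : X.PosSemidef) (hY : Y.PosSemidef) : 0 ≤ ip X Y := by
  obtain ⟨B, rfl⟩ := psd_factor hY
  have h1 : trace (X * (Bᴴ * B)) = trace (B * X * Bᴴ) := by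
    rw [← Matrix.mul_assoc, Matrix.trace_mul_comm, Matrix.mul_assoc]
  have h2 : (0 : ℂ) ≤ trace (B * X * Bᴴ) := (hX.mul_mul_conjTranspose_same B).trace_nonneg
  unfold ip
  rw [h1]
  exact (Complex.le_def.1 h2).1

end ipl

section blocks
variable {m : ℕ}

/-- compression of a block matrix to a combination of its blocks -/
theorem block_comp (P Q R S : Matrix (Fin m) (Fin m) ℂ) (h : (fromBlocks P Q R S).PosSemidef)
    (a b : ℂ) :
    ((a * star a) • P + (a * star b) • Q + (b * star a) • R + (b * star b) • S).PosSemidef := by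
  have h1 := h.mul_mul_conjTranspose_same (Matrix.fromCols (a • (1 : Matrix (Fin m) (Fin m) ℂ))
    (b • (1 : Matrix (Fin m) (Fin m) ℂ)))
  have h2 : Matrix.fromCols (a • (1 : Matrix (Fin m) (Fin m) ℂ)) (b • (1 : Matrix (Fin m) (Fin m) ℂ))
      * fromBlocks P Q R S * (Matrix.fromCols (a • (1 : Matrix (Fin m) (Fin m) ℂ))
    (b • (1 : Matrix (Fin m) (Fin m) ℂ)))ᴴ =
      (a * star a) • P + (a * star b) • Q + (b * star a) • R + (b * star b) • S := by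
    rw [Matrix.conjTranspose_fromCols_eq_fromRows_conjTranspose, Matrix.fromCols_mul_fromBlocks,
      Matrix.fromCols_mul_fromRows]
    simp only [conjTranspose_smul, conjTranspose_one, smul_mul_assoc, one_mul, mul_smul_comm,
      mul_one, smul_add, smul_smul, add_mul, mul_add, Matrix.one_mul, Matrix.mul_one]
    rw [mul_comm (star a) a, mul_comm (star b) a, mul_comm (star a) b, mul_comm (star b) b]
    abel
  rw [h2] at h1
  exact h1

/-- expansion of a matrix to a block matrix with rank one coefficients -/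
theorem block_exp (D : Matrix (Fin m) (Fin m) ℂ) (h : D.PosSemidef) (a b : ℝ) :
    (fromBlocks (((a * a : ℝ) : ℂ) • D) (((a * b : ℝ) : ℂ) • D) (((b * a : ℝ) : ℂ) • D)
      (((b * b : ℝ) : ℂ) • D)).PosSemidef := by
  have h1 := h.mul_mul_conjTranspose_same (Matrix.fromRows ((a : ℂ) • (1 : Matrix (Fin m) (Fin m) ℂ))
    ((b : ℂ) • (1 : Matrix (Fin m) (Fin m) ℂ)))
  have h2 : Matrix.fromRows ((a : ℂ) • (1 : Matrix (Fin m) (Fin m) ℂ))
      ((b : ℂ) • (1 : Matrix (Fin m) (Fin m) ℂ)) * D *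
      (Matrix.fromRows ((a : ℂ) • (1 : Matrix (Fin m) (Fin m) ℂ))
      ((b : ℂ) • (1 : Matrix (Fin m) (Fin m) ℂ)))ᴴ =
      fromBlocks (((a * a : ℝ) : ℂ) • D) (((a * b : ℝ) : ℂ) • D) (((b * a : ℝ) : ℂ) • D)
      (((b * b : ℝ) : ℂ) • D) := by
    rw [Matrix.conjTranspose_fromRows_eq_fromCols_conjTranspose, Matrix.fromRows_mul,
      Matrix.fromRows_mul_fromCols]
    simp only [conjTranspose_smul, conjTranspose_one, smul_mul_assoc, one_mul, mul_smul_comm,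
      mul_one, smul_smul, Matrix.one_mul, Matrix.mul_one, Complex.star_def, Complex.conj_ofReal,
      Complex.ofReal_mul]
    congr 1
    · rw [mul_comm (b : ℂ) a]
    · rw [mul_comm (a : ℂ) b]
  rw [h2] at h1
  exact h1

/-- conjugation of a block matrix by a diagonal one -/
theorem block_diag (P Q R S : Matrix (Fin m) (Fin m) ℂ) (h : (fromBlocks P Q R S).PosSemidef)
    (x : ℂ) : (fromBlocks P (star x • Q) (x • R) ((x * star x) • S)).PosSemidef := by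
  have h1 := h.mul_mul_conjTranspose_same (Matrix.fromBlocks (1 : Matrix (Fin m) (Fin m) ℂ) 0 0
    (x • (1 : Matrix (Fin m) (Fin m) ℂ)))
  have h2 : Matrix.fromBlocks (1 : Matrix (Fin m) (Fin m) ℂ) 0 0
    (x • (1 : Matrix (Fin m) (Fin m) ℂ)) * fromBlocks P Q R S *
    (Matrix.fromBlocks (1 : Matrix (Fin m) (Fin m) ℂ) 0 0
    (x • (1 : Matrix (Fin m) (Fin m) ℂ)))ᴴ = fromBlocks P (star x • Q) (x • R) ((x * star x) • S) := by
    rw [Matrix.fromBlocks_conjTranspose, Matrix.fromBlocks_multiply, Matrix.fromBlocks_multiply]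
    simp only [conjTranspose_smul, conjTranspose_one, conjTranspose_zero, smul_mul_assoc, one_mul,
      mul_smul_comm, mul_one, smul_smul, Matrix.one_mul, Matrix.mul_one, Matrix.zero_mul,
      Matrix.mul_zero, add_zero, zero_add, smul_zero]
    rw [mul_comm (star x) x]
  rw [h2] at h1
  exact h1

theorem block_trace (P Q R S P' Q' R' S' : Matrix (Fin m) (Fin m) ℂ)
    (h : (fromBlocks P Q R S).PosSemidef) (h' : (fromBlocks P' Q' R' S').PosSemidef) :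
    0 ≤ ip P P' + ip Q R' + ip R Q' + ip S S' := by
  obtain ⟨B, hB⟩ := psd_factor h'
  have h1 : trace (fromBlocks P Q R S * (Bᴴ * B)) = trace (B * fromBlocks P Q R S * Bᴴ) := by
    rw [← Matrix.mul_assoc, Matrix.trace_mul_comm, Matrix.mul_assoc]
  have h2 : (0 : ℂ) ≤ trace (B * fromBlocks P Q R S * Bᴴ) :=
    (h.mul_mul_conjTranspose_same B).trace_nonneg
  have htr : ∀ X Y Z W : Matrix (Fin m) (Fin m) ℂ,
      trace (fromBlocks X Y Z W) = trace X + trace W := by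
    intro X Y Z W
    simp [Matrix.trace, Fintype.sum_sum_type]
  rw [← h1, ← hB, Matrix.fromBlocks_multiply, htr] at h2
  have h3 := (Complex.le_def.1 h2).1
  simp only [Matrix.trace_add, Complex.add_re, Complex.zero_re] at h3
  unfold ip
  linarith

end blocks



theorem bloch_pair {m : ℕ} (r k : ℝ) (hr : 0 ≤ r) (hk : 0 ≤ k) (hrk : r ^ 2 + k ^ 2 = 1)
    (τ E1 E2 E3 g0 g1 g2 g3 ρ : Matrix (Fin m) (Fin m) ℂ)
    (hτ : τ.IsHermitian) (hE1 : E1.IsHermitian) (hE2 : E2.IsHermitian) (hE3 : E3.IsHermitian)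
    (hg0 : g0.IsHermitian) (hg1 : g1.IsHermitian) (hg2 : g2.IsHermitian) (hg3 : g3.IsHermitian)
    (hρ : ρ.IsHermitian)
    (hS : (fromBlocks (τ + E2) (E1 - I • E3) (E1 + I • E3) (τ - E2)).PosSemidef)
    (hG : (fromBlocks (g0 + g2) (g1 - I • g3) (g1 + I • g3) (g0 - g2)).PosSemidef)
    (hW : ∀ n1 n2 n3 : ℝ, n1 ^ 2 + n2 ^ 2 + n3 ^ 2 = 1 →
      (ρ - (g0 + (n1 : ℂ) • g1 + (n2 : ℂ) • g2 + (n3 : ℂ) • g3)).PosSemidef)
    (Dj Dk : Matrix (Fin m) (Fin m) ℂ)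
    (hDj : Dj = 1 - (τ + (k : ℂ) • E1 + (r : ℂ) • E2))
    (hDk : Dk = 1 - (τ - (k : ℂ) • E1 + (r : ℂ) • E2))
    (hDj0 : Dj.PosSemidef) (hDk0 : Dk.PosSemidef) :
    0 ≤ 2 * k ^ 2 * (trace (τ * (ρ - g0)) - ((1 - 2 * r ^ 2 : ℝ) : ℂ) * (trace (E1 * g1) +
        trace (E2 * g2)) - trace (E3 * g3)).re
      + (trace (Dk * (((k ^ 2 : ℝ) : ℂ) • (ρ - (2 : ℂ) • g0)
          + (g0 - (k : ℂ) • g1 + (r : ℂ) • g2)
          + ((1 - 2 * r ^ 2 : ℝ) : ℂ) • (g0 + (k : ℂ) • g1 + (r : ℂ) • g2)))).re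
      + (trace (Dj * (((k ^ 2 : ℝ) : ℂ) • (ρ - (2 : ℂ) • g0)
          + (g0 + (k : ℂ) • g1 + (r : ℂ) • g2)
          + ((1 - 2 * r ^ 2 : ℝ) : ℂ) • (g0 - (k : ℂ) • g1 + (r : ℂ) • g2)))).re
      + max (r ^ 2 - 1 / 2) 0 * (2 * k ^ 2 * (trace (τ * g0) + trace (E1 * g1) -
          trace (E2 * g2) - trace (E3 * g3)).re) := by
  -- rewrite with the bilinear form
  have e1 : (trace (τ * (ρ - g0)) - ((1 - 2 * r ^ 2 : ℝ) : ℂ) * (trace (E1 * g1) +
        trace (E2 * g2)) - trace (E3 * g3)).re =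
      ip τ (ρ - g0) - (1 - 2 * r ^ 2) * (ip E1 g1 + ip E2 g2) - ip E3 g3 := by
    rw [Complex.sub_re, Complex.sub_re, Complex.re_ofReal_mul, Complex.add_re]
    rfl
  have e2 : ∀ (D s1 s2 : Matrix (Fin m) (Fin m) ℂ),
      (trace (D * (((k ^ 2 : ℝ) : ℂ) • (ρ - (2 : ℂ) • g0) + s1 +
        ((1 - 2 * r ^ 2 : ℝ) : ℂ) • s2))).re =
      k ^ 2 * (ip D ρ - 2 * ip D g0) + ip D s1 + (1 - 2 * r ^ 2) * ip D s2 := by
    intro D s1 s2
    have : (2 : ℂ) = ((2 : ℝ) : ℂ) := by norm_num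
    rw [this]
    change ip D _ = _
    rw [ip_add_r, ip_add_r, ip_smul_r, ip_smul_r, ip_sub_r, ip_smul_r]
  have e3 : (trace (τ * g0) + trace (E1 * g1) - trace (E2 * g2) - trace (E3 * g3)).re =
      ip τ g0 + ip E1 g1 - ip E2 g2 - ip E3 g3 := by
    rw [Complex.sub_re, Complex.sub_re, Complex.add_re]
    rfl
  rw [e1, e2 Dk, e2 Dj, e3]
  have hk2 : 0 ≤ k ^ 2 := sq_nonneg k
  have hr2 : 0 ≤ r ^ 2 := sq_nonneg r
  have hr1 : r ≤ 1 := by nlinarith
  -- positive semidefinite facts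
  have hI : (I : ℂ) * I = -1 := Complex.I_mul_I
  have hplus : (τ + E3).PosSemidef := by
    have h1 := block_comp _ _ _ _ hS (1 : ℂ) (-I)
    have h2 : ((1 : ℂ) * star 1) • (τ + E2) + ((1 : ℂ) * star (-I)) • (E1 - I • E3) +
        ((-I) * star 1) • (E1 + I • E3) + ((-I) * star (-I)) • (τ - E2) = (2 : ℂ) • (τ + E3) := by
      simp only [star_one, mul_one, star_neg, Complex.star_def, Complex.conj_I, neg_neg, one_mul,
        one_smul, smul_add, smul_sub, smul_smul, neg_mul, hI, neg_smul]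
      module
    rw [h2] at h1
    have h3 := h1.smul (by norm_num : (0 : ℝ) ≤ 1 / 2)
    have h4 : (1 / 2 : ℝ) • ((2 : ℂ) • (τ + E3)) = τ + E3 := by
      ext i j
      simp
    rwa [h4] at h3
  have hminus : (τ - E3).PosSemidef := by
    have h1 := block_comp _ _ _ _ hS (1 : ℂ) (I)
    have h2 : ((1 : ℂ) * star 1) • (τ + E2) + ((1 : ℂ) * star (I)) • (E1 - I • E3) +
        ((I) * star 1) • (E1 + I • E3) + ((I) * star (I)) • (τ - E2) = (2 : ℂ) • (τ - E3) := by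
      simp only [star_one, mul_one, star_neg, Complex.star_def, Complex.conj_I, neg_neg, one_mul,
        one_smul, smul_add, smul_sub, smul_smul, neg_mul, mul_neg, hI, neg_smul]
      module
    rw [h2] at h1
    have h3 := h1.smul (by norm_num : (0 : ℝ) ≤ 1 / 2)
    have h4 : (1 / 2 : ℝ) • ((2 : ℂ) • (τ - E3)) = τ - E3 := by
      ext i j
      simp
    rwa [h4] at h3
  have hw3p : (ρ - g0 - g3).PosSemidef := by
    have h1 := hW 0 0 1 (by norm_num)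
    have h2 : ρ - (g0 + ((0 : ℝ) : ℂ) • g1 + ((0 : ℝ) : ℂ) • g2 + ((1 : ℝ) : ℂ) • g3) =
        ρ - g0 - g3 := by
      push_cast; module
    rwa [h2] at h1
  have hw3m : (ρ - g0 + g3).PosSemidef := by
    have h1 := hW 0 0 (-1) (by norm_num)
    have h2 : ρ - (g0 + ((0 : ℝ) : ℂ) • g1 + ((0 : ℝ) : ℂ) • g2 + ((-1 : ℝ) : ℂ) • g3) =
        ρ - g0 + g3 := by
      push_cast; module
    rwa [h2] at h1
  have hEB : 0 ≤ ip (τ + E3) (ρ - g0 - g3) + ip (τ - E3) (ρ - g0 + g3) :=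
    add_nonneg (ip_nonneg _ _ hplus hw3p) (ip_nonneg _ _ hminus hw3m)
  have hWjk : (ρ - g0 - (k : ℂ) • g1 + (r : ℂ) • g2).PosSemidef := by
    have h1 := hW k (-r) 0 (by nlinarith)
    have h2 : ρ - (g0 + ((k : ℝ) : ℂ) • g1 + ((-r : ℝ) : ℂ) • g2 + ((0 : ℝ) : ℂ) • g3) =
        ρ - g0 - (k : ℂ) • g1 + (r : ℂ) • g2 := by
      push_cast; module
    rwa [h2] at h1
  have hWkj : (ρ - g0 + (k : ℂ) • g1 + (r : ℂ) • g2).PosSemidef := by
    have h1 := hW (-k) (-r) 0 (by nlinarith)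
    have h2 : ρ - (g0 + ((-k : ℝ) : ℂ) • g1 + ((-r : ℝ) : ℂ) • g2 + ((0 : ℝ) : ℂ) • g3) =
        ρ - g0 + (k : ℂ) • g1 + (r : ℂ) • g2 := by
      push_cast; module
    rwa [h2] at h1
  -- square roots
  obtain ⟨α, β, hα2, hβ2, hαβ⟩ : ∃ α β : ℝ, α * α = (1 + r) / 2 ∧ β * β = (1 - r) / 2 ∧
      α * β = k / 2 := by
    refine ⟨Real.sqrt ((1 + r) / 2), Real.sqrt ((1 - r) / 2), Real.mul_self_sqrt (by linarith),
      Real.mul_self_sqrt (by linarith), ?_⟩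
    rw [← Real.sqrt_mul (by linarith)]
    have : (1 + r) / 2 * ((1 - r) / 2) = (k / 2) ^ 2 := by nlinarith
    rw [this, Real.sqrt_sq (by linarith)]
  have hG' : ∀ a b : ℝ, ((((a * a + b * b : ℝ)) : ℂ) • g0 + (((2 * (a * b) : ℝ)) : ℂ) • g1 +
      (((a * a - b * b : ℝ)) : ℂ) • g2).PosSemidef := by
    intro a b
    have h1 := block_comp _ _ _ _ hG (a : ℂ) (b : ℂ)
    have h2 : ((a : ℂ) * star (a : ℂ)) • (g0 + g2) + ((a : ℂ) * star (b : ℂ)) • (g1 - I • g3) +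
        ((b : ℂ) * star (a : ℂ)) • (g1 + I • g3) + ((b : ℂ) * star (b : ℂ)) • (g0 - g2) =
        (((a * a + b * b : ℝ)) : ℂ) • g0 + (((2 * (a * b) : ℝ)) : ℂ) • g1 +
      (((a * a - b * b : ℝ)) : ℂ) • g2 := by
      simp only [Complex.star_def, Complex.conj_ofReal]
      push_cast
      module
    rwa [h2] at h1
  have hGjj : (g0 + (k : ℂ) • g1 + (r : ℂ) • g2).PosSemidef := by
    have h1 := hG' α β
    rw [hα2, hβ2, hαβ] at h1
    have h2 : (((1 + r) / 2 + (1 - r) / 2 : ℝ) : ℂ) • g0 + ((2 * (k / 2) : ℝ) : ℂ) • g1 +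
        (((1 + r) / 2 - (1 - r) / 2 : ℝ) : ℂ) • g2 = g0 + (k : ℂ) • g1 + (r : ℂ) • g2 := by
      push_cast; module
    rwa [h2] at h1
  have hGkk : (g0 - (k : ℂ) • g1 + (r : ℂ) • g2).PosSemidef := by
    have h1 := hG' α (-β)
    rw [neg_mul_neg, mul_neg, hα2, hβ2, hαβ] at h1
    have h2 : (((1 + r) / 2 + (1 - r) / 2 : ℝ) : ℂ) • g0 + ((2 * -(k / 2) : ℝ) : ℂ) • g1 +
        (((1 + r) / 2 - (1 - r) / 2 : ℝ) : ℂ) • g2 = g0 - (k : ℂ) • g1 + (r : ℂ) • g2 := by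
      push_cast; module
    rwa [h2] at h1
  have hjk1 := ip_nonneg _ _ hDk0 hWjk
  have hjk2 := ip_nonneg _ _ hDk0 hGkk
  have hkj1 := ip_nonneg _ _ hDj0 hWkj
  have hkj2 := ip_nonneg _ _ hDj0 hGjj
  by_cases hs : r ^ 2 ≤ 1 / 2
  · -- first case
    have hmax : max (r ^ 2 - 1 / 2) 0 = 0 := max_eq_right (by linarith)
    rw [hmax]
    have hTT : 0 ≤ ip (((k ^ 2 : ℝ) : ℂ) • (τ + E2) + (((1 - r) / 2 : ℝ) : ℂ) • (Dj + Dk))
          (ρ - g0 - g2) +
        ip (((k ^ 2 : ℝ) : ℂ) • (τ - E2) + (((1 + r) / 2 : ℝ) : ℂ) • (Dj + Dk)) (ρ - g0 + g2) -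
        2 * ip (((k ^ 2 : ℝ) : ℂ) • E3) g3 := by
      have hblk : (Matrix.fromBlocks
          (((k ^ 2 : ℝ) : ℂ) • (τ + E2) + (((1 - r) / 2 : ℝ) : ℂ) • (Dj + Dk))
          (-(I • (((k ^ 2 : ℝ) : ℂ) • E3))) (I • (((k ^ 2 : ℝ) : ℂ) • E3))
          (((k ^ 2 : ℝ) : ℂ) • (τ - E2) + (((1 + r) / 2 : ℝ) : ℂ) • (Dj + Dk))).PosSemidef := by
        have h1 := (hS.smul hk2).add ((block_exp Dj hDj0 β α).add (block_exp Dk hDk0 (-β) α))
        rw [neg_mul_neg, neg_mul, mul_neg, hα2, hβ2, hαβ, mul_comm β α, hαβ] at h1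
        have h2 : (k ^ 2) • (fromBlocks (τ + E2) (E1 - I • E3) (E1 + I • E3) (τ - E2)) +
            (fromBlocks ((((1 - r) / 2 : ℝ) : ℂ) • Dj) (((k / 2 : ℝ) : ℂ) • Dj)
              (((k / 2 : ℝ) : ℂ) • Dj) ((((1 + r) / 2 : ℝ) : ℂ) • Dj) +
             fromBlocks ((((1 - r) / 2 : ℝ) : ℂ) • Dk) (((-(k / 2) : ℝ) : ℂ) • Dk)
              (((-(k / 2) : ℝ) : ℂ) • Dk) ((((1 + r) / 2 : ℝ) : ℂ) • Dk)) =
            Matrix.fromBlocks
              (((k ^ 2 : ℝ) : ℂ) • (τ + E2) + (((1 - r) / 2 : ℝ) : ℂ) • (Dj + Dk))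
              (-(I • (((k ^ 2 : ℝ) : ℂ) • E3))) (I • (((k ^ 2 : ℝ) : ℂ) • E3))
              (((k ^ 2 : ℝ) : ℂ) • (τ - E2) + (((1 + r) / 2 : ℝ) : ℂ) • (Dj + Dk)) := by
          rw [Matrix.fromBlocks_smul, Matrix.fromBlocks_add, Matrix.fromBlocks_add, hDj, hDk]
          have hcoe : ∀ M : Matrix (Fin m) (Fin m) ℂ, (k ^ 2) • M = ((k ^ 2 : ℝ) : ℂ) • M := by
            intro M
            ext i j
            simp
          simp only [hcoe]
          congr 1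
          · push_cast; module
          · push_cast; module
          · push_cast; module
          · push_cast; module
        rw [h2] at h1
        exact h1
      have hblk2 := block_diag _ _ _ _ hblk (-I)
      have h3 : (star (-I : ℂ)) • (-(I • (((k ^ 2 : ℝ) : ℂ) • E3))) = ((k ^ 2 : ℝ) : ℂ) • E3 := by
        simp only [star_neg, Complex.star_def, Complex.conj_I, neg_neg, smul_neg, smul_smul,
          ← mul_assoc, hI]
        module
      have h4 : (-I : ℂ) • (I • (((k ^ 2 : ℝ) : ℂ) • E3)) = ((k ^ 2 : ℝ) : ℂ) • E3 := by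
        simp only [smul_smul, ← mul_assoc, neg_mul, hI]
        module
      have h5 : ((-I : ℂ) * star (-I)) = 1 := by
        simp [hI]
      rw [h3, h4, h5, one_smul] at hblk2
      have hE3' : (((k ^ 2 : ℝ) : ℂ) • E3).IsHermitian := by
        unfold Matrix.IsHermitian
        rw [conjTranspose_smul, hE3.eq, Complex.star_def, Complex.conj_ofReal]
      have hH := hankel_pair _ _ _ (ρ - g0 - g2) (ρ - g0 + g2) (-g3) hE3'
        ((hρ.sub hg0).sub hg2) ((hρ.sub hg0).add hg2) hg3.neg hblk2 ?_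
      · have h6 : (trace ((((k ^ 2 : ℝ) : ℂ) • (τ + E2) + (((1 - r) / 2 : ℝ) : ℂ) • (Dj + Dk)) *
            (ρ - g0 - g2)) + trace ((((k ^ 2 : ℝ) : ℂ) • (τ - E2) +
            (((1 + r) / 2 : ℝ) : ℂ) • (Dj + Dk)) * (ρ - g0 + g2)) +
            2 * trace ((((k ^ 2 : ℝ) : ℂ) • E3) * (-g3))).re =
            ip (((k ^ 2 : ℝ) : ℂ) • (τ + E2) + (((1 - r) / 2 : ℝ) : ℂ) • (Dj + Dk))
              (ρ - g0 - g2) +
            ip (((k ^ 2 : ℝ) : ℂ) • (τ - E2) + (((1 + r) / 2 : ℝ) : ℂ) • (Dj + Dk))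
              (ρ - g0 + g2) - 2 * ip (((k ^ 2 : ℝ) : ℂ) • E3) g3 := by
          have h7 : (2 : ℂ) * trace ((((k ^ 2 : ℝ) : ℂ) • E3) * (-g3)) =
              ((2 : ℝ) : ℂ) * trace ((((k ^ 2 : ℝ) : ℂ) • E3) * (-g3)) := by norm_num
          rw [h7, Complex.add_re, Complex.add_re, Complex.re_ofReal_mul]
          change _ + _ + 2 * ip _ (-g3) = _
          rw [ip_neg_r]
          unfold ip
          ring
        rw [h6] at hH
        exact hH
      · intro x y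
        by_cases hxy : x ^ 2 + y ^ 2 = 0
        · have hx : x = 0 := by nlinarith [sq_nonneg x, sq_nonneg y]
          have hy : y = 0 := by nlinarith [sq_nonneg x, sq_nonneg y]
          subst hx; subst hy
          simpa using Matrix.PosSemidef.zero
        · have hpos : 0 < x ^ 2 + y ^ 2 := lt_of_le_of_ne (by positivity) (Ne.symm hxy)
          have h8 := hW 0 ((x ^ 2 - y ^ 2) / (x ^ 2 + y ^ 2)) (2 * x * y / (x ^ 2 + y ^ 2)) (by
            field_simp; ring)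
          have h9 := h8.smul hpos.le
          have h10 : (x ^ 2 + y ^ 2) • (ρ - (g0 + ((0 : ℝ) : ℂ) • g1 +
              (((x ^ 2 - y ^ 2) / (x ^ 2 + y ^ 2) : ℝ) : ℂ) • g2 +
              ((2 * x * y / (x ^ 2 + y ^ 2) : ℝ) : ℂ) • g3)) =
              ((x ^ 2 : ℝ) : ℂ) • (ρ - g0 - g2) + ((y ^ 2 : ℝ) : ℂ) • (ρ - g0 + g2) +
              ((2 * x * y : ℝ) : ℂ) • (-g3) := by
            have hcoe : ∀ M : Matrix (Fin m) (Fin m) ℂ, (x ^ 2 + y ^ 2) • M =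
                ((x ^ 2 + y ^ 2 : ℝ) : ℂ) • M := by
              intro M
              ext i j
              simp
            rw [hcoe]
            have q1 : ((x ^ 2 - y ^ 2 : ℝ) : ℂ) = ((x ^ 2 + y ^ 2 : ℝ) : ℂ) *
                (((x ^ 2 - y ^ 2) / (x ^ 2 + y ^ 2) : ℝ) : ℂ) := by
              rw [← Complex.ofReal_mul]; congr 1; field_simp
            have q2 : ((2 * x * y : ℝ) : ℂ) = ((x ^ 2 + y ^ 2 : ℝ) : ℂ) *
                ((2 * x * y / (x ^ 2 + y ^ 2) : ℝ) : ℂ) := by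
              rw [← Complex.ofReal_mul]; congr 1; field_simp
            rw [smul_sub, smul_add, smul_add, smul_add, smul_smul, smul_smul, smul_smul, ← q1, ← q2]
            push_cast
            module
          rw [h10] at h9
          exact h9
    have hq : 0 ≤ 1 - 2 * r ^ 2 := by linarith
    have hfin : 2 * k ^ 2 * (ip τ (ρ - g0) - (1 - 2 * r ^ 2) * (ip E1 g1 + ip E2 g2) - ip E3 g3)
      + (k ^ 2 * (ip Dk ρ - 2 * ip Dk g0) + ip Dk (g0 - (k : ℂ) • g1 + (r : ℂ) • g2) +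
        (1 - 2 * r ^ 2) * ip Dk (g0 + (k : ℂ) • g1 + (r : ℂ) • g2))
      + (k ^ 2 * (ip Dj ρ - 2 * ip Dj g0) + ip Dj (g0 + (k : ℂ) • g1 + (r : ℂ) • g2) +
        (1 - 2 * r ^ 2) * ip Dj (g0 - (k : ℂ) • g1 + (r : ℂ) • g2))
      + 0 * (2 * k ^ 2 * (ip τ g0 + ip E1 g1 - ip E2 g2 - ip E3 g3)) =
      (1 - 2 * r ^ 2) * (ip (((k ^ 2 : ℝ) : ℂ) • (τ + E2) + (((1 - r) / 2 : ℝ) : ℂ) • (Dj + Dk))
          (ρ - g0 - g2) +
        ip (((k ^ 2 : ℝ) : ℂ) • (τ - E2) + (((1 + r) / 2 : ℝ) : ℂ) • (Dj + Dk)) (ρ - g0 + g2) -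
        2 * ip (((k ^ 2 : ℝ) : ℂ) • E3) g3)
      + k ^ 2 * (2 * r ^ 2) * (ip (τ + E3) (ρ - g0 - g3) + ip (τ - E3) (ρ - g0 + g3))
      + (r ^ 2 * ip Dk (ρ - g0 - (k : ℂ) • g1 + (r : ℂ) • g2) +
        k ^ 2 * ip Dk (g0 - (k : ℂ) • g1 + (r : ℂ) • g2))
      + (r ^ 2 * ip Dj (ρ - g0 + (k : ℂ) • g1 + (r : ℂ) • g2) +
        k ^ 2 * ip Dj (g0 + (k : ℂ) • g1 + (r : ℂ) • g2)) := by
      rw [hDj, hDk]
      simp only [ip_add_l, ip_add_r, ip_sub_l, ip_sub_r, ip_smul_l, ip_smul_r]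
      linear_combination (-6 * ip 1 g0 - 2 * r * ip 1 g2 + 2 * ip 1 ρ + 2 * k ^ 2 * ip E1 g1 +
        6 * r * ip E2 g0 + 2 * r ^ 2 * ip E2 g2 - 2 * r * ip E2 ρ + 6 * ip τ g0 +
        2 * r * ip τ g2 - 2 * ip τ ρ) * hrk
    rw [hfin]
    have p1 := mul_nonneg hq hTT
    have p2 := mul_nonneg (mul_nonneg hk2 (by positivity : 0 ≤ 2 * r ^ 2)) hEB
    have p3 := mul_nonneg hr2 hjk1
    have p4 := mul_nonneg hk2 hjk2
    have p5 := mul_nonneg hr2 hkj1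
    have p6 := mul_nonneg hk2 hkj2
    linarith
  · -- second case
    have hs' : 1 / 2 ≤ r ^ 2 := by linarith [not_le.1 hs]
    have hmax : max (r ^ 2 - 1 / 2) 0 = r ^ 2 - 1 / 2 := max_eq_left (by linarith)
    rw [hmax]
    have hsz : 0 ≤ 2 * (ip τ g0 + ip E2 g2 - ip E1 g1 - ip E3 g3) := by
      have h1 := block_diag _ _ _ _ hG (-1)
      have h2 := block_trace _ _ _ _ _ _ _ _ hS h1
      have h3 : ((-1 : ℂ) * star (-1 : ℂ)) = 1 := by simp
      rw [h3, one_smul] at h2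
      have h4 : (star (-1 : ℂ)) • (g1 - I • g3) = -g1 + I • g3 := by
        simp only [star_neg, star_one]; module
      have h5 : ((-1 : ℂ)) • (g1 + I • g3) = -g1 - I • g3 := by module
      rw [h4, h5] at h2
      have h6 : ip (E1 - I • E3) (-g1 - I • g3) + ip (E1 + I • E3) (-g1 + I • g3) =
          -2 * ip E1 g1 - 2 * ip E3 g3 := by
        unfold ip
        have h7 : (E1 - I • E3) * (-g1 - I • g3) + (E1 + I • E3) * (-g1 + I • g3) =
            ((-2 : ℝ) : ℂ) • (E1 * g1) + ((-2 : ℝ) : ℂ) • (E3 * g3) := by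
          simp only [mul_add, add_mul, mul_sub, sub_mul, Matrix.mul_add, Matrix.add_mul,
            Matrix.mul_sub, Matrix.sub_mul, Matrix.mul_smul, Matrix.smul_mul, mul_neg,
            Matrix.mul_neg, smul_smul, hI, smul_neg, neg_smul, one_smul]
          push_cast
          module
        rw [← Complex.add_re, ← Matrix.trace_add, h7, Matrix.trace_add, Matrix.trace_smul,
          Matrix.trace_smul, smul_eq_mul, smul_eq_mul, Complex.add_re, Complex.re_ofReal_mul,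
          Complex.re_ofReal_mul]
        ring
      have h8 : ip (τ + E2) (g0 + g2) + ip (τ - E2) (g0 - g2) = 2 * ip τ g0 + 2 * ip E2 g2 := by
        simp only [ip_add_l, ip_add_r, ip_sub_l, ip_sub_r]
        ring
      linarith
    have hfin : 2 * k ^ 2 * (ip τ (ρ - g0) - (1 - 2 * r ^ 2) * (ip E1 g1 + ip E2 g2) - ip E3 g3)
      + (k ^ 2 * (ip Dk ρ - 2 * ip Dk g0) + ip Dk (g0 - (k : ℂ) • g1 + (r : ℂ) • g2) +
        (1 - 2 * r ^ 2) * ip Dk (g0 + (k : ℂ) • g1 + (r : ℂ) • g2))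
      + (k ^ 2 * (ip Dj ρ - 2 * ip Dj g0) + ip Dj (g0 + (k : ℂ) • g1 + (r : ℂ) • g2) +
        (1 - 2 * r ^ 2) * ip Dj (g0 - (k : ℂ) • g1 + (r : ℂ) • g2))
      + (r ^ 2 - 1 / 2) * (2 * k ^ 2 * (ip τ g0 + ip E1 g1 - ip E2 g2 - ip E3 g3)) =
      k ^ 2 * (ip (τ + E3) (ρ - g0 - g3) + ip (τ - E3) (ρ - g0 + g3))
      + k ^ 2 * ((2 * r ^ 2 - 1) / 2) * (2 * (ip τ g0 + ip E2 g2 - ip E1 g1 - ip E3 g3))
      + k ^ 2 * (ip Dk (ρ - g0 - (k : ℂ) • g1 + (r : ℂ) • g2) +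
        ip Dk (g0 - (k : ℂ) • g1 + (r : ℂ) • g2))
      + k ^ 2 * (ip Dj (ρ - g0 + (k : ℂ) • g1 + (r : ℂ) • g2) +
        ip Dj (g0 + (k : ℂ) • g1 + (r : ℂ) • g2)) := by
      rw [hDj, hDk]
      simp only [ip_add_l, ip_add_r, ip_sub_l, ip_sub_r, ip_smul_l, ip_smul_r]
      linear_combination (-4 * ip 1 g0 - 4 * r * ip 1 g2 + 4 * k ^ 2 * ip E1 g1 +
        4 * r * ip E2 g0 + 4 * r ^ 2 * ip E2 g2 + 4 * ip τ g0 + 4 * r * ip τ g2) * hrk
    rw [hfin]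
    have p1 := mul_nonneg hk2 hEB
    have p2 := mul_nonneg (mul_nonneg hk2 (by linarith : 0 ≤ (2 * r ^ 2 - 1) / 2)) hsz
    have p3 := mul_nonneg hk2 (add_nonneg hjk1 hjk2)
    have p4 := mul_nonneg hk2 (add_nonneg hkj1 hkj2)
    linarith

end PartBlochPair

end Pool.Agent.Helper150.Cb
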