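import Pool.Agent.Helper150.Cb.Core
import Pool.Agent.Helper150.Cb.BlochPair

namespace Pool.Agent.Helper150.Cb
open Matrix Complex
open scoped ComplexOrder

namespace PartPairIneq
open PartBlochPair






theorem herm_im {m : ℕ} {X Y : Matrix (Fin m) (Fin m) ℂ} (hX : X.IsHermitian)
    (hY : Y.IsHermitian) : (trace (X * Y)).im = 0 := by
  have h : star (trace (X * Y)) = trace (X * Y) := by
    rw [← trace_conjTranspose, conjTranspose_mul, hX.eq, hY.eq, trace_mul_comm]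
  have := congrArg Complex.im h
  simp only [Complex.star_def, Complex.conj_im] at this
  linarith

theorem herm_im1 {m : ℕ} {X : Matrix (Fin m) (Fin m) ℂ} (hX : X.IsHermitian) :
    (trace X).im = 0 := by
  have h : star (trace X) = trace X := by
    rw [← trace_conjTranspose, hX.eq]
  have := congrArg Complex.im h
  simp only [Complex.star_def, Complex.conj_im] at this
  linarith

theorem alg_id {m : ℕ} (r k M : ℝ) (hrk : r ^ 2 + k ^ 2 = 1)
    (τ E1 E2 E3 g0 g1 g2 g3 ρ : Matrix (Fin m) (Fin m) ℂ)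
    (hτ : τ.IsHermitian) (hE1 : E1.IsHermitian) (hE2 : E2.IsHermitian) (hE3 : E3.IsHermitian)
    (hg0 : g0.IsHermitian) (hg1 : g1.IsHermitian) (hg2 : g2.IsHermitian) (hg3 : g3.IsHermitian)
    (hρ : ρ.IsHermitian)
    (Sjj Skk Sjk Skj Gjj Gkk Gkj Dj Dk : Matrix (Fin m) (Fin m) ℂ)
    (hSjj : Sjj = τ + (k : ℂ) • E1 + (r : ℂ) • E2) (hSkk : Skk = τ - (k : ℂ) • E1 + (r : ℂ) • E2)
    (hSjk : Sjk = (r : ℂ) • τ + E2 + ((k : ℂ) * I) • E3)
    (hSkj : Skj = (r : ℂ) • τ + E2 - ((k : ℂ) * I) • E3)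
    (hGjj : Gjj = g0 + (k : ℂ) • g1 + (r : ℂ) • g2) (hGkk : Gkk = g0 - (k : ℂ) • g1 + (r : ℂ) • g2)
    (hGkj : Gkj = (r : ℂ) • g0 + g2 - ((k : ℂ) * I) • g3)
    (hDj : Dj = 1 - (τ + (k : ℂ) • E1 + (r : ℂ) • E2))
    (hDk : Dk = 1 - (τ - (k : ℂ) • E1 + (r : ℂ) • E2)) :
    (2 * (1 - r ^ 2) * (trace ρ).re + r ^ 2 * (trace ((Sjj + Skk) * ρ)).re
      - 2 * ((r : ℂ) * trace (Sjk * ρ)).re
      - (trace (Sjj * Gjj)).re - (trace (Skk * Gkk)).re
      - 2 * (trace (Sjk * Gkj)).re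
      + 2 * ((r : ℂ) * trace (Sjk * Gjj) + (r : ℂ) * trace (Skj * Gkk)).re
      + 4 * ((r : ℂ) * trace Gkj).re
      - 2 * r ^ 2 * (trace Gjj + trace Gkk).re)
      + M * ((trace (Sjj * Gjj)).re + (trace (Skk * Gkk)).re - 2 * (trace (Sjk * Gkj)).re) =
    2 * k ^ 2 * (trace (τ * (ρ - g0)) - ((1 - 2 * r ^ 2 : ℝ) : ℂ) * (trace (E1 * g1) +
        trace (E2 * g2)) - trace (E3 * g3)).re
      + (trace (Dk * (((k ^ 2 : ℝ) : ℂ) • (ρ - (2 : ℂ) • g0)
          + (g0 - (k : ℂ) • g1 + (r : ℂ) • g2)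
          + ((1 - 2 * r ^ 2 : ℝ) : ℂ) • (g0 + (k : ℂ) • g1 + (r : ℂ) • g2)))).re
      + (trace (Dj * (((k ^ 2 : ℝ) : ℂ) • (ρ - (2 : ℂ) • g0)
          + (g0 + (k : ℂ) • g1 + (r : ℂ) • g2)
          + ((1 - 2 * r ^ 2 : ℝ) : ℂ) • (g0 - (k : ℂ) • g1 + (r : ℂ) • g2)))).re
      + M * (2 * k ^ 2 * (trace (τ * g0) + trace (E1 * g1) -
          trace (E2 * g2) - trace (E3 * g3)).re) := by
  have i1 := herm_im hτ hg0
  have i2 := herm_im hτ hg1
  have i3 := herm_im hτ hg2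
  have i4 := herm_im hτ hg3
  have i5 := herm_im hE1 hg0
  have i6 := herm_im hE1 hg1
  have i7 := herm_im hE1 hg2
  have i8 := herm_im hE1 hg3
  have i9 := herm_im hE2 hg0
  have i10 := herm_im hE2 hg1
  have i11 := herm_im hE2 hg2
  have i12 := herm_im hE2 hg3
  have i13 := herm_im hE3 hg0
  have i14 := herm_im hE3 hg1
  have i15 := herm_im hE3 hg2
  have i16 := herm_im hE3 hg3
  have i17 := herm_im hτ hρ
  have i18 := herm_im hE1 hρ
  have i19 := herm_im hE2 hρ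
  have i20 := herm_im hE3 hρ
  have j0 := herm_im1 hρ
  have j1 := herm_im1 hg0
  have j2 := herm_im1 hg1
  have j3 := herm_im1 hg2
  have j4 := herm_im1 hg3
  subst hSjj hSkk hSjk hSkj hGjj hGkk hGkj hDj hDk
  simp only [Matrix.add_mul, Matrix.mul_add, Matrix.sub_mul, Matrix.mul_sub, Matrix.smul_mul,
    Matrix.mul_smul, smul_add, smul_sub, smul_smul, trace_add, trace_sub, trace_smul,
    Matrix.one_mul, smul_eq_mul, Complex.add_re, Complex.sub_re, Complex.mul_re, Complex.mul_im,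
    Complex.add_im, Complex.sub_im, Complex.ofReal_re, Complex.ofReal_im, Complex.I_re,
    Complex.I_im, i1, i2, i3, i4, i5, i6, i7, i9, i10, i11, i12, i13, i14, i15, i16, i17, i18,
    i19, i20, j0, j1, j2, j3, j4, Complex.re_ofNat, Complex.im_ofNat]
  linear_combination (-2 * (trace ρ).re + 4 * (trace g0).re + 2 * r * (trace (E2 * ρ)).re
    - 2 * (trace (τ * g0)).re - 4 * r * (trace (E2 * g0)).re
    + 2 * (1 - 2 * r ^ 2) * (trace (E2 * g2)).re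
    + M * (-2 * (trace (τ * g0)).re + 2 * (trace (E2 * g2)).re)) * hrk


theorem tr_cyc {a b m : ℕ} (X Y : Matrix (Fin a) (Fin m) ℂ) (Z W : Matrix (Fin b) (Fin m) ℂ) :
    trace (X * Zᴴ * (W * Yᴴ)) = trace (Yᴴ * X * (Zᴴ * W)) := by
  rw [← Matrix.mul_assoc, trace_mul_comm, ← Matrix.mul_assoc, ← Matrix.mul_assoc, Matrix.mul_assoc]

theorem hs_mul {a b m : ℕ} (V : Matrix (Fin b) (Fin m) ℂ) (A : Matrix (Fin a) (Fin m) ℂ) :
    hs (V * Aᴴ) = (trace (Aᴴ * A * (Vᴴ * V))).re := by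
  unfold hs
  rw [conjTranspose_mul, conjTranspose_conjTranspose, tr_cyc]

theorem hs_sub {a b m : ℕ} (Vj Vk : Matrix (Fin b) (Fin m) ℂ) (Aj Ak : Matrix (Fin a) (Fin m) ℂ) :
    hs (Vj * Ajᴴ - Vk * Akᴴ) = (trace (Ajᴴ * Aj * (Vjᴴ * Vj))).re +
      (trace (Akᴴ * Ak * (Vkᴴ * Vk))).re - 2 * (trace (Ajᴴ * Ak * (Vkᴴ * Vj))).re := by
  have h1 : ∀ (X Y : Matrix (Fin a) (Fin m) ℂ) (Z W : Matrix (Fin b) (Fin m) ℂ),
      trace (X * Zᴴ * (W * Yᴴ)) = trace (Yᴴ * X * (Zᴴ * W)) := by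
    intro X Y Z W
    rw [← Matrix.mul_assoc, trace_mul_comm, ← Matrix.mul_assoc, ← Matrix.mul_assoc, Matrix.mul_assoc]
  have h2 : (trace (Akᴴ * Aj * (Vjᴴ * Vk))).re = (trace (Ajᴴ * Ak * (Vkᴴ * Vj))).re := by
    have h3 : star (trace (Akᴴ * Aj * (Vjᴴ * Vk))) = trace (Ajᴴ * Ak * (Vkᴴ * Vj)) := by
      rw [← trace_conjTranspose, conjTranspose_mul, conjTranspose_mul, conjTranspose_mul,
        conjTranspose_conjTranspose, conjTranspose_conjTranspose, trace_mul_comm]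
    rw [← h3, Complex.star_def, Complex.conj_re]
  unfold hs
  rw [conjTranspose_sub, conjTranspose_mul, conjTranspose_mul, conjTranspose_conjTranspose,
    conjTranspose_conjTranspose, Matrix.sub_mul, Matrix.mul_sub, Matrix.mul_sub, trace_sub,
    trace_sub, trace_sub, h1, h1, h1, h1]
  simp only [Complex.sub_re]
  rw [h2]
  ring

theorem pairE_real {a b m : ℕ} (r : ℝ) (Aj Ak : Matrix (Fin a) (Fin m) ℂ)
    (Vj Vk : Matrix (Fin b) (Fin m) ℂ) (ρ : Matrix (Fin m) (Fin m) ℂ) :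
    pairE (r : ℂ) Aj Ak Vj Vk ρ = 2 * (1 - r ^ 2) * (trace ρ).re + r ^ 2 * (trace ((Ajᴴ * Aj + Akᴴ * Ak) * ρ)).re
      - 2 * ((r : ℂ) * trace (Ajᴴ * Ak * ρ)).re
      - (trace (Ajᴴ * Aj * (Vjᴴ * Vj))).re - (trace (Akᴴ * Ak * (Vkᴴ * Vk))).re
      - 2 * (trace (Ajᴴ * Ak * (Vkᴴ * Vj))).re
      + 2 * ((r : ℂ) * trace (Ajᴴ * Ak * (Vjᴴ * Vj)) + (r : ℂ) * trace (Akᴴ * Aj * (Vkᴴ * Vk))).re
      + 4 * ((r : ℂ) * trace (Vkᴴ * Vj)).re
      - 2 * r ^ 2 * (trace (Vjᴴ * Vj) + trace (Vkᴴ * Vk)).re := by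
  unfold pairE
  rw [hs_mul, hs_mul]
  have h1 : ‖(r : ℂ)‖ ^ 2 = r ^ 2 := by
    rw [Complex.norm_real, Real.norm_eq_abs, sq_abs]
  have h2 : star (r : ℂ) = (r : ℂ) := by
    rw [Complex.star_def, Complex.conj_ofReal]
  rw [h1, h2]

theorem bloch_exists (n1 n2 n3 : ℝ) (hn : n1 ^ 2 + n2 ^ 2 + n3 ^ 2 = 1) :
    ∃ z1 z2 : ℂ, ‖z1‖ ^ 2 + ‖z2‖ ^ 2 = 1 ∧
        star z1 * z1 = (((1 + n2) / 2 : ℝ) : ℂ) ∧ star z2 * z2 = (((1 - n2) / 2 : ℝ) : ℂ) ∧
        star z1 * z2 = ((n1 : ℂ) + n3 * I) / 2 := by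
  have hz : ∀ z : ℂ, star z * z = ((‖z‖ ^ 2 : ℝ) : ℂ) := by
    intro z; rw [Complex.star_def, Complex.conj_mul']; push_cast; rfl
  by_cases h : n2 = -1
  · have h1 : n1 = 0 := by nlinarith [sq_nonneg n1, sq_nonneg n3]
    have h3 : n3 = 0 := by nlinarith [sq_nonneg n1, sq_nonneg n3]
    refine ⟨0, 1, by simp, ?_, ?_, ?_⟩
    · rw [h]; norm_num
    · rw [h]; norm_num
    · rw [h1, h3]; simp
  · have h0 : 0 < 1 + n2 := by
      have : -1 ≤ n2 := by nlinarith [sq_nonneg n1, sq_nonneg n3]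
      rcases this.lt_or_eq with h2 | h2
      · linarith
      · exact absurd h2.symm h
    set a : ℝ := Real.sqrt ((1 + n2) / 2) with ha
    have ha2 : a ^ 2 = (1 + n2) / 2 := Real.sq_sqrt (by linarith)
    have ha0 : 0 < a := Real.sqrt_pos.2 (by linarith)
    have e1 : ‖(a : ℂ)‖ ^ 2 = (1 + n2) / 2 := by
      rw [Complex.norm_real, Real.norm_eq_abs, sq_abs, ha2]
    have e2 : ‖((n1 : ℂ) + n3 * I) / (2 * a)‖ ^ 2 = (1 - n2) / 2 := by
      rw [norm_div, div_pow, ← Complex.normSq_eq_norm_sq, Complex.normSq_add_mul_I]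
      have : ‖(2 : ℂ) * a‖ ^ 2 = 4 * a ^ 2 := by
        rw [norm_mul, Complex.norm_real, Real.norm_eq_abs, mul_pow, sq_abs]
        norm_num
      rw [this, ha2, div_eq_div_iff (by nlinarith) (by norm_num)]
      nlinarith
    refine ⟨(a : ℂ), ((n1 : ℂ) + n3 * I) / (2 * a), ?_, ?_, ?_, ?_⟩
    · rw [e1, e2]; ring
    · rw [hz, e1]
    · rw [hz, e2]
    · have hane : (a : ℂ) ≠ 0 := by exact_mod_cast ha0.ne'
      rw [Complex.star_def, Complex.conj_ofReal]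
      field_simp

theorem core {a b m : ℕ} (r k c s : ℝ) (hcs : c ^ 2 + s ^ 2 = 1) (hr : c ^ 2 - s ^ 2 = r)
    (hk : 2 * c * s = k) (hr0 : 0 ≤ r) (hk0 : 0 ≤ k)
    (Ap Am : Matrix (Fin a) (Fin m) ℂ) (Vp Vm : Matrix (Fin b) (Fin m) ℂ)
    (ρ : Matrix (Fin m) (Fin m) ℂ) (hρ : ρ.IsHermitian)
    (hV : ∀ z1 z2 : ℂ, ‖z1‖ ^ 2 + ‖z2‖ ^ 2 = 1 →
      (ρ - (z1 • Vp + z2 • Vm)ᴴ * (z1 • Vp + z2 • Vm)).PosSemidef)
    (hAx : (1 - ((c : ℂ) • Ap + (s : ℂ) • Am)ᴴ * ((c : ℂ) • Ap + (s : ℂ) • Am)).PosSemidef)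
    (hAy : (1 - ((c : ℂ) • Ap - (s : ℂ) • Am)ᴴ * ((c : ℂ) • Ap - (s : ℂ) • Am)).PosSemidef) :
    0 ≤ pairE (r : ℂ) ((c : ℂ) • Ap + (s : ℂ) • Am) ((c : ℂ) • Ap - (s : ℂ) • Am)
        ((c : ℂ) • Vp + (s : ℂ) • Vm) ((c : ℂ) • Vp - (s : ℂ) • Vm) ρ
      + max (r ^ 2 - 1 / 2) 0 *
        hs (((c : ℂ) • Vp + (s : ℂ) • Vm) * ((c : ℂ) • Ap + (s : ℂ) • Am)ᴴ -
          ((c : ℂ) • Vp - (s : ℂ) • Vm) * ((c : ℂ) • Ap - (s : ℂ) • Am)ᴴ) := by
  have hrk : r ^ 2 + k ^ 2 = 1 := by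
    rw [← hr, ← hk]; linear_combination (c ^ 2 + s ^ 2 + 1) * hcs
  have hcsC : (c : ℂ) * c + (s : ℂ) * s = 1 := by
    have := congrArg (fun t : ℝ => (t : ℂ)) hcs
    push_cast at this
    linear_combination this
  have hrC : (r : ℂ) = (c : ℂ) * c - (s : ℂ) * s := by
    rw [← hr]; push_cast; ring
  have hkC : (k : ℂ) = 2 * (c : ℂ) * s := by
    rw [← hk]; push_cast; ring
  -- general expansions, for any pair of matrices P, M
  have expand : ∀ {d : ℕ} (P M : Matrix (Fin d) (Fin m) ℂ),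
      (((c : ℂ) • P + (s : ℂ) • M)ᴴ * ((c : ℂ) • P + (s : ℂ) • M) =
        (1 / 2 : ℂ) • (Pᴴ * P + Mᴴ * M) + (k : ℂ) • ((1 / 2 : ℂ) • (Pᴴ * M + Mᴴ * P)) +
        (r : ℂ) • ((1 / 2 : ℂ) • (Pᴴ * P - Mᴴ * M))) ∧
      (((c : ℂ) • P - (s : ℂ) • M)ᴴ * ((c : ℂ) • P - (s : ℂ) • M) =
        (1 / 2 : ℂ) • (Pᴴ * P + Mᴴ * M) - (k : ℂ) • ((1 / 2 : ℂ) • (Pᴴ * M + Mᴴ * P)) +
        (r : ℂ) • ((1 / 2 : ℂ) • (Pᴴ * P - Mᴴ * M))) ∧
      (((c : ℂ) • P + (s : ℂ) • M)ᴴ * ((c : ℂ) • P - (s : ℂ) • M) =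
        (r : ℂ) • ((1 / 2 : ℂ) • (Pᴴ * P + Mᴴ * M)) + (1 / 2 : ℂ) • (Pᴴ * P - Mᴴ * M) +
          ((k : ℂ) * I) • ((I / 2 : ℂ) • (Pᴴ * M - Mᴴ * P))) ∧
      (((c : ℂ) • P - (s : ℂ) • M)ᴴ * ((c : ℂ) • P + (s : ℂ) • M) =
        (r : ℂ) • ((1 / 2 : ℂ) • (Pᴴ * P + Mᴴ * M)) + (1 / 2 : ℂ) • (Pᴴ * P - Mᴴ * M) -
          ((k : ℂ) * I) • ((I / 2 : ℂ) • (Pᴴ * M - Mᴴ * P))) := by
    intro d P M
    have sc : star (c : ℂ) = (c : ℂ) := by rw [Complex.star_def, Complex.conj_ofReal]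
    have ss : star (s : ℂ) = (s : ℂ) := by rw [Complex.star_def, Complex.conj_ofReal]
    have e1 : ((c : ℂ) • P + (s : ℂ) • M)ᴴ = (c : ℂ) • Pᴴ + (s : ℂ) • Mᴴ := by
      rw [conjTranspose_add, conjTranspose_smul, conjTranspose_smul, sc, ss]
    have e2 : ((c : ℂ) • P - (s : ℂ) • M)ᴴ = (c : ℂ) • Pᴴ - (s : ℂ) • Mᴴ := by
      rw [conjTranspose_sub, conjTranspose_smul, conjTranspose_smul, sc, ss]
    rw [e1, e2, hrC, hkC]
    refine ⟨?_, ?_, ?_, ?_⟩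
    all_goals
      ext i j
      simp only [Matrix.add_mul, Matrix.mul_add, Matrix.sub_mul, Matrix.mul_sub, Matrix.smul_mul,
        Matrix.mul_smul, Matrix.add_apply, Matrix.sub_apply, Matrix.smul_apply, smul_eq_mul]
    · linear_combination ((1 / 2 : ℂ) * ((Pᴴ * P) i j + (Mᴴ * M) i j)) * hcsC
    · linear_combination ((1 / 2 : ℂ) * ((Pᴴ * P) i j + (Mᴴ * M) i j)) * hcsC
    · linear_combination ((1 / 2 : ℂ) * ((Pᴴ * P) i j - (Mᴴ * M) i j)) * hcsC +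
        (-(c : ℂ) * s * ((Pᴴ * M) i j - (Mᴴ * P) i j)) * (Complex.I_mul_I)
    · linear_combination ((1 / 2 : ℂ) * ((Pᴴ * P) i j - (Mᴴ * M) i j)) * hcsC -
        (-(c : ℂ) * s * ((Pᴴ * M) i j - (Mᴴ * P) i j)) * (Complex.I_mul_I)
  obtain ⟨a1, a2, a3, a4⟩ := expand Ap Am
  obtain ⟨v1, v2, v3, v4⟩ := expand Vp Vm
  have herm1 : ∀ {d : ℕ} (P M : Matrix (Fin d) (Fin m) ℂ),
      ((1 / 2 : ℂ) • (Pᴴ * P + Mᴴ * M)).IsHermitian ∧
      ((1 / 2 : ℂ) • (Pᴴ * M + Mᴴ * P)).IsHermitian ∧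
      ((1 / 2 : ℂ) • (Pᴴ * P - Mᴴ * M)).IsHermitian ∧
      ((I / 2 : ℂ) • (Pᴴ * M - Mᴴ * P)).IsHermitian := by
    intro d P M
    have h2 : (starRingEnd ℂ) 2 = 2 := map_ofNat _ 2
    have hh : star (1 / 2 : ℂ) = 1 / 2 := by
      rw [Complex.star_def, map_div₀, h2, map_one]
    have hi : star (I / 2 : ℂ) = -(I / 2) := by
      rw [Complex.star_def, map_div₀, h2, Complex.conj_I, neg_div]
    refine ⟨?_, ?_, ?_, ?_⟩
    · unfold Matrix.IsHermitian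
      rw [conjTranspose_smul, conjTranspose_add, conjTranspose_mul, conjTranspose_mul,
        conjTranspose_conjTranspose, conjTranspose_conjTranspose, hh]
    · unfold Matrix.IsHermitian
      rw [conjTranspose_smul, conjTranspose_add, conjTranspose_mul, conjTranspose_mul,
        conjTranspose_conjTranspose, conjTranspose_conjTranspose, hh, add_comm]
    · unfold Matrix.IsHermitian
      rw [conjTranspose_smul, conjTranspose_sub, conjTranspose_mul, conjTranspose_mul,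
        conjTranspose_conjTranspose, conjTranspose_conjTranspose, hh]
    · unfold Matrix.IsHermitian
      rw [conjTranspose_smul, conjTranspose_sub, conjTranspose_mul, conjTranspose_mul,
        conjTranspose_conjTranspose, conjTranspose_conjTranspose, hi, neg_smul, ← smul_neg, neg_sub]
  obtain ⟨ha0, ha1, ha2, ha3⟩ := herm1 Ap Am
  obtain ⟨hv0, hv1, hv2, hv3⟩ := herm1 Vp Vm
  have block : ∀ {d : ℕ} (P M : Matrix (Fin d) (Fin m) ℂ),
      (fromBlocks ((1 / 2 : ℂ) • (Pᴴ * P + Mᴴ * M) + (1 / 2 : ℂ) • (Pᴴ * P - Mᴴ * M))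
        ((1 / 2 : ℂ) • (Pᴴ * M + Mᴴ * P) - I • ((I / 2 : ℂ) • (Pᴴ * M - Mᴴ * P)))
        ((1 / 2 : ℂ) • (Pᴴ * M + Mᴴ * P) + I • ((I / 2 : ℂ) • (Pᴴ * M - Mᴴ * P)))
        ((1 / 2 : ℂ) • (Pᴴ * P + Mᴴ * M) - (1 / 2 : ℂ) • (Pᴴ * P - Mᴴ * M))).PosSemidef := by
    intro d P M
    have hb : fromBlocks ((1 / 2 : ℂ) • (Pᴴ * P + Mᴴ * M) + (1 / 2 : ℂ) • (Pᴴ * P - Mᴴ * M))
        ((1 / 2 : ℂ) • (Pᴴ * M + Mᴴ * P) - I • ((I / 2 : ℂ) • (Pᴴ * M - Mᴴ * P)))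
        ((1 / 2 : ℂ) • (Pᴴ * M + Mᴴ * P) + I • ((I / 2 : ℂ) • (Pᴴ * M - Mᴴ * P)))
        ((1 / 2 : ℂ) • (Pᴴ * P + Mᴴ * M) - (1 / 2 : ℂ) • (Pᴴ * P - Mᴴ * M)) =
        (fromCols P M)ᴴ * fromCols P M := by
      rw [conjTranspose_fromCols_eq_fromRows_conjTranspose, fromRows_mul_fromCols]
      congr 1
      · ext i j
        simp only [Matrix.add_apply, Matrix.sub_apply, Matrix.smul_apply, smul_eq_mul]
        ring
      · ext i j
        simp only [Matrix.add_apply, Matrix.sub_apply, Matrix.smul_apply, smul_eq_mul]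
        linear_combination (-(1 / 2 : ℂ) * ((Pᴴ * M) i j - (Mᴴ * P) i j)) * Complex.I_mul_I
      · ext i j
        simp only [Matrix.add_apply, Matrix.sub_apply, Matrix.smul_apply, smul_eq_mul]
        linear_combination ((1 / 2 : ℂ) * ((Pᴴ * M) i j - (Mᴴ * P) i j)) * Complex.I_mul_I
      · ext i j
        simp only [Matrix.add_apply, Matrix.sub_apply, Matrix.smul_apply, smul_eq_mul]
        ring
    rw [hb]
    exact posSemidef_conjTranspose_mul_self _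
  have hW : ∀ n1 n2 n3 : ℝ, n1 ^ 2 + n2 ^ 2 + n3 ^ 2 = 1 →
      (ρ - ((1 / 2 : ℂ) • (Vpᴴ * Vp + Vmᴴ * Vm) + (n1 : ℂ) • ((1 / 2 : ℂ) • (Vpᴴ * Vm + Vmᴴ * Vp)) +
        (n2 : ℂ) • ((1 / 2 : ℂ) • (Vpᴴ * Vp - Vmᴴ * Vm)) +
        (n3 : ℂ) • ((I / 2 : ℂ) • (Vpᴴ * Vm - Vmᴴ * Vp)))).PosSemidef := by
    intro n1 n2 n3 hn
    obtain ⟨z1, z2, hz1, hz2, hz3, hz4⟩ : ∃ z1 z2 : ℂ, ‖z1‖ ^ 2 + ‖z2‖ ^ 2 = 1 ∧
        star z1 * z1 = (((1 + n2) / 2 : ℝ) : ℂ) ∧ star z2 * z2 = (((1 - n2) / 2 : ℝ) : ℂ) ∧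
        star z1 * z2 = ((n1 : ℂ) + n3 * I) / 2 := bloch_exists n1 n2 n3 hn
    have hz5 : star z2 * z1 = ((n1 : ℂ) - n3 * I) / 2 := by
      have := congrArg star hz4
      rw [star_mul, star_star] at this
      rw [this]
      have h2 : (starRingEnd ℂ) 2 = 2 := map_ofNat _ 2
      simp only [Complex.star_def, map_div₀, map_add, map_mul, Complex.conj_ofReal, Complex.conj_I, h2]
      ring
    have h1 := hV z1 z2 hz1
    convert h1 using 2
    rw [conjTranspose_add, conjTranspose_smul, conjTranspose_smul]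
    ext i j
    simp only [Matrix.add_mul, Matrix.mul_add, Matrix.smul_mul,
        Matrix.mul_smul, Matrix.add_apply, Matrix.sub_apply, Matrix.smul_apply, smul_eq_mul]
    push_cast at hz2 hz3
    linear_combination (-(Vpᴴ * Vp) i j) * hz2 - ((Vmᴴ * Vm) i j) * hz3 -
      ((Vpᴴ * Vm) i j) * hz4 - ((Vmᴴ * Vp) i j) * hz5
  have key := bloch_pair r k hr0 hk0 hrk _ _ _ _ _ _ _ _ ρ ha0 ha1 ha2 ha3 hv0 hv1 hv2 hv3 hρ
    (block Ap Am) (block Vp Vm) hW _ _ rfl rfl (by rw [a1] at hAx; exact hAx)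
    (by rw [a2] at hAy; exact hAy)
  have hid := alg_id r k (max (r ^ 2 - 1 / 2) 0) hrk _ _ _ _ _ _ _ _ ρ ha0 ha1 ha2 ha3 hv0 hv1
    hv2 hv3 hρ _ _ _ _ _ _ _ _ _ a1 a2 a3 a4 v1 v2 v4 rfl rfl
  rw [← hid] at key
  rw [pairE_real, hs_sub]
  exact key

theorem dotc_add_left {n : ℕ} (x x' y : Fin n → ℂ) : dotc (x + x') y = dotc x y + dotc x' y := by
  simp only [dotc, Pi.add_apply, star_add, add_mul, Finset.sum_add_distrib]

theorem dotc_add_right {n : ℕ} (x y y' : Fin n → ℂ) : dotc x (y + y') = dotc x y + dotc x y' := by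
  simp only [dotc, Pi.add_apply, mul_add, Finset.sum_add_distrib]

theorem dotc_smul_left {n : ℕ} (c : ℂ) (x y : Fin n → ℂ) : dotc (c • x) y = star c * dotc x y := by
  simp only [dotc, Pi.smul_apply, smul_eq_mul, star_mul, Finset.mul_sum]
  apply Finset.sum_congr rfl
  intro l _
  ring

theorem dotc_smul_right {n : ℕ} (c : ℂ) (x y : Fin n → ℂ) : dotc x (c • y) = c * dotc x y := by
  simp only [dotc, Pi.smul_apply, smul_eq_mul, Finset.mul_sum]
  apply Finset.sum_congr rfl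
  intro l _
  ring

theorem dotc_star {n : ℕ} (x y : Fin n → ℂ) : star (dotc x y) = dotc y x := by
  simp only [dotc, star_sum, star_mul, star_star]

theorem dotc_self {n : ℕ} (x : Fin n → ℂ) : dotc x x = ((∑ l, ‖x l‖ ^ 2 : ℝ) : ℂ) := by
  simp only [dotc, Complex.star_def, Complex.conj_mul']
  push_cast
  rfl

theorem lin_add {n a m : ℕ} (A : Fin n → Matrix (Fin a) (Fin m) ℂ) (x y : Fin n → ℂ) :
    lin A (x + y) = lin A x + lin A y := by
  simp only [lin, Pi.add_apply, add_smul, Finset.sum_add_distrib]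

theorem lin_smul {n a m : ℕ} (A : Fin n → Matrix (Fin a) (Fin m) ℂ) (c : ℂ) (x : Fin n → ℂ) :
    lin A (c • x) = c • lin A x := by
  simp only [lin, Pi.smul_apply, smul_eq_mul, mul_smul, Finset.smul_sum]

theorem phase {a b m : ℕ} (r : ℝ) (w : ℂ) (hw : star w * w = 1) (Aj Ak : Matrix (Fin a) (Fin m) ℂ)
    (Vj Vk : Matrix (Fin b) (Fin m) ℂ) (ρ : Matrix (Fin m) (Fin m) ℂ) :
    pairE ((r : ℂ) * w) Aj (w • Ak) Vj (w • Vk) ρ = pairE (r : ℂ) Aj Ak Vj Vk ρ ∧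
    hs (Vj * Ajᴴ - (w • Vk) * (w • Ak)ᴴ) = hs (Vj * Ajᴴ - Vk * Akᴴ) := by
  have hw' : w * star w = 1 := by rw [mul_comm]; exact hw
  have hn : ‖w‖ = 1 := by
    have h1 : ((‖w‖ ^ 2 : ℝ) : ℂ) = 1 := by
      rw [← hw, Complex.star_def, Complex.conj_mul']; push_cast; rfl
    have h2 : ‖w‖ ^ 2 = 1 := by exact_mod_cast h1
    nlinarith [norm_nonneg w]
  have k1 : (w • Vk) * (w • Ak)ᴴ = Vk * Akᴴ := by
    rw [conjTranspose_smul, Matrix.smul_mul, Matrix.mul_smul, smul_smul, hw', one_smul]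
  have k2 : ∀ {d e : ℕ} (X : Matrix (Fin d) (Fin e) ℂ), (w • X)ᴴ * (w • X) = Xᴴ * X := by
    intro d e X
    rw [conjTranspose_smul, Matrix.smul_mul, Matrix.mul_smul, smul_smul, hw, one_smul]
  have k3 : ‖(r : ℂ) * w‖ = ‖(r : ℂ)‖ := by rw [norm_mul, hn, mul_one]
  have k4 : star ((r : ℂ) * w) = (r : ℂ) * star w := by
    rw [star_mul, Complex.star_def, Complex.conj_ofReal, mul_comm]
  have k5 : star (r : ℂ) = (r : ℂ) := by rw [Complex.star_def, Complex.conj_ofReal]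
  refine ⟨?_, by rw [k1]⟩
  unfold pairE
  rw [k1, k2, k2, k3, k4, k5]
  have e1 : (r : ℂ) * star w * trace (Ajᴴ * (w • Ak) * ρ) = (r : ℂ) * trace (Ajᴴ * Ak * ρ) := by
    rw [Matrix.mul_smul, Matrix.smul_mul, trace_smul, smul_eq_mul]
    linear_combination ((r : ℂ) * trace (Ajᴴ * Ak * ρ)) * hw
  have e2 : trace (Ajᴴ * (w • Ak) * ((w • Vk)ᴴ * Vj)) = trace (Ajᴴ * Ak * (Vkᴴ * Vj)) := by
    rw [conjTranspose_smul, Matrix.mul_smul, Matrix.smul_mul, Matrix.smul_mul, Matrix.mul_smul,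
      trace_smul, trace_smul, smul_eq_mul, smul_eq_mul]
    linear_combination (trace (Ajᴴ * Ak * (Vkᴴ * Vj))) * hw
  have e3 : (r : ℂ) * star w * trace (Ajᴴ * (w • Ak) * (Vjᴴ * Vj)) =
      (r : ℂ) * trace (Ajᴴ * Ak * (Vjᴴ * Vj)) := by
    rw [Matrix.mul_smul, Matrix.smul_mul, trace_smul, smul_eq_mul]
    linear_combination ((r : ℂ) * trace (Ajᴴ * Ak * (Vjᴴ * Vj))) * hw
  have e4 : (r : ℂ) * w * trace ((w • Ak)ᴴ * Aj * (Vkᴴ * Vk)) =
      (r : ℂ) * trace (Akᴴ * Aj * (Vkᴴ * Vk)) := by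
    rw [conjTranspose_smul, Matrix.smul_mul, Matrix.smul_mul, trace_smul, smul_eq_mul]
    linear_combination ((r : ℂ) * trace (Akᴴ * Aj * (Vkᴴ * Vk))) * hw
  have e5 : (r : ℂ) * w * trace ((w • Vk)ᴴ * Vj) = (r : ℂ) * trace (Vkᴴ * Vj) := by
    rw [conjTranspose_smul, Matrix.smul_mul, trace_smul, smul_eq_mul]
    linear_combination ((r : ℂ) * trace (Vkᴴ * Vj)) * hw
  rw [e1, e2, e3, e4, e5]



theorem pair_ineq {n a b m : ℕ} (A : Fin n → Matrix (Fin a) (Fin m) ℂ)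
    (V : Fin n → Matrix (Fin b) (Fin m) ℂ) (ρ : Matrix (Fin m) (Fin m) ℂ)
    (hV : ∀ x : Fin n → ℂ, (dotc x x • ρ - (lin V x)ᴴ * lin V x).PosSemidef)
    (x y : Fin n → ℂ) (hx : dotc x x = 1) (hy : dotc y y = 1)
    (hAx : (1 - (lin A x)ᴴ * lin A x).PosSemidef)
    (hAy : (1 - (lin A y)ᴴ * lin A y).PosSemidef) :
    0 ≤ pairE (dotc x y) (lin A x) (lin A y) (lin V x) (lin V y) ρ
      + max (‖dotc x y‖ ^ 2 - 1 / 2) 0 *
        hs (lin V x * (lin A x)ᴴ - lin V y * (lin A y)ᴴ) := by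
  have hρ : ρ.IsHermitian := by
    have h1 := (hV x).isHermitian
    rw [hx, one_smul] at h1
    have h2 := h1.add (isHermitian_conjTranspose_mul_self (lin V x))
    rwa [sub_add_cancel] at h2
  obtain ⟨w, hw, hwr⟩ : ∃ w : ℂ, star w * w = 1 ∧ dotc x y = ((‖dotc x y‖ : ℝ) : ℂ) * w := by
    by_cases h0 : dotc x y = 0
    · exact ⟨1, by simp, by rw [h0]; simp⟩
    · refine ⟨dotc x y / ((‖dotc x y‖ : ℝ) : ℂ), ?_, ?_⟩
      · have hne : ((‖dotc x y‖ : ℝ) : ℂ) ≠ 0 := by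
          exact_mod_cast (norm_ne_zero_iff.2 h0)
        rw [Complex.star_def, map_div₀, Complex.conj_ofReal, div_mul_div_comm, Complex.conj_mul']
        rw [← sq]
        exact div_self (pow_ne_zero 2 hne)
      · have hne : ((‖dotc x y‖ : ℝ) : ℂ) ≠ 0 := by
          exact_mod_cast (norm_ne_zero_iff.2 h0)
        field_simp
  set r : ℝ := ‖dotc x y‖ with hrdef
  have hr0 : 0 ≤ r := norm_nonneg _
  have hw' : w * star w = 1 := by rw [mul_comm]; exact hw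
  obtain ⟨y', hy'⟩ : ∃ y' : Fin n → ℂ, y = w • y' :=
    ⟨star w • y, by rw [smul_smul, hw', one_smul]⟩
  have hyy : dotc y' y' = 1 := by
    rw [hy', dotc_smul_left, dotc_smul_right, ← mul_assoc, hw, one_mul] at hy
    exact hy
  have hxy : dotc x y' = (r : ℂ) := by
    have h1 : w * dotc x y' = (r : ℂ) * w := by
      rw [← dotc_smul_right, ← hy']; exact hwr
    linear_combination (star w) * h1 - (dotc x y') * hw + (r : ℂ) * hw
  have hyx : dotc y' x = (r : ℂ) := by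
    rw [← dotc_star, hxy, Complex.star_def, Complex.conj_ofReal]
  have hAy' : (1 - (lin A y')ᴴ * lin A y').PosSemidef := by
    rw [hy', lin_smul, conjTranspose_smul, Matrix.smul_mul, Matrix.mul_smul, smul_smul, hw,
      one_smul] at hAy
    exact hAy
  rw [hwr, hy', lin_smul, lin_smul, (phase r w hw _ _ _ _ ρ).1, (phase r w hw _ _ _ _ ρ).2]
  have hdiff : dotc (x + (-1 : ℂ) • y') (x + (-1 : ℂ) • y') = ((2 - 2 * r : ℝ) : ℂ) := by
    simp only [dotc_add_left, dotc_add_right, dotc_smul_left, dotc_smul_right, hx, hyy, hxy, hyx]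
    simp
    ring
  have hle : r ≤ 1 := by
    rw [dotc_self] at hdiff
    have h1 : ∑ l, ‖(x + (-1 : ℂ) • y') l‖ ^ 2 = 2 - 2 * r := by exact_mod_cast hdiff
    have h2 : 0 ≤ ∑ l, ‖(x + (-1 : ℂ) • y') l‖ ^ 2 := Finset.sum_nonneg (fun l _ => by positivity)
    linarith
  rcases hle.lt_or_eq with hlt | heq
  · -- main case
    set C : ℝ := Real.sqrt ((1 + r) / 2) with hC
    set S : ℝ := Real.sqrt ((1 - r) / 2) with hS
    have hC2 : C ^ 2 = (1 + r) / 2 := Real.sq_sqrt (by linarith)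
    have hS2 : S ^ 2 = (1 - r) / 2 := Real.sq_sqrt (by linarith)
    have hC0 : 0 < C := Real.sqrt_pos.2 (by linarith)
    have hS0 : 0 < S := Real.sqrt_pos.2 (by linarith)
    have hCne : (C : ℂ) ≠ 0 := by exact_mod_cast hC0.ne'
    have hSne : (S : ℂ) ≠ 0 := by exact_mod_cast hS0.ne'
    have hC2c : (C : ℂ) ^ 2 = (1 + (r : ℂ)) / 2 := by
      have := congrArg (fun t : ℝ => (t : ℂ)) hC2
      push_cast at this
      exact this
    have hS2c : (S : ℂ) ^ 2 = (1 - (r : ℂ)) / 2 := by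
      have := congrArg (fun t : ℝ => (t : ℂ)) hS2
      push_cast at this
      exact this
    set α : ℂ := (((2 * C)⁻¹ : ℝ) : ℂ) with hα
    set β : ℂ := (((2 * S)⁻¹ : ℝ) : ℂ) with hβ
    have sα : star α = α := by rw [hα, Complex.star_def, Complex.conj_ofReal]
    have sβ : star β = β := by rw [hβ, Complex.star_def, Complex.conj_ofReal]
    have hα1 : α * (2 * (C : ℂ)) = 1 := by
      rw [hα]; push_cast; field_simp
    have hβ1 : β * (2 * (S : ℂ)) = 1 := by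
      rw [hβ]; push_cast; field_simp
    have hα2 : α * α * (2 * (1 + (r : ℂ))) = 1 := by
      have : α * α * (4 * (C : ℂ) ^ 2) = 1 := by
        linear_combination (α * (2 * (C : ℂ)) + 1) * hα1
      rw [hC2c] at this
      linear_combination this
    have hβ2 : β * β * (2 * (1 - (r : ℂ))) = 1 := by
      have : β * β * (4 * (S : ℂ) ^ 2) = 1 := by
        linear_combination (β * (2 * (S : ℂ)) + 1) * hβ1
      rw [hS2c] at this
      linear_combination this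
    set p : Fin n → ℂ := α • (x + y') with hp
    set q : Fin n → ℂ := β • (x + (-1 : ℂ) • y') with hq
    have hpx : x = (C : ℂ) • p + (S : ℂ) • q := by
      funext l
      simp only [hp, hq, Pi.add_apply, Pi.smul_apply, smul_eq_mul]
      linear_combination (-(1 / 2 : ℂ) * (x l + y' l)) * hα1 - ((1 / 2 : ℂ) * (x l - y' l)) * hβ1
    have hpy : y' = (C : ℂ) • p - (S : ℂ) • q := by
      funext l
      simp only [hp, hq, Pi.add_apply, Pi.sub_apply, Pi.smul_apply, smul_eq_mul]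
      linear_combination (-(1 / 2 : ℂ) * (x l + y' l)) * hα1 + ((1 / 2 : ℂ) * (x l - y' l)) * hβ1
    have hpp : dotc p p = 1 := by
      simp only [hp, dotc_add_left, dotc_add_right, dotc_smul_left, dotc_smul_right, hx, hyy, hxy,
        hyx, sα]
      linear_combination hα2
    have hqq : dotc q q = 1 := by
      simp only [hq, dotc_add_left, dotc_add_right, dotc_smul_left, dotc_smul_right, hx, hyy, hxy,
        hyx, sβ, star_neg, star_one]
      linear_combination hβ2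
    have hpq : dotc p q = 0 := by
      simp only [hp, hq, dotc_add_left, dotc_add_right, dotc_smul_left, dotc_smul_right, hx, hyy,
        hxy, hyx, sα]
      ring
    have hqp : dotc q p = 0 := by rw [← dotc_star, hpq, star_zero]
    clear_value p q
    have hAx1 : lin A x = (C : ℂ) • lin A p + (S : ℂ) • lin A q := by
      conv_lhs => rw [hpx]
      rw [lin_add, lin_smul, lin_smul]
    have hVx1 : lin V x = (C : ℂ) • lin V p + (S : ℂ) • lin V q := by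
      conv_lhs => rw [hpx]
      rw [lin_add, lin_smul, lin_smul]
    have hpy2 : y' = (C : ℂ) • p + (-(S : ℂ)) • q := by
      rw [neg_smul, ← sub_eq_add_neg]; exact hpy
    have hAy1 : lin A y' = (C : ℂ) • lin A p - (S : ℂ) • lin A q := by
      conv_lhs => rw [hpy2]
      rw [lin_add, lin_smul, lin_smul, neg_smul, ← sub_eq_add_neg]
    have hVy1 : lin V y' = (C : ℂ) • lin V p - (S : ℂ) • lin V q := by
      conv_lhs => rw [hpy2]
      rw [lin_add, lin_smul, lin_smul, neg_smul, ← sub_eq_add_neg]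
    rw [hAx1] at hAx
    rw [hAy1] at hAy'
    rw [hAx1, hAy1, hVx1, hVy1]
    apply core r (2 * C * S) C S (by rw [hC2, hS2]; ring) (by rw [hC2, hS2]; ring) rfl hr0
      (by positivity) _ _ _ _ ρ hρ _ hAx hAy'
    intro z1 z2 hz
    have h1 := hV (z1 • p + z2 • q)
    have h2 : dotc (z1 • p + z2 • q) (z1 • p + z2 • q) = 1 := by
      simp only [dotc_add_left, dotc_add_right, dotc_smul_left, dotc_smul_right, hpp, hqq, hpq, hqp]
      have hz1 : star z1 * z1 = ((‖z1‖ ^ 2 : ℝ) : ℂ) := by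
        rw [Complex.star_def, Complex.conj_mul']; push_cast; rfl
      have hz2 : star z2 * z2 = ((‖z2‖ ^ 2 : ℝ) : ℂ) := by
        rw [Complex.star_def, Complex.conj_mul']; push_cast; rfl
      have hz3 : ((‖z1‖ ^ 2 : ℝ) : ℂ) + ((‖z2‖ ^ 2 : ℝ) : ℂ) = 1 := by
        rw [← Complex.ofReal_add, hz, Complex.ofReal_one]
      linear_combination hz1 + hz2 + hz3
    rw [h2, one_smul, lin_add, lin_smul, lin_smul] at h1
    exact h1
  · -- equality case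
    have hxeq : x = y' := by
      rw [dotc_self] at hdiff
      have h1 : ∑ l, ‖(x + (-1 : ℂ) • y') l‖ ^ 2 = 2 - 2 * r := by exact_mod_cast hdiff
      rw [heq] at h1
      have h2 : ∑ l, ‖(x + (-1 : ℂ) • y') l‖ ^ 2 = 0 := by linarith
      rw [Finset.sum_eq_zero_iff_of_nonneg (fun l _ => by positivity)] at h2
      funext l
      have h3 := h2 l (Finset.mem_univ l)
      have h4 : (x + (-1 : ℂ) • y') l = 0 := by
        rw [← norm_eq_zero]; exact pow_eq_zero_iff (two_ne_zero) |>.1 h3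
      simp only [Pi.add_apply, Pi.smul_apply, smul_eq_mul] at h4
      linear_combination h4
    rw [pairE_real, hs_sub, ← hxeq, heq]
    apply le_of_eq
    simp only [Matrix.add_mul, trace_add, Complex.add_re, Complex.mul_re, Complex.ofReal_re,
      Complex.ofReal_im]
    ring

end PartPairIneq

end Pool.Agent.Helper150.Cb
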