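import Pool.Agent.Helper150.Cb.Core

namespace Pool.Agent.Helper150.Cb
open Matrix Complex
open scoped ComplexOrder

namespace PartSumPair


theorem sp_scalar {n : ℕ} {ι : Type*} [Fintype ι]
    (lam : ι → ℝ) (h : ι → Fin n → ℂ)
    (hframe : ∀ i j, (n : ℂ) * ∑ k, (lam k : ℂ) * (h k i * star (h k j)) = if i = j then 1 else 0)
    (j : ι) (l : Fin n) :
    (n : ℂ) * ∑ k, (lam k : ℂ) * (star (dotc (h j) (h k)) * h k l) = h j l := by
  have h1 : ∀ k, star (dotc (h j) (h k)) = ∑ i, h j i * star (h k i) := by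
    intro k
    unfold dotc
    rw [star_sum]
    apply Finset.sum_congr rfl
    intro i _
    rw [star_mul', star_star]
  calc (n : ℂ) * ∑ k, (lam k : ℂ) * (star (dotc (h j) (h k)) * h k l)
      = ∑ i, h j i * ((n : ℂ) * ∑ k, (lam k : ℂ) * (h k l * star (h k i))) := by
        simp_rw [h1, Finset.mul_sum, Finset.sum_mul, Finset.mul_sum]
        rw [Finset.sum_comm]
        apply Finset.sum_congr rfl
        intro i _
        apply Finset.sum_congr rfl
        intro k _
        ring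
    _ = ∑ i, h j i * (if l = i then 1 else 0) := by simp_rw [hframe]
    _ = h j l := by simp

theorem sp_SL {n : ℕ} {ι : Type*} [Fintype ι] (hn : 0 < n)
    (lam : ι → ℝ) (h : ι → Fin n → ℂ)
    (hframe : ∀ i j, (n : ℂ) * ∑ k, (lam k : ℂ) * (h k i * star (h k j)) = if i = j then 1 else 0)
    (j : ι) (a : Fin n → ℂ) :
    ∑ k, lam k * (star (dotc (h j) (h k)) * ∑ l, h k l * a l).re =
      (1 / (n : ℝ)) * (∑ l, h j l * a l).re := by
  have hn' : (n : ℝ) ≠ 0 := by positivity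
  have h1 : (n : ℂ) * ∑ k, (lam k : ℂ) * (star (dotc (h j) (h k)) * ∑ l, h k l * a l)
      = ∑ l, h j l * a l := by
    calc (n : ℂ) * ∑ k, (lam k : ℂ) * (star (dotc (h j) (h k)) * ∑ l, h k l * a l)
        = ∑ l, ((n : ℂ) * ∑ k, (lam k : ℂ) * (star (dotc (h j) (h k)) * h k l)) * a l := by
          simp_rw [Finset.mul_sum, Finset.sum_mul]
          rw [Finset.sum_comm]
          apply Finset.sum_congr rfl
          intro i _
          apply Finset.sum_congr rfl
          intro k _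
          ring
      _ = ∑ l, h j l * a l := by simp_rw [sp_scalar lam h hframe]
  have h2 : (∑ k, (lam k : ℂ) * (star (dotc (h j) (h k)) * ∑ l, h k l * a l)).re =
      ∑ k, lam k * (star (dotc (h j) (h k)) * ∑ l, h k l * a l).re := by
    rw [Complex.re_sum]
    apply Finset.sum_congr rfl
    intro k _
    rw [Complex.re_ofReal_mul]
  have h3 : ((n : ℂ) * ∑ k, (lam k : ℂ) * (star (dotc (h j) (h k)) * ∑ l, h k l * a l)).re =
      (n : ℝ) * (∑ k, (lam k : ℂ) * (star (dotc (h j) (h k)) * ∑ l, h k l * a l)).re := by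
    rw [← Complex.ofReal_natCast, Complex.re_ofReal_mul]
  rw [h1, h2] at h3
  rw [h3]
  field_simp

theorem sp_lin_trace {n a m p : ℕ} (A : Fin n → Matrix (Fin a) (Fin m) ℂ) (x : Fin n → ℂ)
    (P : Matrix (Fin p) (Fin a) ℂ) (R : Matrix (Fin m) (Fin p) ℂ) :
    trace (P * lin A x * R) = ∑ l, x l * trace (P * A l * R) := by
  unfold lin
  rw [Matrix.mul_sum, Matrix.sum_mul, trace_sum]
  apply Finset.sum_congr rfl
  intro l _
  rw [Matrix.mul_smul, Matrix.smul_mul, trace_smul, smul_eq_mul]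

theorem sp_GL {n a m p : ℕ} {ι : Type*} [Fintype ι] (hn : 0 < n)
    (lam : ι → ℝ) (h : ι → Fin n → ℂ)
    (hframe : ∀ i j, (n : ℂ) * ∑ k, (lam k : ℂ) * (h k i * star (h k j)) = if i = j then 1 else 0)
    (j : ι) (A : Fin n → Matrix (Fin a) (Fin m) ℂ)
    (P : Matrix (Fin p) (Fin a) ℂ) (R : Matrix (Fin m) (Fin p) ℂ) :
    ∑ k, lam k * (star (dotc (h j) (h k)) * trace (P * lin A (h k) * R)).re =
      (1 / (n : ℝ)) * (trace (P * lin A (h j) * R)).re := by
  simp_rw [sp_lin_trace A _ P R]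
  exact sp_SL hn lam h hframe j _

theorem sp_star {n : ℕ} (x y : Fin n → ℂ) : star (dotc x y) = dotc y x := by
  unfold dotc
  rw [star_sum]
  apply Finset.sum_congr rfl
  intro i _
  rw [star_mul', star_star, mul_comm]

theorem sp_normsq {n : ℕ} (x y : Fin n → ℂ) :
    ‖dotc x y‖ ^ 2 = (star (dotc x y) * ∑ l, y l * star (x l)).re := by
  have h1 : ∑ l, y l * star (x l) = dotc x y := by
    unfold dotc
    apply Finset.sum_congr rfl
    intro i _
    ring
  rw [h1]
  have h2 : star (dotc x y) * dotc x y = ((‖dotc x y‖ ^ 2 : ℝ) : ℂ) := by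
    rw [Complex.star_def, mul_comm, Complex.mul_conj, Complex.normSq_eq_norm_sq]
  rw [h2, Complex.ofReal_re]

theorem sp_N2 {n : ℕ} {ι : Type*} [Fintype ι] (hn : 0 < n)
    (lam : ι → ℝ) (h : ι → Fin n → ℂ)
    (hunit : ∀ k, dotc (h k) (h k) = 1)
    (hframe : ∀ i j, (n : ℂ) * ∑ k, (lam k : ℂ) * (h k i * star (h k j)) = if i = j then 1 else 0)
    (j : ι) : ∑ k, lam k * ‖dotc (h j) (h k)‖ ^ 2 = 1 / (n : ℝ) := by
  simp_rw [sp_normsq]
  rw [sp_SL hn lam h hframe j (fun l => star (h j l))]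
  have h1 : ∑ l, h j l * star (h j l) = 1 := by
    rw [← hunit j]
    unfold dotc
    apply Finset.sum_congr rfl
    intro i _
    ring
  rw [h1]
  simp

theorem sp_X {n a b m : ℕ} {ι : Type*} [Fintype ι]
    (lam : ι → ℝ) (h : ι → Fin n → ℂ)
    (hframe : ∀ i j, (n : ℂ) * ∑ k, (lam k : ℂ) * (h k i * star (h k j)) = if i = j then 1 else 0)
    (A : Fin n → Matrix (Fin a) (Fin m) ℂ) (V : Fin n → Matrix (Fin b) (Fin m) ℂ) :
    (∑ l, V l * (A l)ᴴ) = (n : ℂ) • ∑ k, (lam k : ℂ) • (lin V (h k) * (lin A (h k))ᴴ) := by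
  have h1 : ∀ k, lin V (h k) * (lin A (h k))ᴴ =
      ∑ l, ∑ i, (h k l * star (h k i)) • (V l * (A i)ᴴ) := by
    intro k
    unfold lin
    rw [Matrix.conjTranspose_sum, Matrix.sum_mul]
    apply Finset.sum_congr rfl
    intro l _
    rw [Matrix.mul_sum]
    apply Finset.sum_congr rfl
    intro i _
    rw [Matrix.conjTranspose_smul, Matrix.smul_mul, Matrix.mul_smul, smul_smul]
  calc (∑ l, V l * (A l)ᴴ)
      = ∑ l, ∑ i, (if l = i then (1 : ℂ) else 0) • (V l * (A i)ᴴ) := by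
        apply Finset.sum_congr rfl
        intro l _
        simp
    _ = ∑ l, ∑ i, ((n : ℂ) * ∑ k, (lam k : ℂ) * (h k l * star (h k i))) • (V l * (A i)ᴴ) := by
        simp_rw [hframe]
    _ = (n : ℂ) • ∑ k, (lam k : ℂ) • (lin V (h k) * (lin A (h k))ᴴ) := by
        simp_rw [h1, Finset.smul_sum, Finset.mul_sum, Finset.sum_smul, smul_smul]
        rw [Finset.sum_comm_cycle]

theorem sp_hsX {n a b m : ℕ} {ι : Type*} [Fintype ι]
    (lam : ι → ℝ) (h : ι → Fin n → ℂ)
    (hframe : ∀ i j, (n : ℂ) * ∑ k, (lam k : ℂ) * (h k i * star (h k j)) = if i = j then 1 else 0)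
    (A : Fin n → Matrix (Fin a) (Fin m) ℂ) (V : Fin n → Matrix (Fin b) (Fin m) ℂ) :
    hs (∑ l, V l * (A l)ᴴ) = (n : ℝ) ^ 2 * ∑ j, ∑ k, lam j * lam k *
      (trace ((lin A (h j))ᴴ * lin A (h k) * ((lin V (h k))ᴴ * lin V (h j)))).re := by
  have hYY : ∀ j k, trace ((lin V (h j) * (lin A (h j))ᴴ) * (lin V (h k) * (lin A (h k))ᴴ)ᴴ) =
      trace ((lin A (h j))ᴴ * lin A (h k) * ((lin V (h k))ᴴ * lin V (h j))) := by
    intro j k
    rw [Matrix.conjTranspose_mul, Matrix.conjTranspose_conjTranspose, Matrix.mul_assoc,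
      trace_mul_comm]
    simp only [Matrix.mul_assoc]
  unfold hs
  rw [trace_mul_comm, sp_X lam h hframe A V]
  rw [Matrix.conjTranspose_smul, Matrix.conjTranspose_sum, Matrix.smul_mul, Matrix.mul_smul,
    trace_smul, trace_smul, Matrix.sum_mul, trace_sum]
  have h2 : ∀ j, trace ((lam j : ℂ) • (lin V (h j) * (lin A (h j))ᴴ) *
      ∑ k, ((lam k : ℂ) • (lin V (h k) * (lin A (h k))ᴴ))ᴴ) =
      ∑ k, ((lam j * lam k : ℝ) : ℂ) *
        trace ((lin A (h j))ᴴ * lin A (h k) * ((lin V (h k))ᴴ * lin V (h j))) := by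
    intro j
    rw [Matrix.mul_sum, trace_sum]
    apply Finset.sum_congr rfl
    intro k _
    rw [Matrix.conjTranspose_smul, Matrix.smul_mul, Matrix.mul_smul, trace_smul, trace_smul, hYY]
    simp only [smul_eq_mul, Complex.star_def, Complex.conj_ofReal, Complex.ofReal_mul]
    ring
  simp_rw [h2]
  have h3 : (n : ℂ) • star (n : ℂ) • ∑ j, ∑ k, ((lam j * lam k : ℝ) : ℂ) *
        trace ((lin A (h j))ᴴ * lin A (h k) * ((lin V (h k))ᴴ * lin V (h j))) =
      (((n : ℝ) ^ 2 : ℝ) : ℂ) * ∑ j, ∑ k, ((lam j * lam k : ℝ) : ℂ) *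
        trace ((lin A (h j))ᴴ * lin A (h k) * ((lin V (h k))ᴴ * lin V (h j))) := by
    simp only [smul_eq_mul, Complex.star_def, Complex.conj_natCast]
    push_cast
    ring
  rw [h3, Complex.re_ofReal_mul, Complex.re_sum]
  congr 1
  apply Finset.sum_congr rfl
  intro j _
  rw [Complex.re_sum]
  apply Finset.sum_congr rfl
  intro k _
  rw [Complex.re_ofReal_mul]



theorem sum_pairE {n a b m : ℕ} {ι : Type*} [Fintype ι] (hn : 0 < n)
    (lam : ι → ℝ) (h : ι → Fin n → ℂ)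
    (hsum : ∑ k, lam k = 1)
    (hunit : ∀ k, dotc (h k) (h k) = 1)
    (hframe : ∀ i j, (n : ℂ) * ∑ k, (lam k : ℂ) * (h k i * star (h k j)) = if i = j then 1 else 0)
    (A : Fin n → Matrix (Fin a) (Fin m) ℂ) (V : Fin n → Matrix (Fin b) (Fin m) ℂ)
    (ρ : Matrix (Fin m) (Fin m) ℂ) (hρ : ρ.IsHermitian) :
    (n : ℝ) ^ 2 / 2 * ∑ j, ∑ k, lam j * lam k *
        pairE (dotc (h j) (h k)) (lin A (h j)) (lin A (h k)) (lin V (h j)) (lin V (h k)) ρ
      = n * (n - 1) * (trace ρ).re - hs (∑ l, V l * (A l)ᴴ)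
        - n * (n - 2) * ∑ j, lam j * hs (lin V (h j) * (lin A (h j))ᴴ) := by
  have hn' : (n : ℝ) ≠ 0 := by positivity
  set N2 : ι → ι → ℝ := fun j k => ‖dotc (h j) (h k)‖ ^ 2 with hN2
  set sj : ι → ℝ := fun j => (trace ((lin A (h j))ᴴ * lin A (h j) * ρ)).re with hsj
  set g : ι → ℝ := fun j => hs (lin V (h j) * (lin A (h j))ᴴ) with hg
  set t : ι → ℝ := fun j => (trace ((lin V (h j))ᴴ * lin V (h j))).re with ht
  set T3 : ι → ι → ℝ := fun j k =>
    (star (dotc (h j) (h k)) * trace ((lin A (h j))ᴴ * lin A (h k) * ρ)).re with hT3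
  set T5 : ι → ι → ℝ := fun j k =>
    (trace ((lin A (h j))ᴴ * lin A (h k) * ((lin V (h k))ᴴ * lin V (h j)))).re with hT5
  set T6a : ι → ι → ℝ := fun j k => (star (dotc (h j) (h k)) *
    trace ((lin A (h j))ᴴ * lin A (h k) * ((lin V (h j))ᴴ * lin V (h j)))).re with hT6a
  set T6b : ι → ι → ℝ := fun j k => (dotc (h j) (h k) *
    trace ((lin A (h k))ᴴ * lin A (h j) * ((lin V (h k))ᴴ * lin V (h k)))).re with hT6b
  set T7 : ι → ι → ℝ := fun j k =>
    (dotc (h j) (h k) * trace ((lin V (h k))ᴴ * lin V (h j))).re with hT7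
  have hN2s : ∀ j k, N2 j k = N2 k j := by
    intro j k
    simp only [hN2]
    rw [← sp_star (h k) (h j), norm_star]
  have hgj : ∀ j, (trace ((lin A (h j))ᴴ * lin A (h j) * ((lin V (h j))ᴴ * lin V (h j)))).re
      = g j := by
    intro j
    simp only [hg, hs]
    rw [Matrix.conjTranspose_mul, Matrix.conjTranspose_conjTranspose]
    rw [Matrix.mul_assoc (lin A (h j)) (lin V (h j))ᴴ, trace_mul_comm (lin A (h j))]
    rw [Matrix.mul_assoc (lin V (h j))ᴴ, Matrix.mul_assoc (lin V (h j)), trace_mul_comm]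
    simp only [Matrix.mul_assoc]
  -- the single sums
  have e1 : ∀ j, ∑ k, lam k * N2 j k = 1 / (n : ℝ) := fun j => sp_N2 hn lam h hunit hframe j
  have e3 : ∀ j, ∑ k, lam k * T3 j k = (1 / (n : ℝ)) * sj j := fun j =>
    sp_GL hn lam h hframe j A ((lin A (h j))ᴴ) ρ
  have e6a : ∀ j, ∑ k, lam k * T6a j k = (1 / (n : ℝ)) * g j := by
    intro j
    have := sp_GL hn lam h hframe j A ((lin A (h j))ᴴ) ((lin V (h j))ᴴ * lin V (h j))
    rw [hgj] at this
    exact this
  have e6b : ∀ k, ∑ j, lam j * T6b j k = (1 / (n : ℝ)) * g k := by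
    intro k
    have h6 := e6a k
    have h7 : ∀ j, T6b j k = T6a k j := by
      intro j
      simp only [hT6a, hT6b]
      rw [sp_star (h k) (h j)]
    simp_rw [h7]
    exact h6
  have e7 : ∀ k, ∑ j, lam j * T7 j k = (1 / (n : ℝ)) * t k := by
    intro k
    have h8 := sp_GL hn lam h hframe k V ((lin V (h k))ᴴ) (1 : Matrix (Fin m) (Fin m) ℂ)
    simp only [Matrix.mul_one] at h8
    have h9 : ∀ j, T7 j k = (star (dotc (h k) (h j)) * trace ((lin V (h k))ᴴ * lin V (h j))).re := by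
      intro j
      simp only [hT7]
      rw [sp_star (h k) (h j)]
    simp_rw [h9]
    exact h8
  -- double sums
  have dcomm : ∀ f : ι → ι → ℝ, ∑ j, ∑ k, lam j * lam k * f j k =
      ∑ k, lam k * ∑ j, lam j * f j k := by
    intro f
    rw [Finset.sum_comm]
    apply Finset.sum_congr rfl
    intro k _
    rw [Finset.mul_sum]
    apply Finset.sum_congr rfl
    intro j _
    ring
  have dstd : ∀ f : ι → ι → ℝ, ∑ j, ∑ k, lam j * lam k * f j k =
      ∑ j, lam j * ∑ k, lam k * f j k := by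
    intro f
    apply Finset.sum_congr rfl
    intro j _
    rw [Finset.mul_sum]
    apply Finset.sum_congr rfl
    intro k _
    ring
  have U1 : ∑ j, ∑ k, lam j * lam k * (1 : ℝ) = 1 := by
    rw [dstd (fun _ _ => 1)]
    simp only [mul_one, hsum]
  have UN : ∑ j, ∑ k, lam j * lam k * N2 j k = 1 / (n : ℝ) := by
    rw [dstd]
    simp_rw [e1]
    rw [← Finset.sum_mul, hsum, one_mul]
  have UNj : ∀ f : ι → ℝ, ∑ j, ∑ k, lam j * lam k * (N2 j k * f j) =
      (1 / (n : ℝ)) * ∑ j, lam j * f j := by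
    intro f
    rw [dstd (fun j k => N2 j k * f j), Finset.mul_sum]
    apply Finset.sum_congr rfl
    intro j _
    have : ∑ k, lam k * (N2 j k * f j) = (∑ k, lam k * N2 j k) * f j := by
      rw [Finset.sum_mul]
      apply Finset.sum_congr rfl
      intro k _
      ring
    rw [this, e1]
    ring
  have UNk : ∀ f : ι → ℝ, ∑ j, ∑ k, lam j * lam k * (N2 j k * f k) =
      (1 / (n : ℝ)) * ∑ j, lam j * f j := by
    intro f
    rw [dcomm (fun j k => N2 j k * f k), Finset.mul_sum]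
    apply Finset.sum_congr rfl
    intro k _
    have : ∑ j, lam j * (N2 j k * f k) = (∑ j, lam j * N2 k j) * f k := by
      rw [Finset.sum_mul]
      apply Finset.sum_congr rfl
      intro j _
      rw [hN2s j k]
      ring
    rw [this, e1]
    ring
  have Uj : ∀ f : ι → ℝ, ∑ j, ∑ k, lam j * lam k * f j = ∑ j, lam j * f j := by
    intro f
    rw [dstd (fun j _ => f j)]
    apply Finset.sum_congr rfl
    intro j _
    rw [← Finset.sum_mul, hsum, one_mul]
  have Uk : ∀ f : ι → ℝ, ∑ j, ∑ k, lam j * lam k * f k = ∑ j, lam j * f j := by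
    intro f
    rw [dcomm (fun _ k => f k)]
    apply Finset.sum_congr rfl
    intro j _
    rw [← Finset.sum_mul, hsum, one_mul]
  have U3 : ∑ j, ∑ k, lam j * lam k * T3 j k = (1 / (n : ℝ)) * ∑ j, lam j * sj j := by
    rw [dstd, Finset.mul_sum]
    apply Finset.sum_congr rfl
    intro j _
    rw [e3]
    ring
  have U6a : ∑ j, ∑ k, lam j * lam k * T6a j k = (1 / (n : ℝ)) * ∑ j, lam j * g j := by
    rw [dstd, Finset.mul_sum]
    apply Finset.sum_congr rfl
    intro j _
    rw [e6a]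
    ring
  have U6b : ∑ j, ∑ k, lam j * lam k * T6b j k = (1 / (n : ℝ)) * ∑ j, lam j * g j := by
    rw [dcomm, Finset.mul_sum]
    apply Finset.sum_congr rfl
    intro j _
    rw [e6b]
    ring
  have U7 : ∑ j, ∑ k, lam j * lam k * T7 j k = (1 / (n : ℝ)) * ∑ j, lam j * t j := by
    rw [dcomm, Finset.mul_sum]
    apply Finset.sum_congr rfl
    intro j _
    rw [e7]
    ring
  have U5 : hs (∑ l, V l * (A l)ᴴ) = (n : ℝ) ^ 2 * ∑ j, ∑ k, lam j * lam k * T5 j k :=
    sp_hsX lam h hframe A V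
  have hexp : ∀ j k, lam j * lam k *
        pairE (dotc (h j) (h k)) (lin A (h j)) (lin A (h k)) (lin V (h j)) (lin V (h k)) ρ =
      (2 * (trace ρ).re) * (lam j * lam k * 1) - (2 * (trace ρ).re) * (lam j * lam k * N2 j k)
      + lam j * lam k * (N2 j k * sj j) + lam j * lam k * (N2 j k * sj k)
      - 2 * (lam j * lam k * T3 j k) - lam j * lam k * g j - lam j * lam k * g k
      - 2 * (lam j * lam k * T5 j k) + 2 * (lam j * lam k * T6a j k)
      + 2 * (lam j * lam k * T6b j k) + 4 * (lam j * lam k * T7 j k)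
      - 2 * (lam j * lam k * (N2 j k * t j)) - 2 * (lam j * lam k * (N2 j k * t k)) := by
    intro j k
    simp only [hN2, hsj, hg, ht, hT3, hT5, hT6a, hT6b, hT7, pairE]
    rw [Matrix.add_mul, trace_add, Complex.add_re, Complex.add_re, Complex.add_re]
    ring
  simp_rw [hexp]
  simp only [Finset.sum_add_distrib, Finset.sum_sub_distrib]
  have c1 : ∀ (c : ℝ) (f : ι → ι → ℝ), ∑ j, ∑ k, c * f j k = c * ∑ j, ∑ k, f j k := by
    intro c f
    rw [Finset.mul_sum]
    apply Finset.sum_congr rfl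
    intro j _
    rw [Finset.mul_sum]
  rw [c1 (2 * (trace ρ).re) (fun j k => lam j * lam k * 1),
    c1 (2 * (trace ρ).re) (fun j k => lam j * lam k * N2 j k),
    c1 2 (fun j k => lam j * lam k * T3 j k), c1 2 (fun j k => lam j * lam k * T5 j k),
    c1 2 (fun j k => lam j * lam k * T6a j k), c1 2 (fun j k => lam j * lam k * T6b j k),
    c1 4 (fun j k => lam j * lam k * T7 j k), c1 2 (fun j k => lam j * lam k * (N2 j k * t j)),
    c1 2 (fun j k => lam j * lam k * (N2 j k * t k))]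
  rw [U1, UN, UNj, UNk, U3, Uj, Uk, U6a, U6b, U7, UNj, UNk, U5]
  field_simp
  ring

end PartSumPair

end Pool.Agent.Helper150.Cb
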