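import Pool.Agent.Helper150.Cb.Core
import Pool.Agent.Helper150.Cb.PairIneq
import Pool.Agent.Helper150.Cb.SumPair
import Pool.Agent.Helper150.Cb.Laplace

namespace Pool.Agent.Helper150.Cb
open Matrix Complex
open scoped ComplexOrder

namespace PartCoreThree
open PartPairIneq PartSumPair PartLaplace












theorem h845_hs_nonneg {a m : ℕ} (X : Matrix (Fin a) (Fin m) ℂ) : 0 ≤ hs X := by
  unfold hs
  have h := (Matrix.posSemidef_conjTranspose_mul_self X).trace_nonneg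
  exact (Complex.le_def.1 h).1

theorem h845_hs_smul {a m : ℕ} (c : ℂ) (X : Matrix (Fin a) (Fin m) ℂ) :
    hs (c • X) = ‖c‖ ^ 2 * hs X := by
  unfold hs
  rw [Matrix.conjTranspose_smul, Matrix.smul_mul, Matrix.mul_smul, smul_smul, Matrix.trace_smul, smul_eq_mul]
  have : star c * c = ((‖c‖ ^ 2 : ℝ) : ℂ) := by
    rw [Complex.star_def, ← Complex.normSq_eq_conj_mul_self, Complex.normSq_eq_norm_sq]
  rw [this, Complex.re_ofReal_mul]

theorem h845_norm_sq (z : ℂ) : z * star z = ((‖z‖ ^ 2 : ℝ) : ℂ) := by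
  rw [Complex.star_def, Complex.mul_conj, Complex.normSq_eq_norm_sq]

theorem h845_cs {n : ℕ} (x y : Fin n → ℂ) (hx : dotc x x = 1) (hy : dotc y y = 1) :
    ‖dotc x y‖ ^ 2 ≤ 1 := by
  have e : ∀ u v : Fin n → ℂ, dotc u v = inner ℂ (WithLp.toLp 2 u : EuclideanSpace ℂ (Fin n)) (WithLp.toLp 2 v) := by
    intro u v
    simp [dotc, PiLp.inner_apply, mul_comm]
  have nx : ∀ u : Fin n → ℂ, dotc u u = 1 → ‖(WithLp.toLp 2 u : EuclideanSpace ℂ (Fin n))‖ = 1 := by
    intro u hu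
    rw [e] at hu
    have : ‖(WithLp.toLp 2 u : EuclideanSpace ℂ (Fin n))‖ ^ 2 = 1 := by
      have h := congrArg RCLike.re hu
      rw [inner_self_eq_norm_sq] at h
      simpa using h
    nlinarith [norm_nonneg (WithLp.toLp 2 u : EuclideanSpace ℂ (Fin n))]
  have h := norm_inner_le_norm (𝕜 := ℂ) (WithLp.toLp 2 x : EuclideanSpace ℂ (Fin n)) (WithLp.toLp 2 y)
  rw [← e, nx x hx, nx y hy, one_mul] at h
  nlinarith [norm_nonneg (dotc x y)]

theorem h845_frame {n : ℕ} {ι : Type*} [Fintype ι] (lam : ι → ℝ) (h : ι → Fin n → ℂ)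
    (hframe : ∀ i j, (n : ℂ) * ∑ k, (lam k : ℂ) * (h k i * star (h k j)) = if i = j then 1 else 0)
    (x : Fin n → ℂ) :
    (n : ℂ) * ∑ k, (lam k : ℂ) * (dotc x (h k) * star (dotc x (h k))) = dotc x x := by
  have e1 : ∀ k, dotc x (h k) * star (dotc x (h k)) =
      ∑ l, ∑ l', (star (x l) * x l') * (h k l * star (h k l')) := by
    intro k
    unfold dotc
    rw [star_sum, Finset.sum_mul_sum]
    refine Finset.sum_congr rfl fun l _ => Finset.sum_congr rfl fun l' _ => ?_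
    rw [star_mul, star_star]; ring
  have e2 : (n : ℂ) * ∑ k, (lam k : ℂ) * (dotc x (h k) * star (dotc x (h k))) =
      ∑ l, ∑ l', (star (x l) * x l') * ((n : ℂ) * ∑ k, (lam k : ℂ) * (h k l * star (h k l'))) := by
    simp only [e1, Finset.mul_sum]
    rw [Finset.sum_comm]
    refine Finset.sum_congr rfl fun l _ => ?_
    rw [Finset.sum_comm]
    refine Finset.sum_congr rfl fun l' _ => Finset.sum_congr rfl fun k _ => ?_
    ring
  rw [e2]
  simp only [hframe]
  unfold dotc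
  refine Finset.sum_congr rfl fun l _ => ?_
  simp

theorem h845_X {n a b m : ℕ} {ι : Type*} [Fintype ι] (lam : ι → ℝ) (h : ι → Fin n → ℂ)
    (hframe : ∀ i j, (n : ℂ) * ∑ k, (lam k : ℂ) * (h k i * star (h k j)) = if i = j then 1 else 0)
    (A : Fin n → Matrix (Fin a) (Fin m) ℂ) (V : Fin n → Matrix (Fin b) (Fin m) ℂ) :
    (n : ℂ) • ∑ k, (lam k : ℂ) • (lin V (h k) * (lin A (h k))ᴴ) = ∑ l, V l * (A l)ᴴ := by
  have e1 : ∀ k, lin V (h k) * (lin A (h k))ᴴ =
      ∑ l, ∑ l', (h k l * star (h k l')) • (V l * (A l')ᴴ) := by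
    intro k
    unfold lin
    rw [Matrix.conjTranspose_sum, Matrix.sum_mul]
    refine Finset.sum_congr rfl fun l _ => ?_
    rw [Matrix.mul_sum]
    refine Finset.sum_congr rfl fun l' _ => ?_
    rw [Matrix.conjTranspose_smul, Matrix.smul_mul, Matrix.mul_smul, smul_smul]
  have e2 : (n : ℂ) • ∑ k, (lam k : ℂ) • (lin V (h k) * (lin A (h k))ᴴ) =
      ∑ l, ∑ l', ((n : ℂ) * ∑ k, (lam k : ℂ) * (h k l * star (h k l'))) • (V l * (A l')ᴴ) := by
    simp only [e1, Finset.smul_sum, smul_smul, Finset.mul_sum, Finset.sum_smul]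
    rw [Finset.sum_comm]
    refine Finset.sum_congr rfl fun l _ => ?_
    rw [Finset.sum_comm]
  rw [e2]
  simp only [hframe]
  refine Finset.sum_congr rfl fun l _ => ?_
  simp

theorem matrix_core_ge3 {n a b m : ℕ} {ι : Type*} [Fintype ι] (hn : 3 ≤ n)
    (lam : ι → ℝ) (h : ι → Fin n → ℂ) (hlam : ∀ k, 0 ≤ lam k)
    (hunit : ∀ k, dotc (h k) (h k) = 1)
    (hframe : ∀ i j, (n : ℂ) * ∑ k, (lam k : ℂ) * (h k i * star (h k j)) = if i = j then 1 else 0)
    (A : Fin n → Matrix (Fin a) (Fin m) ℂ) (V : Fin n → Matrix (Fin b) (Fin m) ℂ)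
    (ρ : Matrix (Fin m) (Fin m) ℂ)
    (hV : ∀ x : Fin n → ℂ, (dotc x x • ρ - (lin V x)ᴴ * lin V x).PosSemidef)
    (hA : ∀ k, (1 - (lin A (h k))ᴴ * lin A (h k)).PosSemidef) :
    hs (∑ l, V l * (A l)ᴴ) ≤ (n : ℝ) ^ 2 / 2 * (trace ρ).re := by
  have hn0 : 0 < n := by omega
  have hnR : (0:ℝ) < n := by exact_mod_cast hn0
  have hnC : (n:ℂ) ≠ 0 := by exact_mod_cast hn0.ne'
  have hnR3 : (3:ℝ) ≤ n := by exact_mod_cast hn
  -- sum of weights
  have hsum : ∑ k, lam k = 1 := by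
    have h1 : ∑ i : Fin n, ((n : ℂ) * ∑ k, (lam k : ℂ) * (h k i * star (h k i))) = n := by
      rw [Finset.sum_congr rfl (fun i _ => hframe i i)]
      simp
    have h2 : ∑ i : Fin n, ((n : ℂ) * ∑ k, (lam k : ℂ) * (h k i * star (h k i))) = n * ∑ k, (lam k : ℂ) := by
      rw [← Finset.mul_sum, Finset.sum_comm]
      congr 1
      refine Finset.sum_congr rfl fun k _ => ?_
      rw [← Finset.mul_sum]
      have : ∑ i, h k i * star (h k i) = dotc (h k) (h k) := by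
        unfold dotc
        exact Finset.sum_congr rfl fun i _ => mul_comm _ _
      rw [this, hunit, mul_one]
    rw [h2] at h1
    have h3 : ∑ k, (lam k : ℂ) = 1 := mul_left_cancel₀ hnC (by rw [h1, mul_one])
    exact_mod_cast h3
  have hne : Nonempty ι := by
    by_contra hcon
    rw [not_nonempty_iff] at hcon
    simp at hsum
  obtain ⟨k0⟩ := hne
  have hρ : ρ.IsHermitian := by
    have h1 := (hV (h k0)).isHermitian
    rw [hunit, one_smul] at h1
    have h2 : ((lin V (h k0))ᴴ * lin V (h k0)).IsHermitian := Matrix.isHermitian_conjTranspose_mul_self _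
    have h3 := h1.add h2
    rwa [sub_add_cancel] at h3
  set T : ι → Matrix (Fin b) (Fin a) ℂ := fun k => lin V (h k) * (lin A (h k))ᴴ with hT
  set s : ι → ι → ℝ := fun j k => ‖dotc (h j) (h k)‖ ^ 2 with hs'
  have hsj : ∀ j, ∑ k, lam k * s j k = 1 / n := by
    intro j
    have h1 := h845_frame lam h hframe (h j)
    rw [hunit] at h1
    simp only [h845_norm_sq] at h1
    have h2 : (n:ℝ) * ∑ k, lam k * ‖dotc (h j) (h k)‖ ^ 2 = 1 := by exact_mod_cast h1
    rw [eq_div_iff hnR.ne', mul_comm]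
    exact h2
  have hsymm : ∀ j k, s j k = s k j := by
    intro j k
    simp only [hs']
    have : dotc (h j) (h k) = star (dotc (h k) (h j)) := by
      unfold dotc
      rw [star_sum]
      refine Finset.sum_congr rfl fun i _ => ?_
      rw [star_mul, star_star]
    rw [this, norm_star]
  have hsk : ∀ k, ∑ j, lam j * s j k = 1 / n := by
    intro k
    rw [← hsj k]
    exact Finset.sum_congr rfl fun j _ => by rw [hsymm]
  have hs0 : ∀ j k, 0 ≤ s j k := fun j k => sq_nonneg _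
  have hs1 : ∀ j k, s j k ≤ 1 := fun j k => h845_cs _ _ (hunit j) (hunit k)
  have hlap := laplace_ineq (n : ℝ) hnR lam hlam hsum s hs0 hs1 hsj hsk T
  have hlap0 : 0 ≤ ∑ j, ∑ k, lam j * lam k * (max (s j k - 1 / 2) 0 * hs (T j - T k)) :=
    Finset.sum_nonneg fun j _ => Finset.sum_nonneg fun k _ =>
      mul_nonneg (mul_nonneg (hlam j) (hlam k)) (mul_nonneg (le_max_right _ _) (h845_hs_nonneg _))
  have hX := h845_X lam h hframe A V
  set X := ∑ l, V l * (A l)ᴴ with hXdef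
  have hhsX : hs X = (n:ℝ) ^ 2 * hs (∑ j, (lam j : ℂ) • T j) := by
    rw [← hX, h845_hs_smul]
    simp [hT]
  set Y := hs (∑ j, (lam j : ℂ) • T j) with hY
  set SS := ∑ j, lam j * hs (T j) with hSS
  have hsp := sum_pairE hn0 lam h hsum hunit hframe A V ρ hρ
  have hpair : 0 ≤ ∑ j, ∑ k, lam j * lam k * (pairE (dotc (h j) (h k)) (lin A (h j)) (lin A (h k)) (lin V (h j)) (lin V (h k)) ρ
      + max (s j k - 1 / 2) 0 * hs (T j - T k)) :=
    Finset.sum_nonneg fun j _ => Finset.sum_nonneg fun k _ =>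
      mul_nonneg (mul_nonneg (hlam j) (hlam k)) (pair_ineq A V ρ hV (h j) (h k) (hunit j) (hunit k) (hA j) (hA k))
  have hsplit : ∑ j, ∑ k, lam j * lam k * (pairE (dotc (h j) (h k)) (lin A (h j)) (lin A (h k)) (lin V (h j)) (lin V (h k)) ρ
      + max (s j k - 1 / 2) 0 * hs (T j - T k)) =
      ∑ j, ∑ k, lam j * lam k * pairE (dotc (h j) (h k)) (lin A (h j)) (lin A (h k)) (lin V (h j)) (lin V (h k)) ρ +
      ∑ j, ∑ k, lam j * lam k * (max (s j k - 1 / 2) 0 * hs (T j - T k)) := by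
    simp only [← Finset.sum_add_distrib]
    exact Finset.sum_congr rfl fun j _ => Finset.sum_congr rfl fun k _ => by ring
  rw [hsplit] at hpair
  set PE := ∑ j, ∑ k, lam j * lam k * pairE (dotc (h j) (h k)) (lin A (h j)) (lin A (h k)) (lin V (h j)) (lin V (h k)) ρ with hPE
  set LP := ∑ j, ∑ k, lam j * lam k * (max (s j k - 1 / 2) 0 * hs (T j - T k)) with hLP
  have hSS' : ∑ j, lam j * hs (lin V (h j) * (lin A (h j))ᴴ) = SS := rfl
  rw [hSS'] at hsp
  -- hsp : n^2/2 * PE = n(n-1) tr - hs X - n(n-2) SS ; hlap : LP ≤ 2/n (SS - Y)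
  have h1 : 0 ≤ SS - Y := by
    have h2 : 0 ≤ 2 / (n:ℝ) * (SS - Y) := hlap0.trans hlap
    have h3 : 0 < 2 / (n:ℝ) := by positivity
    exact nonneg_of_mul_nonneg_right h2 h3
  have h2 : (n:ℝ) ^ 2 / 2 * LP ≤ n * (SS - Y) := by
    calc (n:ℝ) ^ 2 / 2 * LP ≤ (n:ℝ) ^ 2 / 2 * (2 / n * (SS - Y)) := by gcongr
      _ = n * (SS - Y) := by field_simp
  have h3 : 0 ≤ (n:ℝ) ^ 2 / 2 * (PE + LP) := mul_nonneg (by positivity) hpair
  have h4 : 0 ≤ n * (n - 1) * (trace ρ).re - hs X - n * (n - 2) * SS + n * (SS - Y) := by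
    rw [mul_add, hsp] at h3
    linarith
  rw [hhsX] at h4 ⊢
  -- 0 ≤ n(n-1) t - n^2 Y - n(n-3) SS - n Y
  have h5 : (n:ℝ) * (n - 3) * Y ≤ n * (n - 3) * SS := by
    apply mul_le_mul_of_nonneg_left (by linarith)
    exact mul_nonneg hnR.le (by linarith)
  have h6 : 0 ≤ (n:ℝ) * (n - 1) * ((trace ρ).re - 2 * Y) := by nlinarith
  have h7 : 0 ≤ (trace ρ).re - 2 * Y := nonneg_of_mul_nonneg_right h6 (mul_pos hnR (by linarith))
  have h8 : 0 ≤ (n:ℝ) ^ 2 := by positivity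
  nlinarith [mul_nonneg h8 h7]

end PartCoreThree

end Pool.Agent.Helper150.Cb
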