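import Pool.Agent.Helper150.Cb.Core

namespace Pool.Agent.Helper150.Cb
open Matrix Complex
open scoped ComplexOrder

namespace PartDiagBasis




/-- real symmetric 3x3 diagonalisation, sorted so that the last eigenvalue is the largest -/
theorem eig3 (P : Matrix (Fin 3) (Fin 3) ℝ) (hP : P.IsHermitian) :
    ∃ (F : Fin 3 → Fin 3 → ℝ) (μ : Fin 3 → ℝ),
      (∀ i j, ∑ l, F i l * F j l = if i = j then 1 else 0) ∧
      (∀ i j, ∑ l, P j l * F i l = μ i * F i j) ∧ (∀ i, μ i ≤ μ 2) := by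
  obtain ⟨m, hm⟩ := Finite.exists_max hP.eigenvalues
  refine ⟨fun i j => hP.eigenvectorBasis (Equiv.swap 2 m i) j,
    fun i => hP.eigenvalues (Equiv.swap 2 m i), ?_, ?_, ?_⟩
  · intro i j
    have h := hP.eigenvectorBasis.orthonormal
    rw [orthonormal_iff_ite] at h
    have h2 := h (Equiv.swap 2 m i) (Equiv.swap 2 m j)
    rw [PiLp.inner_apply] at h2
    simp only [EmbeddingLike.apply_eq_iff_eq] at h2
    rw [← h2]
    refine Finset.sum_congr rfl fun l _ => ?_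
    simp [mul_comm]
  · intro i j
    have h := hP.mulVec_eigenvectorBasis (Equiv.swap 2 m i)
    have h2 := congrFun h j
    simpa [Matrix.mulVec, dotProduct] using h2
  · intro i
    simp only [Equiv.swap_apply_left]
    exact hm _

/-- unit vector `x` with `x x^H = (1 + s(q)) / 2` -/
theorem exx (a b c : ℝ) (h : a ^ 2 + b ^ 2 + c ^ 2 = 1) : ∃ x0 x1 : ℂ,
    x0 * star x0 = (1 + (b : ℂ)) / 2 ∧ x1 * star x1 = (1 - (b : ℂ)) / 2 ∧
    x0 * star x1 = ((a : ℂ) - I * c) / 2 ∧ x1 * star x0 = ((a : ℂ) + I * c) / 2 := by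
  by_cases hb : b = -1
  · have ha : a = 0 := by nlinarith [sq_nonneg a, sq_nonneg c]
    have hc : c = 0 := by nlinarith [sq_nonneg a, sq_nonneg c]
    refine ⟨0, 1, ?_, ?_, ?_, ?_⟩
    · rw [hb]; push_cast; simp
    · rw [hb]; push_cast; norm_num
    · rw [ha, hc]; simp
    · rw [ha, hc]; simp
  · have hb1 : -1 < b := by
      have : -1 ≤ b := by nlinarith [sq_nonneg a, sq_nonneg c]
      exact lt_of_le_of_ne this (Ne.symm hb)
    set r : ℝ := Real.sqrt ((1 + b) / 2) with hr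
    have hr0 : 0 < r := Real.sqrt_pos.mpr (by linarith)
    have hr2 : r ^ 2 = (1 + b) / 2 := Real.sq_sqrt (by linarith)
    have hrc : (r : ℂ) ^ 2 = (1 + (b : ℂ)) / 2 := by exact_mod_cast congrArg (fun z : ℝ => (z : ℂ)) hr2
    have hr0c : (r : ℂ) ≠ 0 := by exact_mod_cast hr0.ne'
    have hI : (I : ℂ) ^ 2 = -1 := I_sq
    have hbc : (1 + (b : ℂ)) ≠ 0 := by
      intro h0
      have : (1 + b) = 0 := by exact_mod_cast h0
      linarith
    have hc : (a : ℂ) ^ 2 + (b : ℂ) ^ 2 + (c : ℂ) ^ 2 = 1 := by exact_mod_cast congrArg (fun z : ℝ => (z : ℂ)) h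
    refine ⟨(r : ℂ), ((a : ℂ) + I * c) / (2 * r), ?_, ?_, ?_, ?_⟩
    · simp only [star_def, conj_ofReal]
      rw [← hrc]; ring
    · simp only [star_def, map_div₀, map_add, map_mul, conj_ofReal, conj_I, map_ofNat]
      rw [div_mul_div_comm]
      rw [div_eq_iff (by
        refine mul_ne_zero ?_ ?_ <;> exact mul_ne_zero two_ne_zero hr0c)]
      linear_combination hc + (-(c : ℂ) ^ 2) * hI - 2 * (1 - (b : ℂ)) * hrc
    · simp only [star_def, map_div₀, map_add, map_mul, conj_ofReal, conj_I, map_ofNat]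
      field_simp
      ring
    · simp only [star_def, conj_ofReal]
      field_simp

theorem algz (p0 p1 p2 q0 q1 q2 : ℝ) (hpq : p0 * q0 + p1 * q1 + p2 * q2 = 0)
    (x0 x1 : ℂ)
    (hA : x0 * star x0 = (1 + (q1 : ℂ)) / 2) (hB : x1 * star x1 = (1 - (q1 : ℂ)) / 2)
    (hC : x0 * star x1 = ((q0 : ℂ) - I * q2) / 2) (hD : x1 * star x0 = ((q0 : ℂ) + I * q2) / 2)
    (h0 h1 : ℂ) :
    (x0 * star h0 + x1 * star h1) *
      (star (p1 * x0 + (p0 - I * p2) * x1) * h0 + star ((p0 + I * p2) * x0 - p1 * x1) * h1) =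
    ((p0 * (star h0 * h1 + star h1 * h0) + p1 * (star h0 * h0 - star h1 * h1)
      + p2 * (-I * (star h0 * h1 - star h1 * h0))) +
      I * ((p1 * q2 - p2 * q1) * (star h0 * h1 + star h1 * h0)
        + (p2 * q0 - p0 * q2) * (star h0 * h0 - star h1 * h1)
      + (p0 * q1 - p1 * q0) * (-I * (star h0 * h1 - star h1 * h0)))) / 2 := by
  have hI : (I : ℂ) ^ 2 = -1 := I_sq
  have hpqc : (p0 : ℂ) * q0 + p1 * q1 + p2 * q2 = 0 := by exact_mod_cast congrArg (fun z : ℝ => (z : ℂ)) hpq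
  simp only [star_def, map_add, map_sub, map_mul, conj_ofReal, conj_I] at *
  generalize (starRingEnd ℂ) x0 = y0 at *
  generalize (starRingEnd ℂ) x1 = y1 at *
  generalize (starRingEnd ℂ) h0 = g0 at *
  generalize (starRingEnd ℂ) h1 = g1 at *
  linear_combination (g0 * h0 * p1 + g0 * h1 * (p0 - I * p2)) * hA +
    (g1 * h0 * (p0 + I * p2) - g1 * h1 * p1) * hB +
    (g0 * h0 * (p0 + I * p2) - g0 * h1 * p1) * hC +
    (g1 * h0 * p1 + g1 * h1 * (p0 - I * p2)) * hD + ((g0 * h0 + g1 * h1) / 2) * hpqc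
    + (- (g0 * h0 + g1 * h1) / 2 * p2 * q2
      + (g0 * h1 - g1 * h0) * (p0 * q1 - p1 * q0) / 2) * hI

theorem algx (p0 p1 p2 q0 q1 q2 : ℝ) (hpp : p0 ^ 2 + p1 ^ 2 + p2 ^ 2 = 1)
    (hpq : p0 * q0 + p1 * q1 + p2 * q2 = 0)
    (x0 x1 : ℂ)
    (hA : x0 * star x0 = (1 + (q1 : ℂ)) / 2) (hB : x1 * star x1 = (1 - (q1 : ℂ)) / 2)
    (hC : x0 * star x1 = ((q0 : ℂ) - I * q2) / 2) (hD : x1 * star x0 = ((q0 : ℂ) + I * q2) / 2) :
    (p1 * x0 + (p0 - I * p2) * x1) * star (p1 * x0 + (p0 - I * p2) * x1) = (1 - (q1 : ℂ)) / 2 ∧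
    ((p0 + I * p2) * x0 - p1 * x1) * star ((p0 + I * p2) * x0 - p1 * x1) = (1 + (q1 : ℂ)) / 2 ∧
    (p1 * x0 + (p0 - I * p2) * x1) * star ((p0 + I * p2) * x0 - p1 * x1) =
      -((q0 : ℂ) - I * q2) / 2 ∧
    ((p0 + I * p2) * x0 - p1 * x1) * star (p1 * x0 + (p0 - I * p2) * x1) =
      -((q0 : ℂ) + I * q2) / 2 ∧
    star x0 * (p1 * x0 + (p0 - I * p2) * x1) + star x1 * ((p0 + I * p2) * x0 - p1 * x1) = 0 := by
  have hI : (I : ℂ) ^ 2 = -1 := I_sq
  have hpqc : (p0 : ℂ) * q0 + p1 * q1 + p2 * q2 = 0 := by exact_mod_cast congrArg (fun z : ℝ => (z : ℂ)) hpq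
  have hppc : (p0 : ℂ) ^ 2 + p1 ^ 2 + p2 ^ 2 = 1 := by exact_mod_cast congrArg (fun z : ℝ => (z : ℂ)) hpp
  simp only [star_def, map_add, map_sub, map_mul, conj_ofReal, conj_I] at *
  generalize (starRingEnd ℂ) x0 = y0 at *
  generalize (starRingEnd ℂ) x1 = y1 at *
  refine ⟨?_, ?_, ?_, ?_, ?_⟩
  · linear_combination ((p1:ℂ)^2) * hA + (p1 * (p0 + I * p2)) * hC + (p1 * (p0 - I * p2)) * hD +
      (p0^2 - I^2 * p2^2) * hB + (1 / 2 - q1 / 2) * hppc + p1 * hpqc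
      + (-p1 * p2 * q2 - p2 ^ 2 / 2 + p2 ^ 2 * q1 / 2) * hI
  · linear_combination (p0^2 - I^2 * p2^2) * hA - ((p0 + I * p2) * p1) * hC - (p1 * (p0 - I * p2)) * hD +
      (p1:ℂ)^2 * hB + (1 / 2 + q1 / 2) * hppc - p1 * hpqc
      + (p1 * p2 * q2 - p2 ^ 2 / 2 - p2 ^ 2 * q1 / 2) * hI
  · linear_combination (p1 * (p0 - I * p2)) * hA - ((p1:ℂ)^2) * hC + (p0 - I * p2)^2 * hD
      - (p0 - I * p2) * p1 * hB + (p0 - I * p2) * hpqc + ((I * q2 - q0) / 2) * hppc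
      + (-p0 * p2 * q2 + p2 ^ 2 * q0 / 2 + I * p2 ^ 2 * q2 / 2) * hI
  · linear_combination ((p0 + I * p2) * p1) * hA + (p0 + I * p2)^2 * hC - ((p1:ℂ)^2) * hD
      - (p0 + I * p2) * p1 * hB + (p0 + I * p2) * hpqc + ((-I * q2 - q0) / 2) * hppc
      + (-p0 * p2 * q2 + p2 ^ 2 * q0 / 2 - I * p2 ^ 2 * q2 / 2) * hI
  · linear_combination (p1:ℂ) * hA - (p1:ℂ) * hB + (p0 + I * p2) * hC + (p0 - I * p2) * hD + hpqc
      - (p2 * q2 : ℂ) * hI

/-- the Bloch vector -/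
noncomputable def bl (h : Fin 2 → ℂ) : Fin 3 → ℝ :=
  ![(star (h 0) * h 1 + star (h 1) * h 0).re, (star (h 0) * h 0 - star (h 1) * h 1).re,
    (-I * (star (h 0) * h 1 - star (h 1) * h 0)).re]

theorem bl0 (h : Fin 2 → ℂ) : ((bl h 0 : ℝ) : ℂ) = star (h 0) * h 1 + star (h 1) * h 0 := by
  apply Complex.ext
  · simp [bl]
  · simp [bl]; ring

theorem bl1 (h : Fin 2 → ℂ) : ((bl h 1 : ℝ) : ℂ) = star (h 0) * h 0 - star (h 1) * h 1 := by
  apply Complex.ext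
  · simp [bl]
  · simp [bl]; ring

theorem bl2 (h : Fin 2 → ℂ) :
    ((bl h 2 : ℝ) : ℂ) = -I * (star (h 0) * h 1 - star (h 1) * h 0) := by
  apply Complex.ext
  · simp [bl]
  · simp [bl]; ring

/-- the basis adapted to orthonormal `p, q` -/
theorem frame (p q : Fin 3 → ℝ) (hpp : p 0 ^ 2 + p 1 ^ 2 + p 2 ^ 2 = 1)
    (hqq : q 0 ^ 2 + q 1 ^ 2 + q 2 ^ 2 = 1)
    (hpq : p 0 * q 0 + p 1 * q 1 + p 2 * q 2 = 0) :
    ∃ x y : Fin 2 → ℂ, dotc x x = 1 ∧ dotc y y = 1 ∧ dotc x y = 0 ∧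
      ∀ h : Fin 2 → ℂ,
        2 * (star (dotc x h) * dotc y h).re = p 0 * bl h 0 + p 1 * bl h 1 + p 2 * bl h 2 ∧
        ‖dotc x h‖ ^ 2 - ‖dotc y h‖ ^ 2 = q 0 * bl h 0 + q 1 * bl h 1 + q 2 * bl h 2 ∧
        2 * (star (dotc x h) * dotc y h).im =
          (p 1 * q 2 - p 2 * q 1) * bl h 0 + (p 2 * q 0 - p 0 * q 2) * bl h 1
            + (p 0 * q 1 - p 1 * q 0) * bl h 2 := by
  obtain ⟨x0, x1, hA, hB, hC, hD⟩ := exx (q 0) (q 1) (q 2) hqq
  obtain ⟨e1, e2, e3, e4, e5⟩ := algx (p 0) (p 1) (p 2) (q 0) (q 1) (q 2) hpp hpq x0 x1 hA hB hC hD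
  refine ⟨![x0, x1], ![p 1 * x0 + (p 0 - I * p 2) * x1, (p 0 + I * p 2) * x0 - p 1 * x1],
    ?_, ?_, ?_, ?_⟩
  · simp only [dotc, Fin.sum_univ_two, Matrix.cons_val_zero, Matrix.cons_val_one]
    linear_combination hA + hB
  · simp only [dotc, Fin.sum_univ_two, Matrix.cons_val_zero, Matrix.cons_val_one]
    linear_combination e1 + e2
  · simp only [dotc, Fin.sum_univ_two, Matrix.cons_val_zero, Matrix.cons_val_one]
    exact e5
  · intro h
    have hz := algz (p 0) (p 1) (p 2) (q 0) (q 1) (q 2) hpq x0 x1 hA hB hC hD (h 0) (h 1)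
    have hz2 : star (dotc ![x0, x1] h) *
        dotc ![p 1 * x0 + (p 0 - I * p 2) * x1, (p 0 + I * p 2) * x0 - p 1 * x1] h =
        (((p 0 * bl h 0 + p 1 * bl h 1 + p 2 * bl h 2) : ℝ) +
          I * (((p 1 * q 2 - p 2 * q 1) * bl h 0 + (p 2 * q 0 - p 0 * q 2) * bl h 1
            + (p 0 * q 1 - p 1 * q 0) * bl h 2 : ℝ))) / 2 := by
      push_cast
      rw [bl0, bl1, bl2, ← hz]
      simp only [dotc, Fin.sum_univ_two, Matrix.cons_val_zero, Matrix.cons_val_one, star_add,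
        star_mul', star_star]
    have hx2 : ((‖dotc ![x0, x1] h‖ ^ 2 : ℝ) : ℂ) =
        (star (h 0) * h 0 + star (h 1) * h 1 +
          ((q 0 * bl h 0 + q 1 * bl h 1 + q 2 * bl h 2 : ℝ) : ℂ)) / 2 := by
      rw [← Complex.normSq_eq_norm_sq, Complex.normSq_eq_conj_mul_self]
      push_cast
      rw [bl0, bl1, bl2]
      simp only [dotc, Fin.sum_univ_two, Matrix.cons_val_zero, Matrix.cons_val_one, star_def, map_add,
        map_mul, conj_conj] at *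
      linear_combination ((starRingEnd ℂ) (h 0) * h 0) * hA + ((starRingEnd ℂ) (h 1) * h 1) * hB +
        ((starRingEnd ℂ) (h 0) * h 1) * hC + ((starRingEnd ℂ) (h 1) * h 0) * hD
    have hy2 : ((‖dotc ![p 1 * x0 + (p 0 - I * p 2) * x1, (p 0 + I * p 2) * x0 - p 1 * x1] h‖ ^ 2 : ℝ) : ℂ) =
        (star (h 0) * h 0 + star (h 1) * h 1 -
          ((q 0 * bl h 0 + q 1 * bl h 1 + q 2 * bl h 2 : ℝ) : ℂ)) / 2 := by
      generalize p 1 * x0 + (p 0 - I * p 2) * x1 = y0 at *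
      generalize (p 0 + I * p 2) * x0 - p 1 * x1 = y1 at *
      rw [← Complex.normSq_eq_norm_sq, Complex.normSq_eq_conj_mul_self]
      push_cast
      rw [bl0, bl1, bl2]
      simp only [dotc, Fin.sum_univ_two, Matrix.cons_val_zero, Matrix.cons_val_one, star_def, map_add,
        map_mul, conj_conj] at *
      linear_combination ((starRingEnd ℂ) (h 0) * h 0) * e1 + ((starRingEnd ℂ) (h 1) * h 1) * e2 +
        ((starRingEnd ℂ) (h 0) * h 1) * e3 + ((starRingEnd ℂ) (h 1) * h 0) * e4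
    refine ⟨?_, ?_, ?_⟩
    · rw [hz2]; simp; ring
    · have h3 : (((‖dotc ![x0, x1] h‖ ^ 2 -
          ‖dotc ![p 1 * x0 + (p 0 - I * p 2) * x1, (p 0 + I * p 2) * x0 - p 1 * x1] h‖ ^ 2 : ℝ)) : ℂ)
          = ((q 0 * bl h 0 + q 1 * bl h 1 + q 2 * bl h 2 : ℝ) : ℂ) := by
        rw [Complex.ofReal_sub, hx2, hy2]; ring
      exact_mod_cast h3
    · rw [hz2]; simp; ring


theorem cross_eq (F : Fin 3 → Fin 3 → ℝ)
    (hF : ∀ i j, ∑ l, F i l * F j l = if i = j then 1 else 0) :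
    ∃ c : ℝ, c ^ 2 = 1 ∧ (F 0 1 * F 1 2 - F 0 2 * F 1 1 = c * F 2 0) ∧
      (F 0 2 * F 1 0 - F 0 0 * F 1 2 = c * F 2 1) ∧ (F 0 0 * F 1 1 - F 0 1 * F 1 0 = c * F 2 2) := by
  have hG : (Matrix.of F) * (Matrix.of F)ᵀ = 1 := by
    ext i j
    rw [Matrix.mul_apply, Matrix.one_apply, ← hF i j]
    rfl
  have hG' := mul_eq_one_comm.mp hG
  have hc : ∀ j l, ∑ i, F i j * F i l = if j = l then 1 else 0 := by
    intro j l
    have := congrFun (congrFun hG' j) l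
    rw [Matrix.mul_apply, Matrix.one_apply] at this
    exact this
  set g0 := F 0 1 * F 1 2 - F 0 2 * F 1 1 with hg0
  set g1 := F 0 2 * F 1 0 - F 0 0 * F 1 2 with hg1
  set g2 := F 0 0 * F 1 1 - F 0 1 * F 1 0 with hg2
  have c00 := hc 0 0
  have c01 := hc 0 1
  have c02 := hc 0 2
  have c11 := hc 1 1
  have c12 := hc 1 2
  have c22 := hc 2 2
  have f00 := hF 0 0
  have f01 := hF 0 1
  have f11 := hF 1 1
  have f22 := hF 2 2
  simp [Fin.sum_univ_three] at c00 c01 c02 c11 c12 c22 f00 f01 f11 f22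
  have e0 : F 0 0 * g0 + F 0 1 * g1 + F 0 2 * g2 = 0 := by rw [hg0, hg1, hg2]; ring
  have e1 : F 1 0 * g0 + F 1 1 * g1 + F 1 2 * g2 = 0 := by rw [hg0, hg1, hg2]; ring
  have k0 : g0 = (F 2 0 * g0 + F 2 1 * g1 + F 2 2 * g2) * F 2 0 := by
    linear_combination (-g0) * c00 - g1 * c01 - g2 * c02 + F 0 0 * e0 + F 1 0 * e1
  have k1 : g1 = (F 2 0 * g0 + F 2 1 * g1 + F 2 2 * g2) * F 2 1 := by
    linear_combination (-g0) * c01 - g1 * c11 - g2 * c12 + F 0 1 * e0 + F 1 1 * e1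
  have k2 : g2 = (F 2 0 * g0 + F 2 1 * g1 + F 2 2 * g2) * F 2 2 := by
    linear_combination (-g0) * c02 - g1 * c12 - g2 * c22 + F 0 2 * e0 + F 1 2 * e1
  have hgg : g0 ^ 2 + g1 ^ 2 + g2 ^ 2 = 1 := by
    rw [hg0, hg1, hg2]
    linear_combination (F 1 0 * F 1 0 + F 1 1 * F 1 1 + F 1 2 * F 1 2) * f00 + f11 -
      (F 0 0 * F 1 0 + F 0 1 * F 1 1 + F 0 2 * F 1 2) * f01
  refine ⟨F 2 0 * g0 + F 2 1 * g1 + F 2 2 * g2, ?_, k0, k1, k2⟩
  have hh : (F 2 0 * g0 + F 2 1 * g1 + F 2 2 * g2) ^ 2 = g0 ^ 2 + g1 ^ 2 + g2 ^ 2 := by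
    generalize F 2 0 * g0 + F 2 1 * g1 + F 2 2 * g2 = d at k0 k1 k2
    rw [k0, k1, k2]
    linear_combination (-(d ^ 2)) * f22
  rw [hh, hgg]

theorem diag_basis {ι : Type*} [Fintype ι] (lam : ι → ℝ) (h : ι → Fin 2 → ℂ) :
    ∃ x y : Fin 2 → ℂ, dotc x x = 1 ∧ dotc y y = 1 ∧ dotc x y = 0 ∧
      ∃ N : ι → Fin 3 → ℝ,
        (∀ k, N k 0 = 2 * (star (dotc x (h k)) * dotc y (h k)).re) ∧
        (∀ k, N k 1 = ‖dotc x (h k)‖ ^ 2 - ‖dotc y (h k)‖ ^ 2) ∧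
        (∀ k, N k 2 = 2 * (star (dotc x (h k)) * dotc y (h k)).im) ∧
        (∀ i j, i ≠ j → ∑ k, lam k * (N k i * N k j) = 0) ∧
        (∀ i, ∑ k, lam k * N k i ^ 2 ≤ ∑ k, lam k * N k 2 ^ 2) := by
  obtain ⟨F, μ, hF, hE, hμ⟩ := eig3
    (Matrix.of fun i j => ∑ k, lam k * (bl (h k) i * bl (h k) j)) (by
      ext i j
      simp [Matrix.conjTranspose_apply, mul_comm])
  obtain ⟨c, hc2, hg0, hg1, hg2⟩ := cross_eq F hF
  have f00 := hF 0 0
  have f01 := hF 0 1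
  have f11 := hF 1 1
  simp [Fin.sum_univ_three] at f00 f01 f11
  obtain ⟨x, y, hxx, hyy, hxy, hall⟩ := frame (F 0) (F 1) (by linarith) (by linarith) f01
  -- the quadratic form in the eigenbasis
  have hM : ∀ i j, ∑ k, lam k * ((∑ l, F i l * bl (h k) l) * (∑ l, F j l * bl (h k) l)) =
      if i = j then μ i else 0 := by
    intro i j
    have h1 : ∑ k, lam k * ((∑ l, F i l * bl (h k) l) * (∑ l, F j l * bl (h k) l)) =
        ∑ m, (∑ l, (∑ k, lam k * (bl (h k) m * bl (h k) l)) * F i l) * F j m := by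
      simp only [Fin.sum_univ_three, Finset.sum_mul, ← Finset.sum_add_distrib]
      exact Finset.sum_congr rfl fun k _ => by ring
    rw [h1]
    have h2 : ∀ m, ∑ l, (∑ k, lam k * (bl (h k) m * bl (h k) l)) * F i l = μ i * F i m := by
      intro m
      exact hE i m
    simp only [h2]
    have h3 : ∑ m, μ i * F i m * F j m = μ i * ∑ m, F i m * F j m := by
      rw [Finset.mul_sum]; exact Finset.sum_congr rfl fun m _ => by ring
    rw [h3, hF i j]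
    split_ifs <;> simp
  set sg : Fin 3 → ℝ := ![1, 1, c] with hsg
  have hsg2 : ∀ i, sg i ^ 2 = 1 := by
    intro i; fin_cases i <;> simp [hsg, hc2]
  refine ⟨x, y, hxx, hyy, hxy, fun k i => sg i * ∑ l, F i l * bl (h k) l, ?_, ?_, ?_, ?_, ?_⟩
  · intro k
    rw [(hall (h k)).1]
    simp [hsg, Fin.sum_univ_three]
  · intro k
    rw [(hall (h k)).2.1]
    simp [hsg, Fin.sum_univ_three]
  · intro k
    rw [(hall (h k)).2.2, hg0, hg1, hg2]
    simp [hsg, Fin.sum_univ_three]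
    ring
  · intro i j hij
    have h1 := hM i j
    rw [if_neg hij] at h1
    calc _ = sg i * sg j * ∑ k, lam k * ((∑ l, F i l * bl (h k) l) * (∑ l, F j l * bl (h k) l)) := by
          rw [Finset.mul_sum]; exact Finset.sum_congr rfl fun k _ => by ring
      _ = 0 := by rw [h1, mul_zero]
  · intro i
    have key : ∀ i, ∑ k, lam k * (sg i * ∑ l, F i l * bl (h k) l) ^ 2 = μ i := by
      intro i
      have h1 := hM i i
      rw [if_pos rfl] at h1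
      calc _ = sg i ^ 2 * ∑ k, lam k * ((∑ l, F i l * bl (h k) l) * (∑ l, F i l * bl (h k) l)) := by
            rw [Finset.mul_sum]; exact Finset.sum_congr rfl fun k _ => by ring
        _ = _ := by rw [h1, hsg2, one_mul]
    rw [key, key]
    exact hμ i

end PartDiagBasis

end Pool.Agent.Helper150.Cb
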