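import Pool.Agent.Helper150.Cb.Core
import Pool.Agent.Helper150.Cb.Hankel

namespace Pool.Agent.Helper150.Cb
open Matrix Complex
open scoped ComplexOrder

namespace PartNTwoBloch
open PartHankel






theorem tr_nonneg {m : ℕ} {X Y : Matrix (Fin m) (Fin m) ℂ} (hX : X.PosSemidef) (hY : Y.PosSemidef) :
    0 ≤ (trace (X * Y)).re := by
  obtain ⟨B, rfl⟩ : ∃ B : Matrix (Fin m) (Fin m) ℂ, Y = Bᴴ * B := by
    open scoped MatrixOrder in
    have h0 : (0 : Matrix (Fin m) (Fin m) ℂ) ≤ Y := by exact hY.nonneg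
    obtain ⟨B, hB⟩ := CStarAlgebra.nonneg_iff_eq_star_mul_self.mp h0
    exact ⟨B, hB⟩
  have h := (hX.mul_mul_conjTranspose_same B).trace_nonneg
  rw [Matrix.mul_assoc, Matrix.trace_mul_comm] at h
  rw [Matrix.mul_assoc] at h
  exact (Complex.nonneg_iff.mp h).1

theorem comp2 {m : ℕ} {A B C D : Matrix (Fin m) (Fin m) ℂ} (h : (fromBlocks A B C D).PosSemidef) (z1 z2 : ℂ) :
    ((star z1 * z1) • A + (star z1 * z2) • B + (star z2 * z1) • C + (star z2 * z2) • D).PosSemidef := by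
  have := h.conjTranspose_mul_mul_same (fromRows (z1 • (1 : Matrix (Fin m) (Fin m) ℂ)) (z2 • (1 : Matrix (Fin m) (Fin m) ℂ)))
  rw [conjTranspose_fromRows_eq_fromCols_conjTranspose, fromCols_mul_fromBlocks, fromCols_mul_fromRows] at this
  convert this using 1
  simp only [conjTranspose_smul, conjTranspose_one, smul_mul_assoc, one_mul, mul_smul_comm, mul_one, smul_add, smul_smul]
  rw [mul_comm z1 (star z1), mul_comm z1 (star z2), mul_comm z2 (star z1), mul_comm z2 (star z2)]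
  abel

theorem outer2 {m : ℕ} {D : Matrix (Fin m) (Fin m) ℂ} (h : D.PosSemidef) (z1 z2 : ℂ) :
    (fromBlocks ((z1 * star z1) • D) ((z1 * star z2) • D) ((z2 * star z1) • D) ((z2 * star z2) • D)).PosSemidef := by
  have := h.mul_mul_conjTranspose_same (fromRows (z1 • (1 : Matrix (Fin m) (Fin m) ℂ)) (z2 • (1 : Matrix (Fin m) (Fin m) ℂ)))
  rw [conjTranspose_fromRows_eq_fromCols_conjTranspose, fromRows_mul, fromRows_mul_fromCols] at this
  convert this using 1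
  simp only [conjTranspose_smul, conjTranspose_one, smul_mul_assoc, one_mul, mul_smul_comm, mul_one, smul_add, smul_smul]
  rw [mul_comm z1 (star z1), mul_comm z1 (star z2), mul_comm z2 (star z1), mul_comm z2 (star z2)]

theorem bloch (n1 n2 n3 : ℝ) (h : n1 ^ 2 + n2 ^ 2 + n3 ^ 2 = 1) :
    ∃ z1 z2 : ℂ, star z1 * z1 = (1 + n2) / 2 ∧ star z2 * z2 = (1 - n2) / 2 ∧
      star z2 * z1 = (n1 - I * n3) / 2 ∧ star z1 * z2 = (n1 + I * n3) / 2 := by
  by_cases hn : n2 = -1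
  · subst hn
    have h1 : n1 = 0 := by nlinarith [sq_nonneg n1, sq_nonneg n3]
    have h3 : n3 = 0 := by nlinarith [sq_nonneg n1, sq_nonneg n3]
    subst h1; subst h3
    refine ⟨0, 1, ?_, ?_, ?_, ?_⟩ <;> simp <;> norm_num
  · have hpos : 0 < 1 + n2 := by
      have : n2 ^ 2 ≤ 1 := by nlinarith [sq_nonneg n1, sq_nonneg n3]
      have h2 : -1 ≤ n2 := by nlinarith
      rcases lt_or_eq_of_le h2 with h3 | h3
      · linarith
      · exact absurd h3.symm hn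
    set t : ℝ := Real.sqrt ((1 + n2) / 2) with ht
    have ht2 : t * t = (1 + n2) / 2 := Real.mul_self_sqrt (by positivity)
    have htpos : 0 < t := Real.sqrt_pos.mpr (by positivity)
    have ht2C : (t : ℂ) * t = (1 + n2) / 2 := by
      have := congrArg (fun x : ℝ => (x : ℂ)) ht2
      push_cast at this; exact this
    have htC : (t : ℂ) ≠ 0 := by exact_mod_cast htpos.ne'
    have hC : (n1 : ℂ) ^ 2 + (n2 : ℂ) ^ 2 + (n3 : ℂ) ^ 2 = 1 := by exact_mod_cast h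
    have hst : star (t : ℂ) = t := by simp
    have hs2 : star (((n1 : ℂ) + I * n3) / (2 * t)) = ((n1 : ℂ) - I * n3) / (2 * t) := by
      simp [sub_eq_add_neg]
    refine ⟨t, ((n1 : ℂ) + I * n3) / (2 * t), ?_, ?_, ?_, ?_⟩
    · rw [hst]; exact ht2C
    · rw [hs2]
      have hne : (1 + (n2 : ℂ)) ≠ 0 := by
        have : (1 + n2 : ℝ) ≠ 0 := hpos.ne'
        exact_mod_cast this
      have h4 : (2 * (t : ℂ)) * (2 * t) = 2 * (1 + n2) := by
        linear_combination 4 * ht2C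
      rw [div_mul_div_comm, h4]
      rw [div_eq_div_iff (mul_ne_zero two_ne_zero hne) two_ne_zero]
      linear_combination 2 * hC - 2 * (n3 : ℂ) ^ 2 * I_sq
    · rw [hs2]
      field_simp
    · rw [hst]
      field_simp

theorem sumpoly {R ι : Type*} [CommRing R] [Fintype ι] (l x y z : ι → R) (p q r : R)
    (h1 : ∑ k, l k = 1) (hx : ∑ k, l k * x k = 0) (hy : ∑ k, l k * y k = 0) (hz : ∑ k, l k * z k = 0)
    (hxy : ∑ k, l k * (x k * y k) = 0) (hxz : ∑ k, l k * (x k * z k) = 0)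
    (hyz : ∑ k, l k * (y k * z k) = 0) (hp : ∑ k, l k * x k ^ 2 = p) (hq : ∑ k, l k * y k ^ 2 = q)
    (hr : ∑ k, l k * z k ^ 2 = r) (c0 c1 c2 c3 d1 d2 d3 e1 e2 e3 : R) :
    ∑ k, l k * (c0 + c1 * x k + c2 * y k + c3 * z k + d1 * x k ^ 2 + d2 * y k ^ 2 + d3 * z k ^ 2
      + e1 * (x k * y k) + e2 * (x k * z k) + e3 * (y k * z k)) = c0 + d1 * p + d2 * q + d3 * r := by
  calc ∑ k, l k * (c0 + c1 * x k + c2 * y k + c3 * z k + d1 * x k ^ 2 + d2 * y k ^ 2 + d3 * z k ^ 2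
      + e1 * (x k * y k) + e2 * (x k * z k) + e3 * (y k * z k))
      = ∑ k, (c0 * l k + c1 * (l k * x k) + c2 * (l k * y k) + c3 * (l k * z k) + d1 * (l k * x k ^ 2)
        + d2 * (l k * y k ^ 2) + d3 * (l k * z k ^ 2) + e1 * (l k * (x k * y k))
        + e2 * (l k * (x k * z k)) + e3 * (l k * (y k * z k))) :=
        Finset.sum_congr rfl (fun k _ => by ring)
    _ = c0 + d1 * p + d2 * q + d3 * r := by
        simp only [Finset.sum_add_distrib, ← Finset.mul_sum, h1, hx, hy, hz, hxy, hxz, hyz, hp, hq, hr]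
        ring

theorem blochPSD {m : ℕ} {A0 A1 A2 A3 : Matrix (Fin m) (Fin m) ℂ}
    (h : (fromBlocks (A0 + A2) (A1 - I • A3) (A1 + I • A3) (A0 - A2)).PosSemidef)
    (n1 n2 n3 : ℝ) (hn : n1 ^ 2 + n2 ^ 2 + n3 ^ 2 = 1) :
    (A0 + (n1 : ℂ) • A1 + (n2 : ℂ) • A2 + (n3 : ℂ) • A3).PosSemidef := by
  obtain ⟨z1, z2, h1, h2, h3, h4⟩ := bloch n1 n2 n3 hn
  have := comp2 h z1 z2
  rw [h1, h2, h3, h4] at this
  convert this using 1
  ext i j
  simp only [Matrix.add_apply, Matrix.smul_apply, Matrix.sub_apply, smul_eq_mul]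
  linear_combination ((n3 : ℂ) * A3 i j) * I_sq

theorem outerPSD {m : ℕ} {D : Matrix (Fin m) (Fin m) ℂ} (h : D.PosSemidef)
    (n1 n2 n3 : ℝ) (hn : n1 ^ 2 + n2 ^ 2 + n3 ^ 2 = 1) :
    (fromBlocks ((1 + n2 : ℂ) • D) ((n1 - I * n3 : ℂ) • D) ((n1 + I * n3 : ℂ) • D)
      ((1 - n2 : ℂ) • D)).PosSemidef := by
  obtain ⟨z1, z2, h1, h2, h3, h4⟩ := bloch n1 n2 n3 hn
  have h2p : (0 : ℂ) ≤ 2 := by norm_num
  have := (outer2 h z1 z2).smul h2p
  convert this using 1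
  rw [fromBlocks_smul, mul_comm z1 (star z1), mul_comm z1 (star z2), mul_comm z2 (star z1),
    mul_comm z2 (star z2), h1, h2, h3, h4]
  congr 1 <;> (rw [smul_smul]; congr 1; ring)

theorem sum_fromBlocks {m : ℕ} {ι : Type*} [Fintype ι] (A B C D : ι → Matrix (Fin m) (Fin m) ℂ) :
    ∑ k, fromBlocks (A k) (B k) (C k) (D k) =
      fromBlocks (∑ k, A k) (∑ k, B k) (∑ k, C k) (∑ k, D k) := by
  ext i j
  rcases i with i | i <;> rcases j with j | j <;> simp [Matrix.sum_apply]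


theorem cone_aux {m : ℕ} (ρ g0 g1 g2 g3 : Matrix (Fin m) (Fin m) ℂ) (s n1 n2 X Y Z : ℂ)
    (k1 : s * n1 = Z) (k2 : s * n2 = X - Y) (hs : s = X + Y) (h0 : ((0 : ℝ) : ℂ) = 0)
    (h : (s • (ρ - (g0 + n1 • g1 + n2 • g2 + ((0 : ℝ) : ℂ) • g3))).PosSemidef) :
    (X • (ρ - g0 - g2) + Y • (ρ - g0 + g2) + Z • (-g1)).PosSemidef := by
  convert h using 1
  ext i j
  simp only [Matrix.add_apply, Matrix.sub_apply, Matrix.smul_apply, smul_eq_mul, Matrix.neg_apply]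
  linear_combination (-(ρ i j) + g0 i j) * hs + g1 i j * k1 + g2 i j * k2 + s * g3 i j * h0

theorem expand1 {m : ℕ} (τ E1 E2 E3 g0 g1 g2 g3 ρ : Matrix (Fin m) (Fin m) ℂ) (a b c x y z : ℝ) :
    (trace ((1 - (τ + (a : ℂ) • E1 + (b : ℂ) • E2 + (c : ℂ) • E3)) *
      (ρ - (g0 + (x : ℂ) • g1 + (y : ℂ) • g2 + (z : ℂ) • g3)))).re =
    (trace ρ).re - (trace g0).re - x * (trace g1).re - y * (trace g2).re - z * (trace g3).re
    - ((trace (τ * ρ)).re - (trace (τ * g0)).re - x * (trace (τ * g1)).re - y * (trace (τ * g2)).re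
      - z * (trace (τ * g3)).re)
    - a * ((trace (E1 * ρ)).re - (trace (E1 * g0)).re - x * (trace (E1 * g1)).re
      - y * (trace (E1 * g2)).re - z * (trace (E1 * g3)).re)
    - b * ((trace (E2 * ρ)).re - (trace (E2 * g0)).re - x * (trace (E2 * g1)).re
      - y * (trace (E2 * g2)).re - z * (trace (E2 * g3)).re)
    - c * ((trace (E3 * ρ)).re - (trace (E3 * g0)).re - x * (trace (E3 * g1)).re
      - y * (trace (E3 * g2)).re - z * (trace (E3 * g3)).re) := by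
  simp only [Matrix.mul_add, Matrix.add_mul, Matrix.sub_mul, Matrix.mul_sub, Matrix.smul_mul,
    Matrix.mul_smul, Matrix.one_mul, trace_add, trace_sub, trace_smul, smul_eq_mul,
    Complex.add_re, Complex.sub_re, Complex.re_ofReal_mul]
  ring

theorem expand2 {m : ℕ} (τ E1 E2 E3 g0 g1 g2 g3 : Matrix (Fin m) (Fin m) ℂ) (a b c x y z : ℝ) :
    (trace ((1 - (τ + (a : ℂ) • E1 + (b : ℂ) • E2 + (c : ℂ) • E3)) *
      (g0 + (x : ℂ) • g1 + (y : ℂ) • g2 + (z : ℂ) • g3))).re =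
    (trace g0).re + x * (trace g1).re + y * (trace g2).re + z * (trace g3).re
    - ((trace (τ * g0)).re + x * (trace (τ * g1)).re + y * (trace (τ * g2)).re
      + z * (trace (τ * g3)).re)
    - a * ((trace (E1 * g0)).re + x * (trace (E1 * g1)).re
      + y * (trace (E1 * g2)).re + z * (trace (E1 * g3)).re)
    - b * ((trace (E2 * g0)).re + x * (trace (E2 * g1)).re
      + y * (trace (E2 * g2)).re + z * (trace (E2 * g3)).re)
    - c * ((trace (E3 * g0)).re + x * (trace (E3 * g1)).re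
      + y * (trace (E3 * g2)).re + z * (trace (E3 * g3)).re) := by
  simp only [Matrix.mul_add, Matrix.add_mul, Matrix.sub_mul, Matrix.mul_sub, Matrix.smul_mul,
    Matrix.mul_smul, Matrix.one_mul, trace_add, trace_sub, trace_smul, smul_eq_mul,
    Complex.add_re, Complex.sub_re, Complex.re_ofReal_mul]
  ring

theorem expand3 {m : ℕ} (τ E1 E2 E3 g0 g1 g2 g3 ρ : Matrix (Fin m) (Fin m) ℂ) (a b c x y z : ℝ) :
    (trace ((τ + (a : ℂ) • E1 + (b : ℂ) • E2 + (c : ℂ) • E3) *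
      (ρ - (g0 + (x : ℂ) • g1 + (y : ℂ) • g2 + (z : ℂ) • g3)))).re =
    ((trace (τ * ρ)).re - (trace (τ * g0)).re - x * (trace (τ * g1)).re - y * (trace (τ * g2)).re
      - z * (trace (τ * g3)).re)
    + a * ((trace (E1 * ρ)).re - (trace (E1 * g0)).re - x * (trace (E1 * g1)).re
      - y * (trace (E1 * g2)).re - z * (trace (E1 * g3)).re)
    + b * ((trace (E2 * ρ)).re - (trace (E2 * g0)).re - x * (trace (E2 * g1)).re
      - y * (trace (E2 * g2)).re - z * (trace (E2 * g3)).re)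
    + c * ((trace (E3 * ρ)).re - (trace (E3 * g0)).re - x * (trace (E3 * g1)).re
      - y * (trace (E3 * g2)).re - z * (trace (E3 * g3)).re) := by
  simp only [Matrix.mul_add, Matrix.add_mul, Matrix.sub_mul, Matrix.mul_sub, Matrix.smul_mul,
    Matrix.mul_smul, Matrix.one_mul, trace_add, trace_sub, trace_smul, smul_eq_mul,
    Complex.add_re, Complex.sub_re, Complex.re_ofReal_mul]
  ring

theorem n2_bloch {m : ℕ} {ι : Type*} [Fintype ι] (lam : ι → ℝ) (hlam : ∀ k, 0 ≤ lam k)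
    (hsum : ∑ k, lam k = 1) (N : ι → Fin 3 → ℝ) (hN : ∀ k, ∑ i, N k i ^ 2 = 1)
    (hN0 : ∀ i, ∑ k, lam k * N k i = 0)
    (hdiag : ∀ i j, i ≠ j → ∑ k, lam k * (N k i * N k j) = 0)
    (hmax : ∀ i, ∑ k, lam k * N k i ^ 2 ≤ ∑ k, lam k * N k 2 ^ 2)
    (τ E1 E2 E3 g0 g1 g2 g3 ρ : Matrix (Fin m) (Fin m) ℂ)
    (hτ : τ.IsHermitian) (hE1 : E1.IsHermitian) (hE2 : E2.IsHermitian) (hE3 : E3.IsHermitian)
    (hg0 : g0.IsHermitian) (hg1 : g1.IsHermitian) (hg2 : g2.IsHermitian) (hg3 : g3.IsHermitian)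
    (hρ : ρ.IsHermitian)
    (hS : (fromBlocks (τ + E2) (E1 - I • E3) (E1 + I • E3) (τ - E2)).PosSemidef)
    (hG : (fromBlocks (g0 + g2) (g1 - I • g3) (g1 + I • g3) (g0 - g2)).PosSemidef)
    (hW : ∀ n1 n2 n3 : ℝ, n1 ^ 2 + n2 ^ 2 + n3 ^ 2 = 1 →
      (ρ - (g0 + (n1 : ℂ) • g1 + (n2 : ℂ) • g2 + (n3 : ℂ) • g3)).PosSemidef)
    (hD : ∀ k, (1 - (τ + (N k 0 : ℂ) • E1 + (N k 1 : ℂ) • E2 + (N k 2 : ℂ) • E3)).PosSemidef) :
    (trace (τ * g0) + trace (E1 * g1) + trace (E2 * g2) + trace (E3 * g3)).re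
      ≤ (trace ρ).re := by
  set p0 : ℝ := ∑ k, lam k * N k 0 ^ 2 with hp0
  set p1 : ℝ := ∑ k, lam k * N k 1 ^ 2 with hp1
  set p2 : ℝ := ∑ k, lam k * N k 2 ^ 2 with hp2
  have hNk : ∀ k, N k 0 ^ 2 + N k 1 ^ 2 + N k 2 ^ 2 = 1 := by
    intro k
    have := hN k
    rw [Fin.sum_univ_three] at this
    exact this
  have hpsum : p0 + p1 + p2 = 1 := by
    rw [hp0, hp1, hp2, ← Finset.sum_add_distrib, ← Finset.sum_add_distrib, ← hsum]
    refine Finset.sum_congr rfl (fun k _ => ?_)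
    have := hNk k
    linear_combination lam k * this
  have hp0n : 0 ≤ p0 := Finset.sum_nonneg (fun k _ => mul_nonneg (hlam k) (sq_nonneg _))
  have hp1n : 0 ≤ p1 := Finset.sum_nonneg (fun k _ => mul_nonneg (hlam k) (sq_nonneg _))
  have hp2n : 0 ≤ p2 := Finset.sum_nonneg (fun k _ => mul_nonneg (hlam k) (sq_nonneg _))
  have h01 : ∑ k, lam k * (N k 0 * N k 1) = 0 := hdiag 0 1 (by decide)
  have h02 : ∑ k, lam k * (N k 0 * N k 2) = 0 := hdiag 0 2 (by decide)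
  have h12 : ∑ k, lam k * (N k 1 * N k 2) = 0 := hdiag 1 2 (by decide)
  have hSP := sumpoly lam (fun k => N k 0) (fun k => N k 1) (fun k => N k 2) p0 p1 p2 hsum
    (hN0 0) (hN0 1) (hN0 2) h01 h02 h12 rfl rfl rfl
  have hDD : 0 ≤ (trace ρ).re - (trace g0).re - (trace (τ * ρ)).re + (trace (τ * g0)).re
      - p0 * (trace (E1 * g1)).re - p1 * (trace (E2 * g2)).re - p2 * (trace (E3 * g3)).re := by
    have h1 : ∀ k, 0 ≤ (trace ((1 - (τ + (N k 0 : ℂ) • E1 + (N k 1 : ℂ) • E2 + (N k 2 : ℂ) • E3)) *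
      (ρ - (g0 + ((-N k 0 : ℝ) : ℂ) • g1 + ((-N k 1 : ℝ) : ℂ) • g2 + ((-N k 2 : ℝ) : ℂ) • g3)))).re :=
      fun k => tr_nonneg (hD k) (hW _ _ _ (by have := hNk k; linear_combination this))
    have h2 := Finset.sum_nonneg (s := Finset.univ) (fun k _ => mul_nonneg (hlam k) (h1 k))
    simp only [expand1] at h2
    rw [show ∀ q : ℝ, (0 ≤ q) = (0 ≤ q) from fun _ => rfl] at h2
    have h3 := hSP ((trace ρ).re - (trace g0).re - (trace (τ * ρ)).re + (trace (τ * g0)).re)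
      ((trace g1).re - (trace (τ * g1)).re - (trace (E1 * ρ)).re + (trace (E1 * g0)).re)
      ((trace g2).re - (trace (τ * g2)).re - (trace (E2 * ρ)).re + (trace (E2 * g0)).re)
      ((trace g3).re - (trace (τ * g3)).re - (trace (E3 * ρ)).re + (trace (E3 * g0)).re)
      (-(trace (E1 * g1)).re) (-(trace (E2 * g2)).re) (-(trace (E3 * g3)).re)
      (-(trace (E1 * g2)).re - (trace (E2 * g1)).re) (-(trace (E1 * g3)).re - (trace (E3 * g1)).re)
      (-(trace (E2 * g3)).re - (trace (E3 * g2)).re)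
    have h4 : 0 ≤ ((trace ρ).re - (trace g0).re - (trace (τ * ρ)).re + (trace (τ * g0)).re) +
        (-(trace (E1 * g1)).re) * p0 + (-(trace (E2 * g2)).re) * p1 + (-(trace (E3 * g3)).re) * p2 := by
      rw [← h3]
      refine le_of_le_of_eq h2 (Finset.sum_congr rfl (fun k _ => ?_))
      ring
    linarith
  have hCC : 0 ≤ (trace g0).re - (trace (τ * g0)).re
      - p0 * (trace (E1 * g1)).re - p1 * (trace (E2 * g2)).re - p2 * (trace (E3 * g3)).re := by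
    have h1 : ∀ k, 0 ≤ (trace ((1 - (τ + (N k 0 : ℂ) • E1 + (N k 1 : ℂ) • E2 + (N k 2 : ℂ) • E3)) *
      (g0 + (N k 0 : ℂ) • g1 + (N k 1 : ℂ) • g2 + (N k 2 : ℂ) • g3))).re :=
      fun k => tr_nonneg (hD k) (blochPSD hG _ _ _ (hNk k))
    have h2 := Finset.sum_nonneg (s := Finset.univ) (fun k _ => mul_nonneg (hlam k) (h1 k))
    simp only [expand2] at h2
    have h3 := hSP ((trace g0).re - (trace (τ * g0)).re)
      ((trace g1).re - (trace (τ * g1)).re - (trace (E1 * g0)).re)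
      ((trace g2).re - (trace (τ * g2)).re - (trace (E2 * g0)).re)
      ((trace g3).re - (trace (τ * g3)).re - (trace (E3 * g0)).re)
      (-(trace (E1 * g1)).re) (-(trace (E2 * g2)).re) (-(trace (E3 * g3)).re)
      (-(trace (E1 * g2)).re - (trace (E2 * g1)).re) (-(trace (E1 * g3)).re - (trace (E3 * g1)).re)
      (-(trace (E2 * g3)).re - (trace (E3 * g2)).re)
    have h4 : 0 ≤ ((trace g0).re - (trace (τ * g0)).re) +
        (-(trace (E1 * g1)).re) * p0 + (-(trace (E2 * g2)).re) * p1 + (-(trace (E3 * g3)).re) * p2 := by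
      rw [← h3]
      refine le_of_le_of_eq h2 (Finset.sum_congr rfl (fun k _ => ?_))
      ring
    linarith
  have hEB : ∀ n1 n2 n3 : ℝ, n1 ^ 2 + n2 ^ 2 + n3 ^ 2 = 1 →
      0 ≤ (trace ((τ + (n1 : ℂ) • E1 + (n2 : ℂ) • E2 + (n3 : ℂ) • E3) *
      (ρ - (g0 + (n1 : ℂ) • g1 + (n2 : ℂ) • g2 + (n3 : ℂ) • g3)))).re :=
    fun n1 n2 n3 hn => tr_nonneg (blochPSD hS _ _ _ hn) (hW _ _ _ hn)
  have hEB1 : 0 ≤ (trace (τ * ρ)).re - (trace (τ * g0)).re - (trace (E1 * g1)).re := by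
    have h1 := hEB 1 0 0 (by norm_num)
    have h2 := hEB (-1) 0 0 (by norm_num)
    rw [expand3] at h1 h2
    linarith
  have hEB2 : 0 ≤ (trace (τ * ρ)).re - (trace (τ * g0)).re - (trace (E2 * g2)).re := by
    have h1 := hEB 0 1 0 (by norm_num)
    have h2 := hEB 0 (-1) 0 (by norm_num)
    rw [expand3] at h1 h2
    linarith
  have hEB3 : 0 ≤ (trace (τ * ρ)).re - (trace (τ * g0)).re - (trace (E3 * g3)).re := by
    have h1 := hEB 0 0 1 (by norm_num)
    have h2 := hEB 0 0 (-1) (by norm_num)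
    rw [expand3] at h1 h2
    linarith
  simp only [Complex.add_re]
  rcases le_or_gt p2 (1 / 2) with hp | hp
  · have hq0 : 0 ≤ 1 - 2 * p0 := by have := hmax 0; linarith
    have hq1 : 0 ≤ 1 - 2 * p1 := by have := hmax 1; linarith
    have hq2 : 0 ≤ 1 - 2 * p2 := by linarith
    have k1 := mul_nonneg hq0 hEB1
    have k2 := mul_nonneg hq1 hEB2
    have k3 := mul_nonneg hq2 hEB3
    have hpe : p2 = 1 - p0 - p1 := by linarith
    rw [hpe] at hDD hCC k3
    nlinarith [k1, k2, k3, hDD, hCC]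
  · have hp2pos : 0 < p2 := by linarith
    have hp2le : p2 ≤ 1 := by linarith
    obtain ⟨a, ha⟩ : ∃ a : ℝ, a = 2 * p2 - 1 := ⟨_, rfl⟩
    obtain ⟨u', hu'⟩ : ∃ u' : ℝ, u' = (2 * p2 - 1) / p2 := ⟨_, rfl⟩
    obtain ⟨u, hu⟩ : ∃ u : ℝ, u = (1 - p2) / p2 := ⟨_, rfl⟩
    have ha0 : 0 ≤ a := by linarith
    have hu'0 : 0 ≤ u' := by rw [hu']; exact div_nonneg (by linarith) hp2pos.le
    have hu0 : 0 ≤ u := by rw [hu]; exact div_nonneg (by linarith) hp2pos.le
    have hup : u * p2 = 1 - p2 := by rw [hu]; field_simp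
    have hup' : u' * p2 = a := by rw [hu', ha]; field_simp
    have huu : u' + u = 1 := by rw [hu', hu]; field_simp; ring
    have hupC : (u' : ℂ) * p2 = a := by exact_mod_cast hup'
    have hSPC := sumpoly (fun k => (lam k : ℂ)) (fun k => (N k 0 : ℂ)) (fun k => (N k 1 : ℂ))
      (fun k => (N k 2 : ℂ)) (p0 : ℂ) (p1 : ℂ) (p2 : ℂ) (by exact_mod_cast hsum)
      (by exact_mod_cast hN0 0) (by exact_mod_cast hN0 1) (by exact_mod_cast hN0 2)
      (by exact_mod_cast h01) (by exact_mod_cast h02) (by exact_mod_cast h12)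
      (by rw [hp0]; push_cast; rfl) (by rw [hp1]; push_cast; rfl) (by rw [hp2]; push_cast; rfl)
    let t0 : Matrix (Fin m) (Fin m) ℂ := (a : ℂ) • τ + (u' : ℂ) • (1 - τ)
    let t1 : Matrix (Fin m) (Fin m) ℂ := ((a + u' * p0 : ℝ) : ℂ) • E1
    let t2 : Matrix (Fin m) (Fin m) ℂ := ((a + u' * p1 : ℝ) : ℂ) • E2
    have hblk : fromBlocks (t0 + t2) t1 t1 (t0 - t2) =
        (a : ℂ) • fromBlocks (τ + E2) (E1 - I • E3) (E1 + I • E3) (τ - E2) +
        ∑ k, ((u' * lam k : ℝ) : ℂ) • fromBlocks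
          ((1 + ((-N k 1 : ℝ) : ℂ)) • (1 - (τ + (N k 0 : ℂ) • E1 + (N k 1 : ℂ) • E2 + (N k 2 : ℂ) • E3)))
          ((((-N k 0 : ℝ) : ℂ) - I * (N k 2 : ℂ)) • (1 - (τ + (N k 0 : ℂ) • E1 + (N k 1 : ℂ) • E2 + (N k 2 : ℂ) • E3)))
          ((((-N k 0 : ℝ) : ℂ) + I * (N k 2 : ℂ)) • (1 - (τ + (N k 0 : ℂ) • E1 + (N k 1 : ℂ) • E2 + (N k 2 : ℂ) • E3)))
          ((1 - ((-N k 1 : ℝ) : ℂ)) • (1 - (τ + (N k 0 : ℂ) • E1 + (N k 1 : ℂ) • E2 + (N k 2 : ℂ) • E3))) := by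
      simp only [fromBlocks_smul, sum_fromBlocks, fromBlocks_add]
      congr 1
      · ext i j
        simp only [t0, t2, Matrix.add_apply, Matrix.sub_apply, Matrix.smul_apply, Matrix.sum_apply, smul_eq_mul]
        have h3 := hSPC ((1 : Matrix (Fin m) (Fin m) ℂ) i j - τ i j) (- E1 i j)
          (- E2 i j - ((1 : Matrix (Fin m) (Fin m) ℂ) i j - τ i j)) (- E3 i j) 0 (E2 i j) 0 (E1 i j) 0 (E3 i j)
        rw [Finset.sum_congr rfl (g := fun k => (u' : ℂ) * ((lam k : ℂ) * (((1 : Matrix (Fin m) (Fin m) ℂ) i j - τ i j)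
          + (- E1 i j) * (N k 0 : ℂ) + (- E2 i j - ((1 : Matrix (Fin m) (Fin m) ℂ) i j - τ i j)) * (N k 1 : ℂ) + (- E3 i j) * (N k 2 : ℂ)
          + 0 * (N k 0 : ℂ) ^ 2 + (E2 i j) * (N k 1 : ℂ) ^ 2 + 0 * (N k 2 : ℂ) ^ 2 + (E1 i j) * ((N k 0 : ℂ) * (N k 1 : ℂ))
          + 0 * ((N k 0 : ℂ) * (N k 2 : ℂ)) + (E3 i j) * ((N k 1 : ℂ) * (N k 2 : ℂ)))))
          (fun k _ => by push_cast; ring), ← Finset.mul_sum, h3]
        push_cast
        ring
      · ext i j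
        simp only [t1, Matrix.add_apply, Matrix.sub_apply, Matrix.smul_apply, Matrix.sum_apply, smul_eq_mul]
        have h3 := hSPC 0 (- ((1 : Matrix (Fin m) (Fin m) ℂ) i j - τ i j)) 0 (- I * ((1 : Matrix (Fin m) (Fin m) ℂ) i j - τ i j))
          (E1 i j) 0 (I * E3 i j) (E2 i j) (E3 i j + I * E1 i j) (I * E2 i j)
        rw [Finset.sum_congr rfl (g := fun k => (u' : ℂ) * ((lam k : ℂ) * (0
          + (- ((1 : Matrix (Fin m) (Fin m) ℂ) i j - τ i j)) * (N k 0 : ℂ) + 0 * (N k 1 : ℂ)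
          + (- I * ((1 : Matrix (Fin m) (Fin m) ℂ) i j - τ i j)) * (N k 2 : ℂ)
          + (E1 i j) * (N k 0 : ℂ) ^ 2 + 0 * (N k 1 : ℂ) ^ 2 + (I * E3 i j) * (N k 2 : ℂ) ^ 2
          + (E2 i j) * ((N k 0 : ℂ) * (N k 1 : ℂ))
          + (E3 i j + I * E1 i j) * ((N k 0 : ℂ) * (N k 2 : ℂ)) + (I * E2 i j) * ((N k 1 : ℂ) * (N k 2 : ℂ)))))
          (fun k _ => by push_cast; ring), ← Finset.mul_sum, h3]
        push_cast
        linear_combination (-(I * E3 i j)) * hupC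
      · ext i j
        simp only [t1, Matrix.add_apply, Matrix.sub_apply, Matrix.smul_apply, Matrix.sum_apply, smul_eq_mul]
        have h3 := hSPC 0 (- ((1 : Matrix (Fin m) (Fin m) ℂ) i j - τ i j)) 0 (I * ((1 : Matrix (Fin m) (Fin m) ℂ) i j - τ i j))
          (E1 i j) 0 (- I * E3 i j) (E2 i j) (E3 i j - I * E1 i j) (- I * E2 i j)
        rw [Finset.sum_congr rfl (g := fun k => (u' : ℂ) * ((lam k : ℂ) * (0
          + (- ((1 : Matrix (Fin m) (Fin m) ℂ) i j - τ i j)) * (N k 0 : ℂ) + 0 * (N k 1 : ℂ)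
          + (I * ((1 : Matrix (Fin m) (Fin m) ℂ) i j - τ i j)) * (N k 2 : ℂ)
          + (E1 i j) * (N k 0 : ℂ) ^ 2 + 0 * (N k 1 : ℂ) ^ 2 + (- I * E3 i j) * (N k 2 : ℂ) ^ 2
          + (E2 i j) * ((N k 0 : ℂ) * (N k 1 : ℂ))
          + (E3 i j - I * E1 i j) * ((N k 0 : ℂ) * (N k 2 : ℂ)) + (- I * E2 i j) * ((N k 1 : ℂ) * (N k 2 : ℂ)))))
          (fun k _ => by push_cast; ring), ← Finset.mul_sum, h3]
        push_cast
        linear_combination ((I * E3 i j)) * hupC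
      · ext i j
        simp only [t0, t2, Matrix.add_apply, Matrix.sub_apply, Matrix.smul_apply, Matrix.sum_apply, smul_eq_mul]
        have h3 := hSPC ((1 : Matrix (Fin m) (Fin m) ℂ) i j - τ i j) (- E1 i j)
          (- E2 i j + ((1 : Matrix (Fin m) (Fin m) ℂ) i j - τ i j)) (- E3 i j) 0 (- E2 i j) 0 (- E1 i j) 0 (- E3 i j)
        rw [Finset.sum_congr rfl (g := fun k => (u' : ℂ) * ((lam k : ℂ) * (((1 : Matrix (Fin m) (Fin m) ℂ) i j - τ i j)
          + (- E1 i j) * (N k 0 : ℂ) + (- E2 i j + ((1 : Matrix (Fin m) (Fin m) ℂ) i j - τ i j)) * (N k 1 : ℂ) + (- E3 i j) * (N k 2 : ℂ)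
          + 0 * (N k 0 : ℂ) ^ 2 + (- E2 i j) * (N k 1 : ℂ) ^ 2 + 0 * (N k 2 : ℂ) ^ 2 + (- E1 i j) * ((N k 0 : ℂ) * (N k 1 : ℂ))
          + 0 * ((N k 0 : ℂ) * (N k 2 : ℂ)) + (- E3 i j) * ((N k 1 : ℂ) * (N k 2 : ℂ)))))
          (fun k _ => by push_cast; ring), ← Finset.mul_sum, h3]
        push_cast
        ring
    have hblkPSD : (fromBlocks (t0 + t2) t1 t1 (t0 - t2)).PosSemidef := by
      rw [hblk]
      have haC : (0 : ℂ) ≤ (a : ℂ) := by exact_mod_cast ha0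
      refine (hS.smul haC).add (posSemidef_sum _ (fun k _ => ?_))
      have hkC : (0 : ℂ) ≤ ((u' * lam k : ℝ) : ℂ) := by
        exact_mod_cast mul_nonneg hu'0 (hlam k)
      exact (outerPSD (hD k) (-N k 0) (-N k 1) (N k 2) (by have := hNk k; linear_combination this)).smul hkC
    have hT := hankel_pair (t0 + t2) (t0 - t2) t1 (ρ - g0 - g2) (ρ - g0 + g2) (-g1)
      (by
        show (((a + u' * p0 : ℝ) : ℂ) • E1)ᴴ = ((a + u' * p0 : ℝ) : ℂ) • E1
        rw [conjTranspose_smul, hE1.eq]; simp)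
      ((hρ.sub hg0).sub hg2) ((hρ.sub hg0).add hg2) hg1.neg hblkPSD
      (by
        intro x y
        by_cases hxy : x ^ 2 + y ^ 2 = 0
        · have hx : x = 0 := by nlinarith [sq_nonneg x, sq_nonneg y]
          have hy : y = 0 := by nlinarith [sq_nonneg x, sq_nonneg y]
          subst hx; subst hy
          simpa using (PosSemidef.zero : (0 : Matrix (Fin m) (Fin m) ℂ).PosSemidef)
        · have hpos : 0 < x ^ 2 + y ^ 2 := lt_of_le_of_ne (by positivity) (Ne.symm hxy)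
          have hh := hW (2 * x * y / (x ^ 2 + y ^ 2)) ((x ^ 2 - y ^ 2) / (x ^ 2 + y ^ 2)) 0
            (by field_simp; ring)
          have hposC : (0 : ℂ) ≤ ((x ^ 2 + y ^ 2 : ℝ) : ℂ) := by exact_mod_cast hpos.le
          have h2 := hh.smul hposC
          have k1 : ((x ^ 2 + y ^ 2 : ℝ) : ℂ) * ((2 * x * y / (x ^ 2 + y ^ 2) : ℝ) : ℂ) =
              ((2 * x * y : ℝ) : ℂ) := by
            rw [← Complex.ofReal_mul, mul_div_cancel₀ _ hxy]
          have k2 : ((x ^ 2 + y ^ 2 : ℝ) : ℂ) * (((x ^ 2 - y ^ 2) / (x ^ 2 + y ^ 2) : ℝ) : ℂ) =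
              ((x ^ 2 - y ^ 2 : ℝ) : ℂ) := by
            rw [← Complex.ofReal_mul, mul_div_cancel₀ _ hxy]
          exact cone_aux ρ g0 g1 g2 g3 _ _ _ _ _ _ k1 (by rw [k2]; push_cast; ring) (by push_cast; ring) (by simp) h2)
    have hT2 : 0 ≤ a * ((trace (τ * ρ)).re - (trace (τ * g0)).re)
        + u' * ((trace ρ).re - (trace g0).re - (trace (τ * ρ)).re + (trace (τ * g0)).re)
        - (a + u' * p1) * (trace (E2 * g2)).re - (a + u' * p0) * (trace (E1 * g1)).re := by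
      have h5 : (trace ((t0 + t2) * (ρ - g0 - g2)) + trace ((t0 - t2) * (ρ - g0 + g2)) +
          2 * trace (t1 * (-g1))).re = 2 * (a * ((trace (τ * ρ)).re - (trace (τ * g0)).re)
        + u' * ((trace ρ).re - (trace g0).re - (trace (τ * ρ)).re + (trace (τ * g0)).re)
        - (a + u' * p1) * (trace (E2 * g2)).re - (a + u' * p0) * (trace (E1 * g1)).re) := by
        have e2 : ∀ z : ℂ, (2 * z).re = 2 * z.re := by intro z; simp
        simp only [t0, t1, t2, Matrix.mul_add, Matrix.add_mul, Matrix.sub_mul, Matrix.mul_sub,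
          Matrix.smul_mul, smul_add, smul_sub, Matrix.mul_neg, trace_neg,
          Matrix.one_mul, trace_add, trace_sub, trace_smul, smul_eq_mul,
          Complex.add_re, Complex.sub_re, Complex.neg_re, Complex.re_ofReal_mul, e2]
        ring
      rw [h5] at hT
      linarith
    have q1 := mul_nonneg (mul_nonneg (by norm_num : (0 : ℝ) ≤ 2) hp1n) hEB1
    have q2 := mul_nonneg (mul_nonneg (by norm_num : (0 : ℝ) ≤ 2) hp0n) hEB2
    have q3 := mul_nonneg hu0 hDD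
    have q4 := add_nonneg (add_nonneg (add_nonneg (add_nonneg hT2 q1) q2) q3) hCC
    rw [← sub_nonneg]
    refine le_of_le_of_eq q4 ?_
    linear_combination ((trace ρ).re - (trace g0).re - ((trace (τ * ρ)).re - (trace (τ * g0)).re)
      - (trace (E1 * g1)).re * p0 - (trace (E2 * g2)).re * p1) * huu
      + ((trace (τ * ρ)).re - (trace (τ * g0)).re - (trace (E1 * g1)).re - (trace (E2 * g2)).re) * ha
      + (2 * ((trace (τ * ρ)).re - (trace (τ * g0)).re) - 2 * (trace (E1 * g1)).re - 2 * (trace (E2 * g2)).re) * hpsum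
      - (trace (E3 * g3)).re * hup

end PartNTwoBloch

end Pool.Agent.Helper150.Cb
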