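import Pool.Agent.Helper150.Cb.Core
import Pool.Agent.Helper150.Cb.NTwoBloch
import Pool.Agent.Helper150.Cb.DiagBasis

namespace Pool.Agent.Helper150.Cb
open Matrix Complex
open scoped ComplexOrder

namespace PartCoreTwo
open PartNTwoBloch PartDiagBasis








theorem b8592_lin {n a m : ℕ} (A : Fin n → Matrix (Fin a) (Fin m) ℂ) (x y : Fin n → ℂ) (z w : ℂ) :
    lin A (fun l => z * x l + w * y l) = z • lin A x + w • lin A y := by
  unfold lin
  rw [Finset.smul_sum, Finset.smul_sum, ← Finset.sum_add_distrib]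
  apply Finset.sum_congr rfl
  intro l _
  rw [add_smul, mul_smul, mul_smul]

theorem b8592_dotc_star {n : ℕ} (x y : Fin n → ℂ) : dotc y x = star (dotc x y) := by
  unfold dotc
  rw [star_sum]
  apply Finset.sum_congr rfl
  intro l _
  rw [star_mul', star_star, mul_comm]

theorem b8592_complete (x y : Fin 2 → ℂ) (hx : dotc x x = 1) (hy : dotc y y = 1)
    (hxy : dotc x y = 0) (l l' : Fin 2) :
    x l * star (x l') + y l * star (y l') = if l = l' then 1 else 0 := by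
  have hyx : dotc y x = 0 := by rw [b8592_dotc_star x y, hxy, star_zero]
  obtain ⟨U, hU⟩ : ∃ U : Matrix (Fin 2) (Fin 2) ℂ, ∀ i l, U i l = star ((![x, y] i) l) :=
    ⟨Matrix.of fun i l => star ((![x, y] i) l), fun i l => rfl⟩
  have h1 : U * Uᴴ = 1 := by
    ext i j
    rw [Matrix.mul_apply]
    simp only [Matrix.conjTranspose_apply, hU, star_star]
    fin_cases i <;> fin_cases j
    · exact hx
    · exact hxy
    · exact hyx
    · exact hy
  have h2 : Uᴴ * U = 1 := mul_eq_one_comm.1 h1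
  have h3 := congrFun (congrFun h2 l) l'
  rw [Matrix.mul_apply] at h3
  simp only [Matrix.conjTranspose_apply, hU, star_star, Fin.sum_univ_two] at h3
  rw [Matrix.one_apply] at h3
  exact h3

theorem b8592_expand (x y : Fin 2 → ℂ) (hx : dotc x x = 1) (hy : dotc y y = 1)
    (hxy : dotc x y = 0) (h : Fin 2 → ℂ) :
    h = fun l => dotc x h * x l + dotc y h * y l := by
  funext l
  have hc := b8592_complete x y hx hy hxy
  unfold dotc
  rw [Fin.sum_univ_two, Fin.sum_univ_two]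
  have h0 := hc l 0
  have h1 := hc l 1
  fin_cases l
  · simp only [Fin.zero_eta, Fin.isValue, if_true] at h0 h1 ⊢
    rw [if_neg (by decide)] at h1
    linear_combination (-(h 0)) * h0 + (-(h 1)) * h1
  · simp only [Fin.mk_one, Fin.isValue, if_true] at h0 h1 ⊢
    rw [if_neg (by decide)] at h0
    linear_combination (-(h 0)) * h0 + (-(h 1)) * h1

theorem b8592_smul {a b m : ℕ} (z w : ℂ) (M : Matrix (Fin a) (Fin b) ℂ)
    (N : Matrix (Fin b) (Fin m) ℂ) : (z • M) * (w • N) = (z * w) • (M * N) := by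
  rw [Matrix.smul_mul, Matrix.mul_smul, smul_smul]

/-- the Pauli components -/
noncomputable def b8592_t {a m : ℕ} (P Q : Matrix (Fin a) (Fin m) ℂ) (i : Fin 4) :
    Matrix (Fin m) (Fin m) ℂ :=
  ![(1 / 2 : ℂ) • (Pᴴ * P + Qᴴ * Q), (1 / 2 : ℂ) • (Pᴴ * Q + Qᴴ * P),
    (1 / 2 : ℂ) • (Pᴴ * P - Qᴴ * Q), (I / 2 : ℂ) • (Pᴴ * Q - Qᴴ * P)] i

theorem b8592_t0 {a m : ℕ} (P Q : Matrix (Fin a) (Fin m) ℂ) :
    b8592_t P Q 0 = (1 / 2 : ℂ) • (Pᴴ * P + Qᴴ * Q) := rfl
theorem b8592_t1 {a m : ℕ} (P Q : Matrix (Fin a) (Fin m) ℂ) :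
    b8592_t P Q 1 = (1 / 2 : ℂ) • (Pᴴ * Q + Qᴴ * P) := rfl
theorem b8592_t2 {a m : ℕ} (P Q : Matrix (Fin a) (Fin m) ℂ) :
    b8592_t P Q 2 = (1 / 2 : ℂ) • (Pᴴ * P - Qᴴ * Q) := rfl
theorem b8592_t3 {a m : ℕ} (P Q : Matrix (Fin a) (Fin m) ℂ) :
    b8592_t P Q 3 = (I / 2 : ℂ) • (Pᴴ * Q - Qᴴ * P) := rfl

theorem b8592_pp {a m : ℕ} (P Q : Matrix (Fin a) (Fin m) ℂ) :
    b8592_t P Q 0 + b8592_t P Q 2 = Pᴴ * P := by
  rw [b8592_t0, b8592_t2, ← smul_add]
  have : Pᴴ * P + Qᴴ * Q + (Pᴴ * P - Qᴴ * Q) = (2 : ℂ) • (Pᴴ * P) := by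
    rw [two_smul]; abel
  rw [this, smul_smul]
  norm_num

theorem b8592_qq {a m : ℕ} (P Q : Matrix (Fin a) (Fin m) ℂ) :
    b8592_t P Q 0 - b8592_t P Q 2 = Qᴴ * Q := by
  rw [b8592_t0, b8592_t2, ← smul_sub]
  have : Pᴴ * P + Qᴴ * Q - (Pᴴ * P - Qᴴ * Q) = (2 : ℂ) • (Qᴴ * Q) := by
    rw [two_smul]; abel
  rw [this, smul_smul]
  norm_num

theorem b8592_pq {a m : ℕ} (P Q : Matrix (Fin a) (Fin m) ℂ) :
    b8592_t P Q 1 - I • b8592_t P Q 3 = Pᴴ * Q := by
  rw [b8592_t1, b8592_t3, smul_smul]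
  have h1 : I * (I / 2) = -(1 / 2 : ℂ) := by
    rw [← mul_div_assoc, I_mul_I]; ring
  rw [h1, neg_smul, sub_neg_eq_add, ← smul_add]
  have : Pᴴ * Q + Qᴴ * P + (Pᴴ * Q - Qᴴ * P) = (2 : ℂ) • (Pᴴ * Q) := by
    rw [two_smul]; abel
  rw [this, smul_smul]
  norm_num

theorem b8592_qp {a m : ℕ} (P Q : Matrix (Fin a) (Fin m) ℂ) :
    b8592_t P Q 1 + I • b8592_t P Q 3 = Qᴴ * P := by
  rw [b8592_t1, b8592_t3, smul_smul]
  have h1 : I * (I / 2) = -(1 / 2 : ℂ) := by
    rw [← mul_div_assoc, I_mul_I]; ring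
  rw [h1, neg_smul, ← sub_eq_add_neg, ← smul_sub]
  have : Pᴴ * Q + Qᴴ * P - (Pᴴ * Q - Qᴴ * P) = (2 : ℂ) • (Qᴴ * P) := by
    rw [two_smul]; abel
  rw [this, smul_smul]
  norm_num

theorem b8592_herm {a m : ℕ} (P Q : Matrix (Fin a) (Fin m) ℂ) (i : Fin 4) :
    (b8592_t P Q i).IsHermitian := by
  have h2 : star (1 / 2 : ℂ) = 1 / 2 := by
    rw [star_div₀, star_one]
    congr 1
    exact star_ofNat 2
  have h3 : star (I / 2 : ℂ) = -(I / 2) := by
    rw [star_div₀]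
    have : star (2 : ℂ) = 2 := star_ofNat 2
    rw [this]
    have h4 : star I = -I := conj_I
    rw [h4]; ring
  unfold Matrix.IsHermitian
  fin_cases i
  · show (b8592_t P Q 0)ᴴ = b8592_t P Q 0
    rw [b8592_t0, conjTranspose_smul, h2, conjTranspose_add, conjTranspose_mul,
      conjTranspose_mul, conjTranspose_conjTranspose, conjTranspose_conjTranspose]
  · show (b8592_t P Q 1)ᴴ = b8592_t P Q 1
    rw [b8592_t1, conjTranspose_smul, h2, conjTranspose_add, conjTranspose_mul,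
      conjTranspose_mul, conjTranspose_conjTranspose, conjTranspose_conjTranspose, add_comm]
  · show (b8592_t P Q 2)ᴴ = b8592_t P Q 2
    rw [b8592_t2, conjTranspose_smul, h2, conjTranspose_sub, conjTranspose_mul,
      conjTranspose_mul, conjTranspose_conjTranspose, conjTranspose_conjTranspose]
  · show (b8592_t P Q 3)ᴴ = b8592_t P Q 3
    rw [b8592_t3, conjTranspose_smul, h3, conjTranspose_sub, conjTranspose_mul,
      conjTranspose_mul, conjTranspose_conjTranspose, conjTranspose_conjTranspose, neg_smul,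
      ← smul_neg, neg_sub]

theorem b8592_blocks {a m : ℕ} (P Q : Matrix (Fin a) (Fin m) ℂ) :
    (fromBlocks (b8592_t P Q 0 + b8592_t P Q 2) (b8592_t P Q 1 - I • b8592_t P Q 3)
      (b8592_t P Q 1 + I • b8592_t P Q 3) (b8592_t P Q 0 - b8592_t P Q 2)).PosSemidef := by
  rw [b8592_pp, b8592_qq, b8592_pq, b8592_qp]
  have h := posSemidef_conjTranspose_mul_self (fromCols P Q)
  rw [conjTranspose_fromCols_eq_fromRows_conjTranspose, fromRows_mul_fromCols] at h
  exact h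

theorem b8592_quad {a m : ℕ} (P Q : Matrix (Fin a) (Fin m) ℂ) (z w : ℂ)
    (h1 : star z * z + star w * w = 1) (n0 n1 n2 : ℝ)
    (e0 : (n0 : ℂ) = star z * w + star w * z) (e1 : (n1 : ℂ) = star z * z - star w * w)
    (e2 : (n2 : ℂ) * I = star z * w - star w * z) :
    (z • P + w • Q)ᴴ * (z • P + w • Q) = b8592_t P Q 0 + (n0 : ℂ) • b8592_t P Q 1 +
      (n1 : ℂ) • b8592_t P Q 2 + (n2 : ℂ) • b8592_t P Q 3 := by
  have hL : (z • P + w • Q)ᴴ * (z • P + w • Q) = (star z * z) • (Pᴴ * P) +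
      (star z * w) • (Pᴴ * Q) + (star w * z) • (Qᴴ * P) + (star w * w) • (Qᴴ * Q) := by
    rw [conjTranspose_add, conjTranspose_smul, conjTranspose_smul, Matrix.add_mul,
      Matrix.mul_add, Matrix.mul_add, b8592_smul, b8592_smul, b8592_smul, b8592_smul]
    abel
  rw [hL, b8592_t0, b8592_t1, b8592_t2, b8592_t3, e0, e1]
  ext i j
  simp only [Matrix.add_apply, Matrix.smul_apply, Matrix.sub_apply, smul_eq_mul]
  linear_combination (((Pᴴ * P) i j + (Qᴴ * Q) i j) / 2) * h1 -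
    (((Pᴴ * Q) i j - (Qᴴ * P) i j) / 2) * e2

theorem b8592_two {a b m : ℕ} (P Q : Matrix (Fin a) (Fin m) ℂ) (R S : Matrix (Fin b) (Fin m) ℂ) :
    hs (R * Pᴴ + S * Qᴴ) = 2 * (trace (b8592_t P Q 0 * b8592_t R S 0) +
      trace (b8592_t P Q 1 * b8592_t R S 1) + trace (b8592_t P Q 2 * b8592_t R S 2) +
      trace (b8592_t P Q 3 * b8592_t R S 3)).re := by
  have h1 : trace ((R * Pᴴ + S * Qᴴ)ᴴ * (R * Pᴴ + S * Qᴴ)) =
      trace ((Pᴴ * P) * (Rᴴ * R)) + trace ((Qᴴ * P) * (Rᴴ * S)) +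
      trace ((Pᴴ * Q) * (Sᴴ * R)) + trace ((Qᴴ * Q) * (Sᴴ * S)) := by
    have c : ∀ (P Q : Matrix (Fin a) (Fin m) ℂ) (R S : Matrix (Fin b) (Fin m) ℂ),
        trace ((R * Pᴴ)ᴴ * (S * Qᴴ)) = trace ((Qᴴ * P) * (Rᴴ * S)) := by
      intro P Q R S
      rw [conjTranspose_mul, conjTranspose_conjTranspose, ← Matrix.mul_assoc, trace_mul_comm,
        Matrix.mul_assoc P, Matrix.mul_assoc Qᴴ]
    rw [conjTranspose_add, Matrix.add_mul, Matrix.mul_add, Matrix.mul_add, trace_add, trace_add,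
      trace_add, c, c, c, c]
    ring
  unfold hs
  rw [h1, ← b8592_pp P Q, ← b8592_qq P Q, ← b8592_pq P Q, ← b8592_qp P Q, ← b8592_pp R S,
    ← b8592_qq R S, ← b8592_pq R S, ← b8592_qp R S]
  simp only [add_mul, mul_add, sub_mul, mul_sub, smul_mul_assoc, mul_smul_comm, trace_add,
    trace_sub, trace_smul, smul_eq_mul]
  have h2 : ∀ X : ℂ, 2 * X.re = (2 * X).re := fun X => by simp
  rw [h2]
  congr 1
  have hI : I * I = -1 := I_mul_I
  linear_combination (-2 * trace (b8592_t P Q 3 * b8592_t R S 3)) * hI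

theorem b8592_sum {a b m : ℕ} (x y : Fin 2 → ℂ) (hx : dotc x x = 1) (hy : dotc y y = 1)
    (hxy : dotc x y = 0) (A : Fin 2 → Matrix (Fin a) (Fin m) ℂ)
    (V : Fin 2 → Matrix (Fin b) (Fin m) ℂ) :
    ∑ l, V l * (A l)ᴴ = lin V x * (lin A x)ᴴ + lin V y * (lin A y)ᴴ := by
  have hc := b8592_complete x y hx hy hxy
  have h00 := hc 0 0
  have h01 := hc 0 1
  have h10 := hc 1 0
  have h11 := hc 1 1
  rw [if_pos rfl] at h00 h11
  rw [if_neg (by decide)] at h01 h10
  unfold lin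
  simp only [Fin.sum_univ_two, conjTranspose_add, conjTranspose_smul, Matrix.add_mul,
    Matrix.mul_add, b8592_smul]
  have e : ∀ (M : Matrix (Fin b) (Fin a) ℂ) (i j : Fin 2) (c : ℂ),
      x i * star (x j) + y i * star (y j) = c →
      (x i * star (x j)) • M + (y i * star (y j)) • M = c • M := by
    intro M i j c h
    rw [← add_smul, h]
  have e00 := e (V 0 * (A 0)ᴴ) 0 0 1 h00
  have e01 := e (V 0 * (A 1)ᴴ) 0 1 0 h01
  have e10 := e (V 1 * (A 0)ᴴ) 1 0 0 h10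
  have e11 := e (V 1 * (A 1)ᴴ) 1 1 1 h11
  rw [one_smul] at e00 e11
  rw [zero_smul] at e01 e10
  have z : ((x 0 * star (x 1)) • (V 0 * (A 1)ᴴ) + (y 0 * star (y 1)) • (V 0 * (A 1)ᴴ)) +
      ((x 1 * star (x 0)) • (V 1 * (A 0)ᴴ) + (y 1 * star (y 0)) • (V 1 * (A 0)ᴴ)) = 0 := by
    rw [e01, e10, add_zero]
  have key : V 0 * (A 0)ᴴ + V 1 * (A 1)ᴴ =
      ((x 0 * star (x 0)) • (V 0 * (A 0)ᴴ) + (y 0 * star (y 0)) • (V 0 * (A 0)ᴴ)) +
      ((x 1 * star (x 1)) • (V 1 * (A 1)ᴴ) + (y 1 * star (y 1)) • (V 1 * (A 1)ᴴ)) +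
      (((x 0 * star (x 1)) • (V 0 * (A 1)ᴴ) + (y 0 * star (y 1)) • (V 0 * (A 1)ᴴ)) +
      ((x 1 * star (x 0)) • (V 1 * (A 0)ᴴ) + (y 1 * star (y 0)) • (V 1 * (A 0)ᴴ))) := by
    rw [z, e00, e11, add_zero]
  rw [key]
  abel

theorem b8592_parseval (x y : Fin 2 → ℂ) (hx : dotc x x = 1) (hy : dotc y y = 1)
    (hxy : dotc x y = 0) (z w : ℂ) :
    dotc (fun l => z * x l + w * y l) (fun l => z * x l + w * y l) =
      star z * z + star w * w := by
  have hyx : dotc y x = 0 := by rw [b8592_dotc_star x y, hxy, star_zero]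
  unfold dotc at *
  rw [Fin.sum_univ_two] at *
  simp only [star_add, star_mul'] at *
  linear_combination (star z * z) * hx + (star w * w) * hy + (star z * w) * hxy +
    (star w * z) * hyx

theorem b8592_frame {ι : Type*} [Fintype ι] (lam : ι → ℝ) (h : ι → Fin 2 → ℂ)
    (hframe : ∀ i j, (2 : ℂ) * ∑ k, (lam k : ℂ) * (h k i * star (h k j)) = if i = j then 1 else 0)
    (u v : Fin 2 → ℂ) :
    ∑ k, (lam k : ℂ) * (star (dotc u (h k)) * dotc v (h k)) = (1 / 2) * dotc v u := by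
  have h1 : ∀ k, (lam k : ℂ) * (star (dotc u (h k)) * dotc v (h k)) =
      (star (v 0) * u 0) * ((lam k : ℂ) * (h k 0 * star (h k 0))) +
      (star (v 0) * u 1) * ((lam k : ℂ) * (h k 0 * star (h k 1))) +
      (star (v 1) * u 0) * ((lam k : ℂ) * (h k 1 * star (h k 0))) +
      (star (v 1) * u 1) * ((lam k : ℂ) * (h k 1 * star (h k 1))) := by
    intro k
    unfold dotc
    rw [Fin.sum_univ_two, Fin.sum_univ_two, star_add, star_mul', star_mul', star_star, star_star]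
    ring
  rw [Finset.sum_congr rfl (fun k _ => h1 k), Finset.sum_add_distrib, Finset.sum_add_distrib,
    Finset.sum_add_distrib, ← Finset.mul_sum, ← Finset.mul_sum, ← Finset.mul_sum,
    ← Finset.mul_sum]
  have h00 := hframe 0 0
  have h01 := hframe 0 1
  have h10 := hframe 1 0
  have h11 := hframe 1 1
  rw [if_pos rfl] at h00 h11
  rw [if_neg (by decide)] at h01 h10
  unfold dotc
  rw [Fin.sum_univ_two]
  linear_combination (star (v 0) * u 0 / 2) * h00 + (star (v 0) * u 1 / 2) * h01 +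
    (star (v 1) * u 0 / 2) * h10 + (star (v 1) * u 1 / 2) * h11

theorem b8592_bloch (n1 n2 n3 : ℝ) (hn : n1 ^ 2 + n2 ^ 2 + n3 ^ 2 = 1) :
    ∃ z w : ℂ, star z * z + star w * w = 1 ∧ (n1 : ℂ) = star z * w + star w * z ∧
      (n2 : ℂ) = star z * z - star w * w ∧ (n3 : ℂ) * I = star z * w - star w * z := by
  by_cases h : n2 = -1
  · have h1 : n1 = 0 := by
      have : n1 ^ 2 = 0 := by rw [h] at hn; nlinarith [sq_nonneg n1, sq_nonneg n3]
      exact pow_eq_zero_iff (two_ne_zero) |>.1 this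
    have h3 : n3 = 0 := by
      have : n3 ^ 2 = 0 := by rw [h] at hn; nlinarith [sq_nonneg n1, sq_nonneg n3]
      exact pow_eq_zero_iff (two_ne_zero) |>.1 this
    refine ⟨0, 1, ?_, ?_, ?_, ?_⟩ <;> simp [h, h1, h3]
  · have hpos : 0 < 1 + n2 := by
      have h1 : -1 ≤ n2 := by nlinarith [sq_nonneg n1, sq_nonneg n3]
      have h2 : -1 < n2 := lt_of_le_of_ne h1 (Ne.symm h)
      linarith
    obtain ⟨r, hr⟩ : ∃ r : ℝ, r = Real.sqrt ((1 + n2) / 2) := ⟨_, rfl⟩
    have hr0 : 0 < r := by rw [hr]; exact Real.sqrt_pos.2 (by linarith)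
    have hr2 : r ^ 2 = (1 + n2) / 2 := by rw [hr]; exact Real.sq_sqrt (by linarith)
    have hrc : (r : ℂ) ≠ 0 := by exact_mod_cast hr0.ne'
    have hr2c : (r : ℂ) ^ 2 = (1 + n2) / 2 := by
      have : ((r ^ 2 : ℝ) : ℂ) = (((1 + n2) / 2 : ℝ) : ℂ) := by rw [hr2]
      push_cast at this
      exact this
    have hnc : (n1 : ℂ) ^ 2 + (n2 : ℂ) ^ 2 + (n3 : ℂ) ^ 2 = 1 := by exact_mod_cast hn
    obtain ⟨w, hw⟩ : ∃ w : ℂ, w = (n1 + n3 * I) / (2 * r) := ⟨_, rfl⟩
    have hsr : star (r : ℂ) = r := conj_ofReal r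
    have hsw : star w = (n1 - n3 * I) / (2 * r) := by
      have e1 : star (n1 : ℂ) = n1 := conj_ofReal n1
      have e2 : star (n3 : ℂ) = n3 := conj_ofReal n3
      have e3 : star I = -I := conj_I
      have e4 : star (2 : ℂ) = 2 := star_ofNat 2
      rw [hw, star_div₀, star_add, star_mul', star_mul', e1, e2, e3, e4, hsr]
      ring
    have hrw : (r : ℂ) * w = (n1 + n3 * I) / 2 := by rw [hw]; field_simp
    have hwr : star w * (r : ℂ) = (n1 - n3 * I) / 2 := by rw [hsw]; field_simp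
    have hww : star w * w = (1 - n2) / 2 := by
      have h1 : (star w * r) * (r * w) = ((n1 : ℂ) ^ 2 + (n3 : ℂ) ^ 2) / 4 := by
        rw [hrw, hwr]
        have hI : I * I = -1 := I_mul_I
        linear_combination (-(n3 : ℂ) ^ 2 / 4) * hI
      have h2 : (star w * w - (1 - n2) / 2) * (r : ℂ) ^ 2 = 0 := by
        have h3 : (star w * r) * (r * w) = star w * w * (r : ℂ) ^ 2 := by ring
        rw [h3] at h1
        rw [sub_mul, h1, hr2c]
        linear_combination (1 / 4) * hnc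
      rcases mul_eq_zero.1 h2 with h4 | h4
      · exact sub_eq_zero.1 h4
      · exact absurd h4 (pow_ne_zero 2 hrc)
    refine ⟨(r : ℂ), w, ?_, ?_, ?_, ?_⟩
    · rw [hww, hsr]
      linear_combination hr2c
    · rw [hsr, hrw, hwr]; ring
    · rw [hww, hsr]
      linear_combination -hr2c
    · rw [hsr, hrw, hwr]; ring



theorem matrix_core_two {a b m : ℕ} {ι : Type*} [Fintype ι]
    (lam : ι → ℝ) (h : ι → Fin 2 → ℂ) (hlam : ∀ k, 0 ≤ lam k)
    (hunit : ∀ k, dotc (h k) (h k) = 1)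
    (hframe : ∀ i j, (2 : ℂ) * ∑ k, (lam k : ℂ) * (h k i * star (h k j)) = if i = j then 1 else 0)
    (A : Fin 2 → Matrix (Fin a) (Fin m) ℂ) (V : Fin 2 → Matrix (Fin b) (Fin m) ℂ)
    (ρ : Matrix (Fin m) (Fin m) ℂ)
    (hV : ∀ x : Fin 2 → ℂ, (dotc x x • ρ - (lin V x)ᴴ * lin V x).PosSemidef)
    (hA : ∀ k, (1 - (lin A (h k))ᴴ * lin A (h k)).PosSemidef) :
    hs (∑ l, V l * (A l)ᴴ) ≤ 2 * (trace ρ).re := by
  obtain ⟨x, y, hx, hy, hxy, N, hN0, hN1, hN2, hdiag, hmax⟩ := diag_basis lam h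
  have hyx : dotc y x = 0 := by rw [b8592_dotc_star x y, hxy, star_zero]
  have hexp : ∀ k, h k = fun l => dotc x (h k) * x l + dotc y (h k) * y l :=
    fun k => b8592_expand x y hx hy hxy (h k)
  have hunit' : ∀ k, star (dotc x (h k)) * dotc x (h k) + star (dotc y (h k)) * dotc y (h k)
      = 1 := by
    intro k
    rw [← b8592_parseval x y hx hy hxy, ← hexp k]
    exact hunit k
  have hn : ∀ z : ℂ, ((‖z‖ ^ 2 : ℝ) : ℂ) = star z * z := by
    intro z
    have := Complex.conj_mul' z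
    rw [Complex.ofReal_pow]
    exact this.symm
  have hre : ∀ c : ℂ, ((2 * c.re : ℝ) : ℂ) = c + star c := by
    intro c
    apply Complex.ext
    · simp; ring
    · simp
  have him : ∀ c : ℂ, ((2 * c.im : ℝ) : ℂ) * I = c - star c := by
    intro c
    apply Complex.ext
    · simp
    · simp; ring
  have hstar : ∀ k, star (star (dotc x (h k)) * dotc y (h k)) =
      star (dotc y (h k)) * dotc x (h k) := by
    intro k
    rw [star_mul', star_star, mul_comm]
  have eN0 : ∀ k, ((N k 0 : ℝ) : ℂ) = star (dotc x (h k)) * dotc y (h k) +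
      star (dotc y (h k)) * dotc x (h k) := by
    intro k
    rw [hN0, hre, hstar]
  have eN1 : ∀ k, ((N k 1 : ℝ) : ℂ) = star (dotc x (h k)) * dotc x (h k) -
      star (dotc y (h k)) * dotc y (h k) := by
    intro k
    rw [hN1, Complex.ofReal_sub, hn, hn]
  have eN2 : ∀ k, ((N k 2 : ℝ) : ℂ) * I = star (dotc x (h k)) * dotc y (h k) -
      star (dotc y (h k)) * dotc x (h k) := by
    intro k
    rw [hN2, him, hstar]
  have hfr := b8592_frame lam h hframe
  have fxx := hfr x x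
  have fyy := hfr y y
  have fxy := hfr x y
  have fyx := hfr y x
  rw [hx] at fxx
  rw [hy] at fyy
  rw [hyx] at fxy
  rw [hxy] at fyx
  -- total mass
  have hsum : ∑ k, lam k = 1 := by
    have h1 : ((∑ k, lam k : ℝ) : ℂ) = 1 := by
      rw [Complex.ofReal_sum]
      have h2 : ∀ k, (lam k : ℂ) = (lam k : ℂ) * (star (dotc x (h k)) * dotc x (h k)) +
          (lam k : ℂ) * (star (dotc y (h k)) * dotc y (h k)) := by
        intro k
        rw [← mul_add, hunit' k, mul_one]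
      rw [Finset.sum_congr rfl (fun k _ => h2 k), Finset.sum_add_distrib, fxx, fyy]
      norm_num
    exact_mod_cast h1
  have hNsq : ∀ k, ∑ i, N k i ^ 2 = 1 := by
    intro k
    have h1 : ((∑ i, N k i ^ 2 : ℝ) : ℂ) = 1 := by
      rw [Fin.sum_univ_three]
      push_cast
      have h2 : ((N k 2 : ℝ) : ℂ) ^ 2 = -(((N k 2 : ℝ) : ℂ) * I) ^ 2 := by
        rw [mul_pow, I_sq]; ring
      rw [h2, eN0, eN1, eN2]
      have h3 := hunit' k
      have h4 : (star (dotc x (h k)) * dotc x (h k) + star (dotc y (h k)) * dotc y (h k)) ^ 2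
          = 1 := by rw [h3, one_pow]
      rw [← h4]
      ring
    exact_mod_cast h1
  have hNmean : ∀ i, ∑ k, lam k * N k i = 0 := by
    intro i
    fin_cases i
    · have h1 : ((∑ k, lam k * N k 0 : ℝ) : ℂ) = 0 := by
        rw [Complex.ofReal_sum]
        have h2 : ∀ k, ((lam k * N k 0 : ℝ) : ℂ) =
            (lam k : ℂ) * (star (dotc x (h k)) * dotc y (h k)) +
            (lam k : ℂ) * (star (dotc y (h k)) * dotc x (h k)) := by
          intro k
          rw [Complex.ofReal_mul, eN0, mul_add]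
        rw [Finset.sum_congr rfl (fun k _ => h2 k), Finset.sum_add_distrib, fxy, fyx]
        ring
      exact_mod_cast h1
    · have h1 : ((∑ k, lam k * N k 1 : ℝ) : ℂ) = 0 := by
        rw [Complex.ofReal_sum]
        have h2 : ∀ k, ((lam k * N k 1 : ℝ) : ℂ) =
            (lam k : ℂ) * (star (dotc x (h k)) * dotc x (h k)) -
            (lam k : ℂ) * (star (dotc y (h k)) * dotc y (h k)) := by
          intro k
          rw [Complex.ofReal_mul, eN1, mul_sub]
        rw [Finset.sum_congr rfl (fun k _ => h2 k), Finset.sum_sub_distrib, fxx, fyy]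
        ring
      exact_mod_cast h1
    · have h1 : ((∑ k, lam k * N k 2 : ℝ) : ℂ) * I = 0 := by
        rw [Complex.ofReal_sum, Finset.sum_mul]
        have h2 : ∀ k, ((lam k * N k 2 : ℝ) : ℂ) * I =
            (lam k : ℂ) * (star (dotc x (h k)) * dotc y (h k)) -
            (lam k : ℂ) * (star (dotc y (h k)) * dotc x (h k)) := by
          intro k
          rw [Complex.ofReal_mul, mul_assoc, eN2, mul_sub]
        rw [Finset.sum_congr rfl (fun k _ => h2 k), Finset.sum_sub_distrib, fxy, fyx]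
        ring
      rcases mul_eq_zero.1 h1 with h2 | h2
      · exact_mod_cast h2
      · exact absurd h2 I_ne_zero
  have hρ : ρ.IsHermitian := by
    have h1 := (hV x).1
    rw [hx, one_smul] at h1
    have h2 : ρ = (ρ - (lin V x)ᴴ * lin V x) + (lin V x)ᴴ * lin V x := by abel
    rw [h2]
    exact h1.add (isHermitian_conjTranspose_mul_self _)
  rw [b8592_sum x y hx hy hxy A V, b8592_two]
  refine mul_le_mul_of_nonneg_left ?_ (by norm_num)
  refine n2_bloch lam hlam hsum N hNsq hNmean hdiag hmax _ _ _ _ _ _ _ _ ρ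
    (b8592_herm _ _ 0) (b8592_herm _ _ 1) (b8592_herm _ _ 2) (b8592_herm _ _ 3)
    (b8592_herm _ _ 0) (b8592_herm _ _ 1) (b8592_herm _ _ 2) (b8592_herm _ _ 3) hρ
    (b8592_blocks _ _) (b8592_blocks _ _) ?_ ?_
  · intro n1 n2 n3 hnn
    obtain ⟨z, w, h1, h2, h3, h4⟩ := b8592_bloch n1 n2 n3 hnn
    have h5 := hV (fun l => z * x l + w * y l)
    rw [b8592_parseval x y hx hy hxy, h1, one_smul, b8592_lin,
      b8592_quad _ _ z w h1 n1 n2 n3 h2 h3 h4] at h5
    exact h5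
  · intro k
    have h5 := hA k
    rw [hexp k, b8592_lin, b8592_quad _ _ _ _ (hunit' k) (N k 0) (N k 1) (N k 2)
      (eN0 k) (eN1 k) (eN2 k)] at h5
    exact h5

end PartCoreTwo

end Pool.Agent.Helper150.Cb
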