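import Pool.Agent.Helper150.Cb.Core
import Pool.Agent.Helper150.Cb.CoreThree
import Pool.Agent.Helper150.Cb.CoreTwo

namespace Pool.Agent.Helper150.Cb
open Matrix Complex
open scoped ComplexOrder

namespace PartOpCore
open PartCoreThree PartCoreTwo










theorem lin_apply {n a m : ℕ} (A : Fin n → Matrix (Fin a) (Fin m) ℂ) (x : Fin n → ℂ)
    (i : Fin a) (j : Fin m) : lin A x i j = ∑ l, x l * A l i j := by
  simp [lin, Matrix.sum_apply, Matrix.smul_apply]

/-- squared norm of a matrix applied to a vector as a quadratic form -/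
theorem quad_norm {b m : ℕ} (M : Matrix (Fin b) (Fin m) ℂ) (η : Fin m → ℂ) :
    star η ⬝ᵥ ((Mᴴ * M) *ᵥ η) = ((∑ i, ‖∑ r, M i r * η r‖ ^ 2 : ℝ) : ℂ) := by
  rw [← Matrix.mulVec_mulVec, Matrix.dotProduct_mulVec, ← Matrix.star_mulVec]
  simp only [dotProduct, Pi.star_apply, Matrix.mulVec]
  push_cast
  refine Finset.sum_congr rfl fun i _ => ?_
  rw [← Complex.conj_mul']
  rfl

theorem op_core {n m : ℕ} (hn : 2 ≤ n) {ι : Type*} [Fintype ι]
    (lam : ι → ℝ) (h : ι → Fin n → ℂ) (hlam : ∀ k, 0 ≤ lam k)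
    (hunit : ∀ k, dotc (h k) (h k) = 1)
    (hframe : ∀ i j, (n : ℂ) * ∑ k, (lam k : ℂ) * (h k i * star (h k j)) = if i = j then 1 else 0)
    (a : Fin n → Matrix (Fin m) (Fin m) ℂ)
    (ha : ∀ k, ∀ η : Fin m → ℂ,
      ∑ p, ‖∑ r, dotc (h k) (fun l => a l p r) * η r‖ ^ 2 ≤ ∑ r, ‖η r‖ ^ 2)
    {K L : Type*} [NormedAddCommGroup K] [InnerProductSpace ℂ K]
    [NormedAddCommGroup L] [InnerProductSpace ℂ L]
    (v : Fin n → K →ₗ[ℂ] L)
    (hv : ∀ (z : Fin n → ℂ) (ξ : K), ‖∑ l, z l • v l ξ‖ ^ 2 ≤ (∑ l, ‖z l‖ ^ 2) * ‖ξ‖ ^ 2)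
    (ξ : Fin m → K) :
    ∑ p, ‖∑ l, ∑ r, a l p r • v l (ξ r)‖ ^ 2 ≤ (n : ℝ) ^ 2 / 2 * ∑ r, ‖ξ r‖ ^ 2 := by
  classical
  set W : Submodule ℂ L := Submodule.span ℂ (Set.range fun q : Fin n × Fin m => v q.1 (ξ q.2)) with hW
  have : FiniteDimensional ℂ W := FiniteDimensional.span_of_finite ℂ (Set.finite_range _)
  have hmem : ∀ l r, v l (ξ r) ∈ W := fun l r => Submodule.subset_span ⟨(l, r), rfl⟩
  set b := Module.finrank ℂ W with hb
  let B := stdOrthonormalBasis ℂ W
  let w : Fin n → Fin m → W := fun l r => ⟨v l (ξ r), hmem l r⟩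
  let V : Fin n → Matrix (Fin b) (Fin m) ℂ := fun l => Matrix.of fun i r => B.repr (w l r) i
  let ρ : Matrix (Fin m) (Fin m) ℂ := Matrix.of fun r r' => inner ℂ (ξ r) (ξ r')
  let A : Fin n → Matrix (Fin m) (Fin m) ℂ := fun l => Matrix.of fun p r => star (a l p r)
  -- norm formula
  have hnorm : ∀ c : Fin n → Fin m → ℂ,
      ∑ i, ‖∑ l, ∑ r, c l r * V l i r‖ ^ 2 = ‖∑ l, ∑ r, c l r • v l (ξ r)‖ ^ 2 := by
    intro c
    have h1 : ‖∑ l, ∑ r, c l r • v l (ξ r)‖ = ‖(∑ l, ∑ r, c l r • w l r : W)‖ := by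
      have h0 : ((∑ l, ∑ r, c l r • w l r : W) : L) = ∑ l, ∑ r, c l r • v l (ξ r) := by
        push_cast
        rfl
      rw [← h0]
      rfl
    rw [h1, ← LinearIsometryEquiv.norm_map B.repr, EuclideanSpace.norm_sq_eq]
    refine Finset.sum_congr rfl fun i _ => ?_
    congr 2
    simp only [map_sum, map_smul]
    simp [V, w]
  have hV : ∀ x : Fin n → ℂ, (dotc x x • ρ - (lin V x)ᴴ * lin V x).PosSemidef := by
    intro x
    have hxx : dotc x x = ((∑ l, ‖x l‖ ^ 2 : ℝ) : ℂ) := by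
      simp only [dotc]
      push_cast
      refine Finset.sum_congr rfl fun l _ => ?_
      rw [← Complex.conj_mul']
      rfl
    have hρ : ρ.IsHermitian := by
      ext r r'
      simp [ρ, Matrix.conjTranspose_apply]
    refine Matrix.PosSemidef.of_dotProduct_mulVec_nonneg ?_ ?_
    · refine Matrix.IsHermitian.sub ?_ (Matrix.isHermitian_conjTranspose_mul_self _)
      rw [hxx]
      unfold Matrix.IsHermitian
      rw [Matrix.conjTranspose_smul, hρ.eq]
      congr 1
      exact Complex.conj_ofReal _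
    · intro η
      rw [Matrix.sub_mulVec, dotProduct_sub, quad_norm, Matrix.smul_mulVec, dotProduct_smul, hxx]
      have h2 : star η ⬝ᵥ (ρ *ᵥ η) = ((‖∑ r, η r • ξ r‖ ^ 2 : ℝ) : ℂ) := by
        have := inner_self_eq_norm_sq_to_K (𝕜 := ℂ) (∑ r, η r • ξ r)
        push_cast
        rw [show ((‖∑ r, η r • ξ r‖ : ℂ) ^ 2) = inner ℂ (∑ r, η r • ξ r) (∑ r, η r • ξ r) from this.symm]
        rw [sum_inner]
        simp only [dotProduct, Pi.star_apply, Matrix.mulVec, inner_sum, inner_smul_left, inner_smul_right]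
        refine Finset.sum_congr rfl fun r _ => ?_
        rw [Finset.mul_sum]
        refine Finset.sum_congr rfl fun r' _ => ?_
        simp [ρ]
        ring
      have h3 : ∑ i, ‖∑ r, lin V x i r * η r‖ ^ 2 = ‖∑ l, x l • v l (∑ r, η r • ξ r)‖ ^ 2 := by
        have := hnorm (fun l r => x l * η r)
        rw [show (∑ l, x l • v l (∑ r, η r • ξ r)) = ∑ l, ∑ r, (x l * η r) • v l (ξ r) by
          refine Finset.sum_congr rfl fun l _ => ?_
          rw [map_sum, Finset.smul_sum]
          refine Finset.sum_congr rfl fun r _ => ?_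
          rw [map_smul, smul_smul]]
        rw [← this]
        refine Finset.sum_congr rfl fun i _ => ?_
        congr 2
        simp only [lin_apply, Finset.sum_mul]
        rw [Finset.sum_comm]
        refine Finset.sum_congr rfl fun l _ => Finset.sum_congr rfl fun r _ => ?_
        ring
      rw [h2, h3]
      have h4 := hv x (∑ r, η r • ξ r)
      rw [smul_eq_mul, ← Complex.ofReal_mul, ← Complex.ofReal_sub]
      rw [Complex.zero_le_real]
      linarith
  have hA : ∀ k, (1 - (lin A (h k))ᴴ * lin A (h k)).PosSemidef := by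
    intro k
    refine Matrix.PosSemidef.of_dotProduct_mulVec_nonneg ?_ ?_
    · exact Matrix.isHermitian_one.sub (Matrix.isHermitian_conjTranspose_mul_self _)
    · intro η
      rw [Matrix.sub_mulVec, dotProduct_sub, quad_norm, Matrix.one_mulVec]
      have h1 : star η ⬝ᵥ η = ((∑ r, ‖η r‖ ^ 2 : ℝ) : ℂ) := by
        simp only [dotProduct, Pi.star_apply]
        push_cast
        refine Finset.sum_congr rfl fun l _ => ?_
        rw [← Complex.conj_mul']
        rfl
      have h2 := ha k (fun r => star (η r))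
      have h3 : ∀ p, ‖∑ r, lin A (h k) p r * η r‖ = ‖∑ r, dotc (h k) (fun l => a l p r) * star (η r)‖ := by
        intro p
        rw [← norm_star]
        congr 1
        rw [star_sum]
        refine Finset.sum_congr rfl fun r _ => ?_
        rw [star_mul', lin_apply, star_sum]
        congr 1
        simp only [dotc]
        refine Finset.sum_congr rfl fun l _ => ?_
        simp [A]
      rw [h1, ← Complex.ofReal_sub, Complex.zero_le_real]
      have h4 : ∀ r, ‖star (η r)‖ = ‖η r‖ := fun r => norm_star _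
      simp only [h4] at h2
      simp only [h3]
      linarith
  have hfin : ∑ p, ‖∑ l, ∑ r, a l p r • v l (ξ r)‖ ^ 2 = hs (∑ l, V l * (A l)ᴴ) := by
    have h1 : ∀ p, ‖∑ l, ∑ r, a l p r • v l (ξ r)‖ ^ 2 = ∑ i, ‖∑ l, ∑ r, a l p r * V l i r‖ ^ 2 :=
      fun p => (hnorm (fun l r => a l p r)).symm
    simp only [h1]
    simp only [hs, Matrix.trace, Matrix.diag_apply, Matrix.mul_apply, Matrix.conjTranspose_apply]
    rw [Complex.re_sum]
    refine Finset.sum_congr rfl fun p _ => ?_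
    rw [Complex.re_sum]
    refine Finset.sum_congr rfl fun i _ => ?_
    have h2 : (∑ l, V l * (A l)ᴴ) i p = ∑ l, ∑ r, a l p r * V l i r := by
      rw [Matrix.sum_apply]
      refine Finset.sum_congr rfl fun l _ => ?_
      rw [Matrix.mul_apply]
      refine Finset.sum_congr rfl fun r _ => ?_
      simp [A, Matrix.conjTranspose_apply]
      ring
    rw [h2]
    have h3 : star (∑ l, ∑ r, a l p r * V l i r) * (∑ l, ∑ r, a l p r * V l i r)
      = ((‖∑ l, ∑ r, a l p r * V l i r‖ ^ 2 : ℝ) : ℂ) := by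
      push_cast
      rw [← Complex.conj_mul']
      rfl
    rw [h3, Complex.ofReal_re]
  have htr : (trace ρ).re = ∑ r, ‖ξ r‖ ^ 2 := by
    simp only [Matrix.trace, Matrix.diag_apply, Complex.re_sum, ρ, Matrix.of_apply]
    refine Finset.sum_congr rfl fun r _ => ?_
    exact inner_self_eq_norm_sq (𝕜 := ℂ) (ξ r)
  rw [hfin, ← htr]
  rcases Nat.lt_or_ge 2 n with h3 | h3
  · exact matrix_core_ge3 h3 lam h hlam hunit hframe A V ρ hV hA
  · have hn2 : n = 2 := le_antisymm h3 hn
    subst hn2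
    have := matrix_core_two lam h hlam hunit (by exact_mod_cast hframe) A V ρ hV hA
    calc _ ≤ 2 * (trace ρ).re := this
      _ = _ := by norm_num

end PartOpCore

end Pool.Agent.Helper150.Cb
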