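import Mathlib

namespace Pool.Agent.Helper150.Cb
open Matrix Complex
open scoped ComplexOrder

/-- `∑ x_l A_l` -/
noncomputable def lin {n a m : ℕ} (A : Fin n → Matrix (Fin a) (Fin m) ℂ) (x : Fin n → ℂ) :
    Matrix (Fin a) (Fin m) ℂ := ∑ l, x l • A l

/-- `⟨x, y⟩`, conjugate linear in `x`. -/
noncomputable def dotc {n : ℕ} (x y : Fin n → ℂ) : ℂ := ∑ l, star (x l) * y l

/-- squared Hilbert-Schmidt norm -/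
noncomputable def hs {a m : ℕ} (X : Matrix (Fin a) (Fin m) ℂ) : ℝ := (trace (Xᴴ * X)).re

/-- the pair expression -/
noncomputable def pairE {a b m : ℕ} (c : ℂ) (Aj Ak : Matrix (Fin a) (Fin m) ℂ)
    (Vj Vk : Matrix (Fin b) (Fin m) ℂ) (ρ : Matrix (Fin m) (Fin m) ℂ) : ℝ :=
  2 * (1 - ‖c‖ ^ 2) * (trace ρ).re + ‖c‖ ^ 2 * (trace ((Ajᴴ * Aj + Akᴴ * Ak) * ρ)).re
  - 2 * (star c * trace (Ajᴴ * Ak * ρ)).re
  - hs (Vj * Ajᴴ) - hs (Vk * Akᴴ)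
  - 2 * (trace (Ajᴴ * Ak * (Vkᴴ * Vj))).re
  + 2 * (star c * trace (Ajᴴ * Ak * (Vjᴴ * Vj)) + c * trace (Akᴴ * Aj * (Vkᴴ * Vk))).re
  + 4 * (c * trace (Vkᴴ * Vj)).re
  - 2 * ‖c‖ ^ 2 * (trace (Vjᴴ * Vj) + trace (Vkᴴ * Vk)).re

end Pool.Agent.Helper150.Cb
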