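import Mathlib

namespace Pool.Agent.Helper150.Cb
open Matrix Complex
open scoped ComplexOrder ENNReal

universe v

/-- The operator on the Hilbert space direct sum of `k` copies of `H` given by a `k × k` matrix
of operators on `H`. -/
noncomputable def opMatrix {H : Type v} [NormedAddCommGroup H] [InnerProductSpace ℂ H] {k : ℕ}
    (x : Matrix (Fin k) (Fin k) (H →L[ℂ] H)) :
    PiLp 2 (fun _ : Fin k => H) →L[ℂ] PiLp 2 (fun _ : Fin k => H) :=
  (PiLp.continuousLinearEquiv 2 ℂ (fun _ : Fin k => H)).symm.toContinuousLinearMap ∘L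
    (ContinuousLinearMap.pi fun i => ∑ j, (x i j) ∘L
      (ContinuousLinearMap.proj (R := ℂ) (φ := fun _ : Fin k => H) j)) ∘L
    (PiLp.continuousLinearEquiv 2 ℂ (fun _ : Fin k => H)).toContinuousLinearMap

/-- The norm of `M_k(E)` for a subspace `E` of `B(H)`. -/
noncomputable def matNorm {H : Type v} [NormedAddCommGroup H] [InnerProductSpace ℂ H]
    (E : Submodule ℂ (H →L[ℂ] H)) {k : ℕ} (x : Matrix (Fin k) (Fin k) E) : ℝ :=
  ‖opMatrix (fun i j => (x i j : H →L[ℂ] H))‖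

/-- The norm of `u_k : M_k(E) → M_k(F)`, with values in `[0, ∞]`. -/
noncomputable def levelNorm {H K : Type v} [NormedAddCommGroup H] [InnerProductSpace ℂ H]
    [NormedAddCommGroup K] [InnerProductSpace ℂ K]
    {E : Submodule ℂ (H →L[ℂ] H)} {F : Submodule ℂ (K →L[ℂ] K)} (u : E →ₗ[ℂ] F) (k : ℕ) :
    ℝ≥0∞ :=
  ⨆ (x : Matrix (Fin k) (Fin k) E) (_ : matNorm E x ≤ 1),
    ENNReal.ofReal (matNorm F (fun i j => u (x i j)))

/-- The completely bounded norm, with values in `[0, ∞]`. -/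
noncomputable def cbNorm {H K : Type v} [NormedAddCommGroup H] [InnerProductSpace ℂ H]
    [NormedAddCommGroup K] [InnerProductSpace ℂ K]
    {E : Submodule ℂ (H →L[ℂ] H)} {F : Submodule ℂ (K →L[ℂ] K)} (u : E →ₗ[ℂ] F) : ℝ≥0∞ :=
  ⨆ (k : ℕ) (_ : 1 ≤ k), levelNorm u k

/-- The ordinary operator norm, with values in `[0, ∞]`. -/
noncomputable def ordNorm {H K : Type v} [NormedAddCommGroup H] [InnerProductSpace ℂ H]
    [NormedAddCommGroup K] [InnerProductSpace ℂ K]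
    {E : Submodule ℂ (H →L[ℂ] H)} {F : Submodule ℂ (K →L[ℂ] K)} (u : E →ₗ[ℂ] F) : ℝ≥0∞ :=
  ⨆ (x : E) (_ : ‖x‖ ≤ 1), ENNReal.ofReal ‖u x‖

/-- The property in the definition of `c*`. -/
def RankBound (c : ℝ) : Prop :=
  ∀ n : ℕ, 2 ≤ n → ∀ (H K : Type v) [NormedAddCommGroup H] [InnerProductSpace ℂ H]
    [CompleteSpace H] [NormedAddCommGroup K] [InnerProductSpace ℂ K] [CompleteSpace K]
    (E : Submodule ℂ (H →L[ℂ] H)) (F : Submodule ℂ (K →L[ℂ] K)),
    IsClosed (E : Set (H →L[ℂ] H)) → IsClosed (F : Set (K →L[ℂ] K)) →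
    ∀ u : E →ₗ[ℂ] F, LinearMap.rank u ≤ n →
      cbNorm u ≤ ENNReal.ofReal c * n * ordNorm u

/-- The optimal constant. -/
noncomputable def cStar : ℝ := sInf {c : ℝ | 0 < c ∧ RankBound.{v} c}

end Pool.Agent.Helper150.Cb
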