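import Pool.Agent.Helper150.Cb.Core
import Pool.Agent.Helper150.Cb.Defs

namespace Pool.Agent.Helper150.Cb
open Matrix Complex
open scoped ComplexOrder ENNReal

universe v

namespace PartLower


/-! auxiliary lemmas for the lower bound -/

section LowerAux

variable {H : Type v} [NormedAddCommGroup H] [InnerProductSpace ℂ H]

theorem low_opMatrix_apply {k : ℕ} (x : Matrix (Fin k) (Fin k) (H →L[ℂ] H))
    (ξ : PiLp 2 (fun _ : Fin k => H)) (i : Fin k) :
    (opMatrix x ξ) i = ∑ j, x i j (ξ j) := by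
  simp [opMatrix]

/-- rank one operator, linear in the first argument -/
noncomputable def lowPsi (e : Fin 2 → H) : H →ₗ[ℂ] (H →L[ℂ] H) where
  toFun h := InnerProductSpace.rankOne ℂ h (e 0)
  map_add' := by
    intro a b
    ext x
    simp
  map_smul' := by
    intro c a
    ext x
    simp

noncomputable def lowPhi (e : Fin 2 → H) : (H →L[ℂ] H) →ₗ[ℂ] H where
  toFun X := ∑ i, inner ℂ (e 0) (X (e i)) • e i
  map_add' := by
    intro X Y
    simp only [_root_.add_apply, inner_add_right, add_smul, Finset.sum_add_distrib]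
  map_smul' := by
    intro c X
    simp only [_root_.smul_apply, inner_smul_right, mul_smul, Finset.smul_sum,
      RingHom.id_apply]

theorem low_norm_sq (e : Fin 2 → H) (he : Orthonormal ℂ e) (a : Fin 2 → ℂ) :
    ‖∑ i, a i • e i‖ ^ 2 = ∑ i, ‖a i‖ ^ 2 := by
  have h1 := he.inner_sum a a Finset.univ
  have h2 : ((‖∑ i, a i • e i‖ ^ 2 : ℝ) : ℂ) = ((∑ i, ‖a i‖ ^ 2 : ℝ) : ℂ) := by
    have h3 := inner_self_eq_norm_sq_to_K (𝕜 := ℂ) (∑ i, a i • e i)
    rw [h1] at h3
    push_cast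
    have h4 : ∀ i, (starRingEnd ℂ) (a i) * a i = ((‖a i‖ : ℂ)) ^ 2 := fun i =>
      Complex.conj_mul' (a i)
    simp only [h4] at h3
    exact h3.symm
  exact_mod_cast h2

theorem low_phi_norm (e : Fin 2 → H) (he : Orthonormal ℂ e) (X : H →L[ℂ] H) :
    ‖lowPhi e X‖ ≤ ‖X‖ := by
  set a : Fin 2 → ℂ := fun i => inner ℂ (e 0) (X (e i)) with ha
  set Sm : ℝ := ∑ i, ‖a i‖ ^ 2 with hSm
  have hSm0 : 0 ≤ Sm := Finset.sum_nonneg fun i _ => by positivity
  have h1 : ‖lowPhi e X‖ ^ 2 = Sm := low_norm_sq e he a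
  set w : H := ∑ i, (starRingEnd ℂ) (a i) • e i with hw
  have h2 : ‖w‖ ^ 2 = Sm := by
    rw [hw, low_norm_sq e he, hSm]
    simp
  have h3 : inner ℂ (e 0) (X w) = ((Sm : ℝ) : ℂ) := by
    rw [hw, map_sum, inner_sum, hSm]
    push_cast
    apply Finset.sum_congr rfl
    intro i _
    rw [map_smul, inner_smul_right]
    exact Complex.conj_mul' (a i)
  have h4 : Sm ≤ ‖X‖ * ‖w‖ := by
    have h5 : ‖inner ℂ (e 0) (X w)‖ ≤ ‖e 0‖ * ‖X w‖ := norm_inner_le_norm _ _
    rw [h3, Complex.norm_real, Real.norm_of_nonneg hSm0, he.1 0, one_mul] at h5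
    exact h5.trans (X.le_opNorm w)
  have h6 : ‖w‖ = ‖lowPhi e X‖ := by
    rw [← sq_eq_sq₀ (norm_nonneg _) (norm_nonneg _), h1, h2]
  rw [h6, ← h1] at h4
  rcases (norm_nonneg (lowPhi e X)).eq_or_lt with h0 | h0
  · rw [← h0]; exact norm_nonneg _
  · rw [pow_two] at h4
    exact le_of_mul_le_mul_right h4 h0

theorem low_main [CompleteSpace H] (e : Fin 2 → H) (he : Orthonormal ℂ e)
    (hr : Module.rank ℂ H ≤ 2) (c : ℝ) (hc : 0 < c) (h : RankBound.{v} c) : 1 / √2 ≤ c := by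
  set E : Submodule ℂ (H →L[ℂ] H) := ⊤ with hE
  have hcl : IsClosed (E : Set (H →L[ℂ] H)) := by
    rw [hE]; exact isClosed_univ
  -- the map
  let ψ : H →ₗ[ℂ] E :=
    { toFun := fun x => ⟨lowPsi e x, trivial⟩
      map_add' := by intro a b; ext1; simp
      map_smul' := by intro a b; ext1; simp }
  let φ : E →ₗ[ℂ] H := (lowPhi e).comp E.subtype
  let u : E →ₗ[ℂ] E := ψ.comp φ
  have hu : ∀ x : E, (u x : H →L[ℂ] H) = InnerProductSpace.rankOne ℂ (lowPhi e (x : H →L[ℂ] H)) (e 0) :=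
    fun x => rfl
  have hrank : LinearMap.rank u ≤ ((2 : ℕ) : Cardinal) := by
    calc LinearMap.rank u ≤ LinearMap.rank ψ := LinearMap.rank_comp_le_left _ _
      _ ≤ Module.rank ℂ H := LinearMap.rank_le_domain _
      _ ≤ 2 := hr
      _ = ((2 : ℕ) : Cardinal) := by norm_num
  have hb := h 2 le_rfl H H E E hcl hcl u hrank
  have hord : ordNorm u ≤ 1 := by
    unfold ordNorm
    refine iSup₂_le fun x hx => ?_
    rw [← ENNReal.ofReal_one]
    apply ENNReal.ofReal_le_ofReal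
    have h1 : ‖u x‖ = ‖lowPhi e (x : H →L[ℂ] H)‖ := by
      change ‖(u x : H →L[ℂ] H)‖ = _
      rw [hu, InnerProductSpace.norm_rankOne, he.1 0, mul_one]
    rw [h1]
    exact (low_phi_norm e he _).trans hx
  -- lower bound for the cb norm
  let x : Matrix (Fin 2) (Fin 2) E := fun i j =>
    if j = 0 then ⟨InnerProductSpace.rankOne ℂ (e 0) (e i), trivial⟩ else 0
  have hx0 : ∀ i, ((x i 0 : E) : H →L[ℂ] H) = InnerProductSpace.rankOne ℂ (e 0) (e i) := fun i => rfl
  have hx1 : ∀ i, (x i 1 : E) = 0 := fun i => rfl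
  have hxn : matNorm E x ≤ 1 := by
    unfold matNorm
    refine ContinuousLinearMap.opNorm_le_bound _ zero_le_one fun ξ => ?_
    rw [one_mul]
    rw [← sq_le_sq₀ (norm_nonneg _) (norm_nonneg _)]
    rw [PiLp.norm_sq_eq_of_L2, PiLp.norm_sq_eq_of_L2]
    have h1 : ∀ i, (opMatrix (fun i j => (x i j : H →L[ℂ] H)) ξ) i = inner ℂ (e i) (ξ 0) • e 0 := by
      intro i
      refine (low_opMatrix_apply _ ξ i).trans ?_
      rw [Fin.sum_univ_two]
      change ((x i 0 : E) : H →L[ℂ] H) (ξ 0) + ((x i 1 : E) : H →L[ℂ] H) (ξ 1) = _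
      rw [hx0, hx1]
      simp
    have h2 : ∀ i, ‖(opMatrix (fun i j => (x i j : H →L[ℂ] H)) ξ) i‖ ^ 2 =
        ‖inner ℂ (e i) (ξ 0)‖ ^ 2 := by
      intro i
      rw [h1, norm_smul, he.1 0, mul_one]
    rw [Finset.sum_congr rfl (fun i _ => h2 i)]
    have h3 := he.sum_inner_products_le (x := ξ 0) (s := Finset.univ)
    refine h3.trans ?_
    rw [Fin.sum_univ_two]
    have : 0 ≤ ‖ξ 1‖ ^ 2 := by positivity
    linarith
  have hphi : ∀ i, lowPhi e (InnerProductSpace.rankOne ℂ (e 0) (e i)) = e i := by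
    intro i
    change ∑ j, inner ℂ (e 0) ((InnerProductSpace.rankOne ℂ (e 0) (e i)) (e j)) • e j = e i
    have h1 : ∀ j, inner ℂ (e 0) ((InnerProductSpace.rankOne ℂ (e 0) (e i)) (e j)) =
        inner ℂ (e i) (e j) := by
      intro j
      rw [InnerProductSpace.rankOne_apply, inner_smul_right, inner_self_eq_norm_sq_to_K, he.1 0]
      simp
    simp only [h1]
    rw [Finset.sum_eq_single i]
    · rw [inner_self_eq_norm_sq_to_K, he.1 i]; simp
    · intro j _ hj
      rw [he.2 (Ne.symm hj), zero_smul]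
    · intro hi; exact absurd (Finset.mem_univ i) hi
  have hlow : √2 ≤ matNorm E (fun i j => u (x i j)) := by
    unfold matNorm
    set T := opMatrix (fun i j => ((u (x i j) : E) : H →L[ℂ] H)) with hT
    let ξ : PiLp 2 (fun _ : Fin 2 => H) := WithLp.toLp 2 (fun j => if j = 0 then e 0 else 0)
    have hξ0 : ξ 0 = e 0 := rfl
    have hξ1 : ξ 1 = 0 := rfl
    have hξn : ‖ξ‖ = 1 := by
      have : ‖ξ‖ ^ 2 = 1 := by
        rw [PiLp.norm_sq_eq_of_L2, Fin.sum_univ_two, hξ0, hξ1, he.1 0]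
        simp
      have h0 := norm_nonneg ξ
      nlinarith
    have hTi : ∀ i, (T ξ) i = e i := by
      intro i
      refine (low_opMatrix_apply _ ξ i).trans ?_
      rw [Fin.sum_univ_two]
      change ((u (x i 0) : E) : H →L[ℂ] H) (ξ 0) + ((u (x i 1) : E) : H →L[ℂ] H) (ξ 1) = _
      rw [hξ1, map_zero, add_zero, hξ0, hu, hx0, hphi,
        InnerProductSpace.rankOne_apply, inner_self_eq_norm_sq_to_K, he.1 0]
      simp
    have hTn : ‖T ξ‖ ^ 2 = 2 := by
      rw [PiLp.norm_sq_eq_of_L2, Fin.sum_univ_two, hTi, hTi, he.1 0, he.1 1]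
      norm_num
    have h1 : ‖T ξ‖ = √2 := by
      rw [← hTn, Real.sqrt_sq (norm_nonneg _)]
    have h2 := T.le_opNorm ξ
    rw [hξn, mul_one, h1] at h2
    exact h2
  have hcb : ENNReal.ofReal (√2) ≤ cbNorm u := by
    calc ENNReal.ofReal (√2) ≤ ENNReal.ofReal (matNorm E (fun i j => u (x i j))) :=
          ENNReal.ofReal_le_ofReal hlow
      _ ≤ levelNorm u 2 := by
          unfold levelNorm
          exact le_iSup₂_of_le x hxn le_rfl
      _ ≤ cbNorm u := by
          unfold cbNorm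
          exact le_iSup₂_of_le 2 (by norm_num) le_rfl
  have hfin : ENNReal.ofReal (√2) ≤ ENNReal.ofReal (c * 2) := by
    calc ENNReal.ofReal (√2) ≤ ENNReal.ofReal c * ((2 : ℕ) : ℝ≥0∞) * ordNorm u := hcb.trans hb
      _ ≤ ENNReal.ofReal c * ((2 : ℕ) : ℝ≥0∞) * 1 := by gcongr
      _ = ENNReal.ofReal (c * 2) := by
          rw [mul_one, ENNReal.ofReal_mul hc.le]
          simp
  have hfin' : √2 ≤ c * 2 := (ENNReal.ofReal_le_ofReal_iff (by positivity)).1 hfin
  rw [div_le_iff₀ (by positivity)]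
  have h2 : √2 * √2 = 2 := Real.mul_self_sqrt (by norm_num)
  have h3 : 0 < √2 := by positivity
  nlinarith

end LowerAux



theorem lower (c : ℝ) (hc : 0 < c) (h : RankBound.{v} c) : 1 / √2 ≤ c := by
  let H := EuclideanSpace ℂ (ULift.{v} (Fin 2))
  have he : Orthonormal ℂ (fun i : Fin 2 => (EuclideanSpace.single (ULift.up.{v} i) (1 : ℂ) : H)) := by
    have h1 := (EuclideanSpace.basisFun (ULift.{v} (Fin 2)) ℂ).orthonormal
    have h2 := h1.comp (fun i : Fin 2 => ULift.up.{v} i) (fun a b hab => by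
      exact ULift.up_injective hab)
    have h3 : (fun i : Fin 2 => (EuclideanSpace.single (ULift.up.{v} i) (1 : ℂ) : H)) =
        (EuclideanSpace.basisFun (ULift.{v} (Fin 2)) ℂ) ∘ (fun i : Fin 2 => ULift.up.{v} i) := by
      funext i
      simp [H]
    rw [h3]
    exact h2
  have hr : Module.rank ℂ H ≤ 2 := by
    have h1 : Module.finrank ℂ H = 2 := by
      change Module.finrank ℂ (EuclideanSpace ℂ (ULift.{v} (Fin 2))) = 2
      rw [finrank_euclideanSpace]
      simp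
    rw [← Module.finrank_eq_rank, h1]
    norm_num
  exact low_main _ he hr c hc h

end PartLower

end Pool.Agent.Helper150.Cb
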