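import Pool.Agent.Helper150.Cb.Core
import Pool.Agent.Helper150.Cb.Defs
import Pool.Agent.Helper150.Cb.John
import Pool.Agent.Helper150.Cb.OpCore

namespace Pool.Agent.Helper150.Cb
open Matrix Complex
open scoped ComplexOrder ENNReal

universe v

namespace PartUpper
open PartJohn PartOpCore










theorem up_opMatrix_apply {H : Type v} [NormedAddCommGroup H] [InnerProductSpace ℂ H] {k : ℕ}
    (x : Fin k → Fin k → (H →L[ℂ] H)) (ξ : PiLp 2 (fun _ : Fin k => H)) (i : Fin k) :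
    opMatrix (fun i j => x i j) ξ i = ∑ j, x i j (ξ j) := by
  simp [opMatrix]

theorem up_stepA {H : Type v} [NormedAddCommGroup H] [InnerProductSpace ℂ H] {k : ℕ}
    (x : Matrix (Fin k) (Fin k) (H →L[ℂ] H)) (hx : ‖opMatrix x‖ ≤ 1) (α η : Fin k → ℂ) :
    ‖∑ p, ∑ q, (star (α p) * η q) • x p q‖ ≤
      Real.sqrt (∑ p, ‖α p‖ ^ 2) * Real.sqrt (∑ q, ‖η q‖ ^ 2) := by
  apply ContinuousLinearMap.opNorm_le_bound _ (by positivity)
  intro g
  set T := ∑ p, ∑ q, (star (α p) * η q) • x p q with hT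
  set f := T g with hf
  set F : PiLp 2 (fun _ : Fin k => H) := WithLp.toLp 2 (fun p => α p • f) with hF
  set G : PiLp 2 (fun _ : Fin k => H) := WithLp.toLp 2 (fun q => η q • g) with hG
  have hFn : ‖F‖ = Real.sqrt (∑ p, ‖α p‖ ^ 2) * ‖f‖ := by
    have h1 : ‖F‖ ^ 2 = (Real.sqrt (∑ p, ‖α p‖ ^ 2) * ‖f‖) ^ 2 := by
      rw [PiLp.norm_sq_eq_of_L2, mul_pow, Real.sq_sqrt (by positivity), Finset.sum_mul]
      apply Finset.sum_congr rfl
      intro p _
      rw [hF]
      simp only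
      rw [norm_smul, mul_pow]
    exact (pow_left_inj₀ (norm_nonneg _) (by positivity) two_ne_zero).1 h1
  have hGn : ‖G‖ = Real.sqrt (∑ q, ‖η q‖ ^ 2) * ‖g‖ := by
    have h1 : ‖G‖ ^ 2 = (Real.sqrt (∑ q, ‖η q‖ ^ 2) * ‖g‖) ^ 2 := by
      rw [PiLp.norm_sq_eq_of_L2, mul_pow, Real.sq_sqrt (by positivity), Finset.sum_mul]
      apply Finset.sum_congr rfl
      intro p _
      rw [hG]
      simp only
      rw [norm_smul, mul_pow]
    exact (pow_left_inj₀ (norm_nonneg _) (by positivity) two_ne_zero).1 h1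
  have hin : inner ℂ F (opMatrix x G) = inner ℂ f f := by
    rw [PiLp.inner_apply]
    have h2 : ∀ p, inner ℂ (F p) (opMatrix x G p) =
        inner ℂ f (∑ q, (star (α p) * η q) • x p q g) := by
      intro p
      have h20 := up_opMatrix_apply (fun i j => x i j) G p
      have h21 : opMatrix x G p = ∑ j, x p j (G j) := h20
      rw [h21, hF, hG]
      simp only
      rw [inner_smul_left, ← inner_smul_right, Finset.smul_sum]
      congr 1
      apply Finset.sum_congr rfl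
      intro q _
      rw [map_smul, smul_smul]
      rfl
    rw [Finset.sum_congr rfl (fun p _ => h2 p), ← inner_sum]
    congr 1
    rw [hf, hT]
    simp only [_root_.sum_apply, _root_.smul_apply]
  have h3 : ‖f‖ ^ 2 ≤ (Real.sqrt (∑ p, ‖α p‖ ^ 2) * ‖f‖) * (Real.sqrt (∑ q, ‖η q‖ ^ 2) * ‖g‖) := by
    have h4 : ‖inner ℂ F (opMatrix x G)‖ ≤ ‖F‖ * ‖opMatrix x G‖ := norm_inner_le_norm _ _
    have h5 : ‖opMatrix x G‖ ≤ ‖G‖ := by
      refine (ContinuousLinearMap.le_opNorm _ _).trans ?_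
      calc ‖opMatrix x‖ * ‖G‖ ≤ 1 * ‖G‖ := mul_le_mul_of_nonneg_right hx (norm_nonneg _)
        _ = ‖G‖ := one_mul _
    rw [hin, inner_self_eq_norm_sq_to_K, norm_pow] at h4
    have h6 : ‖((‖f‖ : ℝ) : ℂ)‖ = ‖f‖ := by simp
    have h7 : ‖f‖ ^ 2 ≤ ‖F‖ * ‖opMatrix x G‖ := by
      convert h4 using 2
      exact h6.symm
    rw [← hFn, ← hGn]
    exact h7.trans (mul_le_mul_of_nonneg_left h5 (norm_nonneg _))
  rcases (norm_nonneg f).lt_or_eq with h0 | h0
  · have h8 : ‖f‖ * ‖f‖ ≤ ‖f‖ * (Real.sqrt (∑ p, ‖α p‖ ^ 2) * Real.sqrt (∑ q, ‖η q‖ ^ 2) * ‖g‖) := by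
      nlinarith
    exact le_of_mul_le_mul_left h8 h0
  · rw [← h0]; positivity

theorem up_func {H : Type v} [NormedAddCommGroup H] [InnerProductSpace ℂ H]
    (E : Submodule ℂ (H →L[ℂ] H)) {k : ℕ} (x : Matrix (Fin k) (Fin k) E)
    (hx : matNorm E x ≤ 1) (φ : E →ₗ[ℂ] ℂ) {C : ℝ} (hC : 0 ≤ C) (hφ : ∀ e, ‖φ e‖ ≤ C * ‖e‖)
    (η : Fin k → ℂ) :
    ∑ p, ‖∑ q, φ (x p q) * η q‖ ^ 2 ≤ C ^ 2 * ∑ q, ‖η q‖ ^ 2 := by
  set y : Fin k → ℂ := fun p => ∑ q, φ (x p q) * η q with hy
  set S : ℝ := ∑ p, ‖y p‖ ^ 2 with hS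
  have hS0 : 0 ≤ S := by positivity
  set e : E := ∑ p, ∑ q, (star (y p) * η q) • x p q with he
  have h1 : ‖e‖ ≤ Real.sqrt S * Real.sqrt (∑ q, ‖η q‖ ^ 2) := by
    have := up_stepA (fun i j => (x i j : H →L[ℂ] H)) hx y η
    have h2 : (e : H →L[ℂ] H) = ∑ p, ∑ q, (star (y p) * η q) • (x p q : H →L[ℂ] H) := by
      rw [he]
      push_cast
      rfl
    have h20 : ‖e‖ = ‖(e : H →L[ℂ] H)‖ := rfl
    rw [h20, h2]
    exact this
  have h3 : φ e = (S : ℂ) := by
    rw [he, map_sum, hS]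
    push_cast
    apply Finset.sum_congr rfl
    intro p _
    rw [map_sum]
    have h4 : ((‖y p‖ : ℂ)) ^ 2 = star (y p) * y p := by
      have := Complex.conj_mul' (y p)
      rw [← this]
      rfl
    rw [h4]
    conv_rhs => rw [hy]
    simp only
    rw [Finset.mul_sum]
    apply Finset.sum_congr rfl
    intro q _
    rw [map_smul, smul_eq_mul]
    ring
  have h5 : S ≤ C * (Real.sqrt S * Real.sqrt (∑ q, ‖η q‖ ^ 2)) := by
    have h6 := hφ e
    rw [h3, Complex.norm_real, Real.norm_of_nonneg hS0] at h6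
    exact h6.trans (mul_le_mul_of_nonneg_left h1 hC)
  rcases hS0.lt_or_eq with h0 | h0
  · have hs : 0 < Real.sqrt S := Real.sqrt_pos.2 h0
    have h7 : Real.sqrt S * Real.sqrt S ≤
        Real.sqrt S * (C * Real.sqrt (∑ q, ‖η q‖ ^ 2)) := by
      rw [Real.mul_self_sqrt hS0]
      linarith
    have h8 := le_of_mul_le_mul_left h7 hs
    have h9 := pow_le_pow_left₀ hs.le h8 2
    rw [Real.sq_sqrt hS0, mul_pow, Real.sq_sqrt (by positivity)] at h9
    exact h9
  · rw [← h0]; positivity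

theorem up_main {H K : Type v} [NormedAddCommGroup H] [InnerProductSpace ℂ H]
    [NormedAddCommGroup K] [InnerProductSpace ℂ K]
    (E : Submodule ℂ (H →L[ℂ] H)) (F : Submodule ℂ (K →L[ℂ] K)) (u : E →ₗ[ℂ] F)
    {r : ℕ} (hr : 2 ≤ r) {ι : Type} [Fintype ι]
    (lam : ι → ℝ) (h : ι → Fin r → ℂ) (hlam : ∀ k, 0 ≤ lam k)
    (hunit : ∀ k, dotc (h k) (h k) = 1)
    (hframe : ∀ i j, (r : ℂ) * ∑ k, (lam k : ℂ) * (h k i * star (h k j)) = if i = j then 1 else 0)
    {C : ℝ} (hC : 0 < C) (φ : Fin r → E →ₗ[ℂ] ℂ)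
    (hφ : ∀ k e, ‖dotc (h k) (fun l => φ l e)‖ ≤ C * ‖e‖) (V : Fin r → K →L[ℂ] K)
    (hV : ∀ (z : Fin r → ℂ) (ξ : K), ‖∑ l, z l • V l ξ‖ ^ 2 ≤ (∑ l, ‖z l‖ ^ 2) * ‖ξ‖ ^ 2)
    (hu : ∀ e ξ, (u e : K →L[ℂ] K) ξ = ∑ l, φ l e • V l ξ)
    {m : ℕ} (x : Matrix (Fin m) (Fin m) E) (hx : matNorm E x ≤ 1) :
    matNorm F (fun i j => u (x i j)) ≤ r / √2 * C := by
  have hcore := fun ξ : Fin m → K => op_core hr lam h hlam hunit hframe
    (fun l p q => ((C : ℂ))⁻¹ * φ l (x p q)) (by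
      intro k η
      have h1 := up_func E x hx (∑ l, (star (h k l)) • φ l) hC.le (by
        intro e
        have h2 := hφ k e
        unfold dotc at h2
        simpa [LinearMap.sum_apply] using h2) η
      have h3 : ∀ p q, dotc (h k) (fun l => ((C : ℂ))⁻¹ * φ l (x p q)) =
          ((C : ℂ))⁻¹ * (∑ l, (star (h k l)) • φ l) (x p q) := by
        intro p q
        unfold dotc
        rw [LinearMap.sum_apply, Finset.mul_sum]
        apply Finset.sum_congr rfl
        intro l _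
        rw [LinearMap.smul_apply, smul_eq_mul]
        ring
      have h4 : ∀ p, ‖∑ q, dotc (h k) (fun l => ((C : ℂ))⁻¹ * φ l (x p q)) * η q‖ ^ 2 =
          (C⁻¹) ^ 2 * ‖∑ q, (∑ l, (star (h k l)) • φ l) (x p q) * η q‖ ^ 2 := by
        intro p
        rw [← mul_pow]
        congr 1
        have h5 : ∑ q, dotc (h k) (fun l => ((C : ℂ))⁻¹ * φ l (x p q)) * η q =
            ((C : ℂ))⁻¹ * ∑ q, (∑ l, (star (h k l)) • φ l) (x p q) * η q := by
          rw [Finset.mul_sum]
          apply Finset.sum_congr rfl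
          intro q _
          rw [h3]
          ring
        rw [h5, norm_mul, norm_inv, Complex.norm_real, Real.norm_of_nonneg hC.le]
      rw [Finset.sum_congr rfl (fun p _ => h4 p), ← Finset.mul_sum]
      calc (C⁻¹) ^ 2 * ∑ p, ‖∑ q, (∑ l, (star (h k l)) • φ l) (x p q) * η q‖ ^ 2
          ≤ (C⁻¹) ^ 2 * (C ^ 2 * ∑ q, ‖η q‖ ^ 2) := mul_le_mul_of_nonneg_left h1 (by positivity)
        _ = ∑ q, ‖η q‖ ^ 2 := by field_simp)
    (fun l => (V l : K →ₗ[ℂ] K)) (by
      intro z ξ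
      exact hV z ξ) ξ
  unfold matNorm
  apply ContinuousLinearMap.opNorm_le_bound _ (by positivity)
  intro ξ
  have h6 := hcore (fun q => ξ q)
  have h7 : ‖opMatrix (fun i j => (u (x i j) : K →L[ℂ] K)) ξ‖ ^ 2 ≤ (r / √2 * C * ‖ξ‖) ^ 2 := by
    rw [PiLp.norm_sq_eq_of_L2]
    have h8 : ∀ p, ‖opMatrix (fun i j => (u (x i j) : K →L[ℂ] K)) ξ p‖ ^ 2 =
        C ^ 2 * ‖∑ l, ∑ q, (((C : ℂ))⁻¹ * φ l (x p q)) • (V l : K →ₗ[ℂ] K) (ξ q)‖ ^ 2 := by
      intro p
      have h80 := up_opMatrix_apply (fun i j => (u (x i j) : K →L[ℂ] K)) ξ p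
      rw [h80, ← mul_pow]
      congr 1
      have h9 : ∑ q, (u (x p q) : K →L[ℂ] K) (ξ q) =
          (C : ℂ) • ∑ l, ∑ q, (((C : ℂ))⁻¹ * φ l (x p q)) • (V l : K →ₗ[ℂ] K) (ξ q) := by
        rw [Finset.sum_comm, Finset.smul_sum]
        apply Finset.sum_congr rfl
        intro q _
        rw [hu, Finset.smul_sum]
        apply Finset.sum_congr rfl
        intro l _
        rw [smul_smul, ← mul_assoc, mul_inv_cancel₀ (by exact_mod_cast hC.ne'), one_mul]
        rfl
      rw [h9, norm_smul, Complex.norm_real, Real.norm_of_nonneg hC.le]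
    rw [Finset.sum_congr rfl (fun p _ => h8 p), ← Finset.mul_sum]
    have h10 : (r / √2 * C * ‖ξ‖) ^ 2 = C ^ 2 * ((r : ℝ) ^ 2 / 2 * ∑ q, ‖ξ q‖ ^ 2) := by
      rw [← PiLp.norm_sq_eq_of_L2, mul_pow, mul_pow, div_pow, Real.sq_sqrt (by norm_num)]
      ring
    rw [h10]
    exact mul_le_mul_of_nonneg_left h6 (by positivity)
  exact (pow_le_pow_iff_left₀ (norm_nonneg _) (by positivity) two_ne_zero).1 h7

theorem up_key1 {H K : Type v} [NormedAddCommGroup H] [InnerProductSpace ℂ H]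
    [NormedAddCommGroup K] [InnerProductSpace ℂ K]
    (E : Submodule ℂ (H →L[ℂ] H)) (F : Submodule ℂ (K →L[ℂ] K)) (u : E →ₗ[ℂ] F)
    {n : ℕ} (hn : 2 ≤ n) {X : Type v} [NormedAddCommGroup X] [NormedSpace ℂ X]
    [FiniteDimensional ℂ X] (jX : X →ₗ[ℂ] (K →L[ℂ] K)) (hjX : ∀ y, ‖jX y‖ = ‖y‖)
    (uX : E →ₗ[ℂ] X) (huX : ∀ e, ((u e : F) : K →L[ℂ] K) = jX (uX e))
    (hr0 : 0 < Module.finrank ℂ X) (hr : Module.finrank ℂ X ≤ n)
    {C : ℝ} (hC : 0 < C) (huC : ∀ e, ‖uX e‖ ≤ C * ‖e‖)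
    {m : ℕ} (x : Matrix (Fin m) (Fin m) E) (hx : matNorm E x ≤ 1) :
    matNorm F (fun i j => u (x i j)) ≤ n / √2 * C := by
  set r := Module.finrank ℂ X with hrdef
  obtain ⟨w, N, lam, h, hw, hlam, hunit, hdot, hframe⟩ := john hr0 (X := X) hrdef.symm
  -- the functionals and the operators
  have hsum : ∀ (z : Fin r → ℂ) (ξ : K), jX (w z) ξ =
      ∑ l, z l • jX (w (Pi.single l 1)) ξ := by
    intro z ξ
    have h1 : z = ∑ l, z l • (Pi.single l (1 : ℂ) : Fin r → ℂ) := by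
      ext j
      simp [Finset.sum_apply, Pi.single_apply]
    conv_lhs => rw [h1]
    rw [map_sum, map_sum, _root_.sum_apply]
    simp only [map_smul, _root_.smul_apply]
  have hwn : ∀ (z : Fin r → ℂ) (ξ : K), ‖∑ l, z l • jX (w (Pi.single l 1)) ξ‖ ^ 2 ≤
      (∑ l, ‖z l‖ ^ 2) * ‖ξ‖ ^ 2 := by
    intro z ξ
    rw [← hsum]
    have h2 := ContinuousLinearMap.le_opNorm (jX (w z)) ξ
    have h3 := pow_le_pow_left₀ (norm_nonneg _) h2 2
    rw [mul_pow, hjX] at h3
    exact h3.trans (mul_le_mul_of_nonneg_right (hw z) (by positivity))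
  have huw : ∀ e, ((u e : F) : K →L[ℂ] K) = jX (w (w.symm (uX e))) := by
    intro e
    rw [LinearEquiv.apply_symm_apply, huX]
  have hφ : ∀ k e, ‖dotc (h k) (w.symm (uX e))‖ ≤ C * ‖e‖ := by
    intro k e
    refine (hdot k _).trans ?_
    rw [LinearEquiv.apply_symm_apply]
    exact huC e
  rcases Nat.lt_or_ge r 2 with h2 | h2
  · -- r = 1
    have hr1 : r = 1 := by omega
    have hk : Nonempty (Fin N) := by
      by_contra hc
      rw [not_nonempty_iff] at hc
      have := hframe ⟨0, hr0⟩ ⟨0, hr0⟩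
      simp at this
    obtain ⟨k⟩ := hk
    obtain ⟨o, huniq⟩ : ∃ o : Fin r, ∀ l : Fin r, l = o := by
      refine ⟨⟨0, hr0⟩, fun l => ?_⟩
      ext
      simp only
      omega
    have hsum1 : ∀ (f : Fin r → K), ∑ l, f l = f o := by
      intro f
      apply Finset.sum_eq_single o
      · intro b _ hb
        exact absurd (huniq b) hb
      · intro hh
        exact absurd (Finset.mem_univ _) hh
    have hsum2 : ∀ (f : Fin r → ℂ), ∑ l, f l = f o := by
      intro f
      apply Finset.sum_eq_single o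
      · intro b _ hb
        exact absurd (huniq b) hb
      · intro hh
        exact absurd (Finset.mem_univ _) hh
    have hsum3 : ∀ (f : Fin r → ℝ), ∑ l, f l = f o := by
      intro f
      apply Finset.sum_eq_single o
      · intro b _ hb
        exact absurd (huniq b) hb
      · intro hh
        exact absurd (Finset.mem_univ _) hh
    have hhn : ‖h k o‖ = 1 := by
      have h3 := hunit k
      unfold dotc at h3
      rw [hsum2] at h3
      have h4 := congrArg norm h3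
      rw [norm_mul, norm_star, norm_one] at h4
      nlinarith [norm_nonneg (h k o)]
    have hfin2 : matNorm F (fun i j => u (x i j)) ≤ ((2 : ℕ) : ℝ) / √2 * C := by
      refine up_main E F u le_rfl (ι := Fin 2) (fun _ => 1 / 2) (fun k => Pi.single k 1)
        (fun _ => by norm_num) ?_ ?_ hC
        ![LinearMap.proj o ∘ₗ w.symm.toLinearMap ∘ₗ uX, 0] ?_
        ![jX (w (Pi.single o 1)), 0] ?_ ?_ x hx
      · intro k
        fin_cases k <;> simp [dotc, Fin.sum_univ_two]
      · intro i j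
        fin_cases i <;> fin_cases j <;> simp [Fin.sum_univ_two]
      · intro k' e
        have h5 := hφ k e
        unfold dotc at h5
        rw [hsum2, norm_mul, norm_star, hhn, one_mul] at h5
        fin_cases k'
        · simpa [dotc, Fin.sum_univ_two] using h5
        · simp [dotc, Fin.sum_univ_two]
          positivity
      · intro z ξ
        have h5 := hwn (Pi.single o (z 0)) ξ
        rw [hsum1, hsum3] at h5
        simp only [Pi.single_eq_same] at h5
        simp only [Fin.sum_univ_two, Matrix.cons_val_zero, Matrix.cons_val_one,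
          _root_.zero_apply, smul_zero, add_zero]
        refine h5.trans ?_
        apply mul_le_mul_of_nonneg_right _ (by positivity)
        have : 0 ≤ ‖z 1‖ ^ 2 := by positivity
        linarith
      · intro e ξ
        rw [huw, hsum, hsum1]
        simp [Fin.sum_univ_two]
    refine hfin2.trans ?_
    apply mul_le_mul_of_nonneg_right _ hC.le
    apply div_le_div_of_nonneg_right _ (by positivity)
    exact_mod_cast hn
  · have hfin2 : matNorm F (fun i j => u (x i j)) ≤ (r : ℝ) / √2 * C := by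
      refine up_main E F u h2 lam h hlam hunit hframe hC
        (fun l => LinearMap.proj l ∘ₗ w.symm.toLinearMap ∘ₗ uX) ?_
        (fun l => jX (w (Pi.single l 1))) hwn ?_ x hx
      · intro k e
        exact hφ k e
      · intro e ξ
        rw [huw, hsum]
        rfl
    refine hfin2.trans ?_
    apply mul_le_mul_of_nonneg_right _ hC.le
    apply div_le_div_of_nonneg_right _ (by positivity)
    exact_mod_cast hr

set_option maxHeartbeats 4000000 in
theorem up_key {H K : Type v} [NormedAddCommGroup H] [InnerProductSpace ℂ H]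
    [NormedAddCommGroup K] [InnerProductSpace ℂ K]
    (E : Submodule ℂ (H →L[ℂ] H)) (F : Submodule ℂ (K →L[ℂ] K)) (u : E →ₗ[ℂ] F)
    {n : ℕ} (hn : 2 ≤ n) (hrank : LinearMap.rank u ≤ n)
    {C : ℝ} (hC : 0 ≤ C) (huC : ∀ e, ‖u e‖ ≤ C * ‖e‖)
    {m : ℕ} (x : Matrix (Fin m) (Fin m) E) (hx : matNorm E x ≤ 1) :
    matNorm F (fun i j => u (x i j)) ≤ n / √2 * C := by
  -- the case u = 0
  by_cases hu0 : ∀ e, u e = 0
  · have h1 : matNorm F (fun i j => u (x i j)) ≤ 0 := by
      unfold matNorm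
      refine ContinuousLinearMap.opNorm_le_bound _ le_rfl (fun ξ => ?_)
      have h2 : opMatrix (fun i j => ((u (x i j) : F) : K →L[ℂ] K)) ξ = 0 := by
        ext i
        have h80 := up_opMatrix_apply (fun i j => ((u (x i j) : F) : K →L[ℂ] K)) ξ i
        rw [h80]
        simp [hu0]
      have h3 : ‖opMatrix (fun i j => ((u (x i j) : F) : K →L[ℂ] K)) ξ‖ = 0 := by
        rw [h2, norm_zero]
      rw [zero_mul]
      exact h3.le
    exact h1.trans (by positivity)
  have hCpos : 0 < C := by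
    rcases hC.lt_or_eq with h | h
    · exact h
    · exfalso
      apply hu0
      intro e
      have := huC e
      rw [← h, zero_mul] at this
      exact norm_le_zero_iff.1 this
  set U : E →ₗ[ℂ] (K →L[ℂ] K) := F.subtype ∘ₗ u with hU
  have hrankU : LinearMap.rank U ≤ n := (LinearMap.rank_comp_le_right u F.subtype).trans hrank
  have hrankU' : Module.rank ℂ (LinearMap.range U) ≤ n := hrankU
  have hfin : Module.Finite ℂ (LinearMap.range U) := by
    rw [← Module.rank_lt_aleph0_iff]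
    exact lt_of_le_of_lt hrankU' (Cardinal.natCast_lt_aleph0)
  have hr : Module.finrank ℂ (LinearMap.range U) ≤ n := Module.finrank_le_of_rank_le hrankU'
  have hr0 : 0 < Module.finrank ℂ (LinearMap.range U) := by
    rw [Module.finrank_pos_iff, Submodule.nontrivial_iff_ne_bot]
    intro hb
    rw [LinearMap.range_eq_bot] at hb
    apply hu0
    intro e
    have := LinearMap.congr_fun hb e
    exact Subtype.ext this
  exact up_key1 E F u hn (X := LinearMap.range U) (LinearMap.range U).subtype (fun _ => rfl)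
    U.rangeRestrict (fun _ => rfl) hr0 hr hCpos (fun e => huC e) x hx

theorem upper : RankBound.{v} (1 / √2) := by
  intro n hn H K _ _ _ _ _ _ E F _ _ u hrank
  have hn0 : (n : ℝ≥0∞) ≠ 0 := by
    have : n ≠ 0 := by omega
    exact_mod_cast this
  have hs0 : ENNReal.ofReal (1 / √2) ≠ 0 := by
    rw [Ne, ENNReal.ofReal_eq_zero, not_le]
    positivity
  by_cases htop : ordNorm u = ⊤
  · rw [htop, ENNReal.mul_top (mul_ne_zero hs0 hn0)]
    exact le_top
  set C : ℝ := (ordNorm u).toReal with hCdef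
  have hC : 0 ≤ C := ENNReal.toReal_nonneg
  have hord : ordNorm u = ENNReal.ofReal C := (ENNReal.ofReal_toReal htop).symm
  have h1 : ∀ e : E, ‖e‖ ≤ 1 → ‖u e‖ ≤ C := by
    intro e he
    have h2 : ENNReal.ofReal ‖u e‖ ≤ ordNorm u := le_iSup₂_of_le e he le_rfl
    rw [hord] at h2
    exact (ENNReal.ofReal_le_ofReal_iff hC).1 h2
  have h2 : ∀ e : E, ‖u e‖ ≤ C * ‖e‖ := by
    intro e
    by_cases he : e = 0
    · rw [he, map_zero, norm_zero, norm_zero, mul_zero]
    · have hpos : 0 < ‖e‖ := norm_pos_iff.2 he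
      have h3 := h1 (((‖e‖⁻¹ : ℝ) : ℂ) • e) (by
        rw [norm_smul, Complex.norm_real, norm_inv, norm_norm, inv_mul_cancel₀ hpos.ne'])
      rw [map_smul, norm_smul, Complex.norm_real, norm_inv, norm_norm, inv_mul_le_iff₀ hpos] at h3
      linarith
  have h3 : ENNReal.ofReal (1 / √2) * n * ordNorm u = ENNReal.ofReal (n / √2 * C) := by
    rw [hord, ← ENNReal.ofReal_natCast, ← ENNReal.ofReal_mul (by positivity),
      ← ENNReal.ofReal_mul (by positivity)]
    congr 1
    ring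
  rw [h3]
  unfold cbNorm levelNorm
  refine iSup₂_le fun k _ => iSup₂_le fun x hx => ?_
  exact ENNReal.ofReal_le_ofReal (up_key E F u hn hrank hC h2 x hx)

end PartUpper

end Pool.Agent.Helper150.Cb
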